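import Mathlib

/-!
Definitions for problem MP_74475a_ag: Borel-fixed ideals of finite colength in
`ℂ[x_1, …, x_N]` and the maximal tangent dimension `T_max,m(l)`.
The variable `x_{i+1}` of the problem is `X i` for `i : Fin N`.
-/

namespace Pool.Agent.MP_74475a_ag

open MvPolynomial

/-- The polynomial ring `A = ℂ[x_1, …, x_N]`; `x_{i+1}` is `X i`, `i : Fin N`. -/
abbrev Poly (N : ℕ) : Type := MvPolynomial (Fin N) ℂ

/-- `I` is Borel-fixed: it is stable under every substitution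
`x_j ↦ ∑_{i ≤ j} b_{ij} x_i` with `b` an invertible upper-triangular matrix. -/
def BorelFixed {N : ℕ} (I : Ideal (Poly N)) : Prop :=
  ∀ b : Matrix (Fin N) (Fin N) ℂ, (∀ i j, j < i → b i j = 0) → (∀ i, b i i ≠ 0) →
    ∀ f ∈ I, aeval (fun j => ∑ i, C (b i j) * X i) f ∈ I

/-- The colength of `I` is `l`: the complex vector space `A / I` is finite-dimensional,
of dimension `l`. -/
def HasColength {N : ℕ} (I : Ideal (Poly N)) (l : ℕ) : Prop :=
  Module.Finite ℂ (Poly N ⧸ I) ∧ Module.finrank ℂ (Poly N ⧸ I) = l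

/-- `m_1(I)`: the least exponent `m` with `x_1 ^ m ∈ I`. -/
noncomputable def mOne {N : ℕ} (I : Ideal (Poly N)) : ℕ :=
  sInf {m : ℕ | ∀ i : Fin N, (i : ℕ) = 0 → (X i : Poly N) ^ m ∈ I}

/-- `T(I) = dim_ℂ Hom_A(I, A / I)`. -/
noncomputable def tangentDim {N : ℕ} (I : Ideal (Poly N)) : ℕ :=
  Module.finrank ℂ (I →ₗ[Poly N] (Poly N ⧸ I))

/-- The set of all values `T(I)`, for `I ⊂ ℂ[x_1, …, x_N]` Borel-fixed of colength `l`
with `m_1(I) = m`. -/
def TSet (N m l : ℕ) : Set ℕ :=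
  {t | ∃ I : Ideal (Poly N), BorelFixed I ∧ HasColength I l ∧ mOne I = m ∧ tangentDim I = t}

/-- `T_max,m(l)` in `N` variables: the maximum of `TSet N m l`. -/
noncomputable def TMax (N m l : ℕ) : ℕ := sSup (TSet N m l)

end Pool.Agent.MP_74475a_ag
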