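import Mathlib
import Pool.Agent.MP_74475a_ag.Defs

/-!
The combinatorial description of Borel-fixed ideals.
-/

namespace Pool.Agent.MP_74475a_ag

open MvPolynomial

/-- monomial ideals -/
def MonomialIdeal {N : ℕ} (I : Ideal (Poly N)) : Prop :=
  ∀ f ∈ I, ∀ a ∈ f.support, monomial a (1 : ℂ) ∈ I

/-- closure of the monomials under `x_j → x_i`, `i < j` -/
def BorelExch {N : ℕ} (I : Ideal (Poly N)) : Prop :=
  ∀ (a : Fin N →₀ ℕ) (i j : Fin N), i < j →
    monomial (a + Finsupp.single j 1) (1 : ℂ) ∈ I → monomial (a + Finsupp.single i 1) (1 : ℂ) ∈ I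

theorem monomialIdeal_of_borelFixed {N : ℕ} {I : Ideal (Poly N)} (h : BorelFixed I) :
    MonomialIdeal I := by
  intro f hf a ha
  -- it suffices that every linear functional on the quotient kills `x^a`
  rw [← Ideal.Quotient.eq_zero_iff_mem]
  rw [← Module.forall_dual_apply_eq_zero_iff ℂ]
  intro ℓ
  -- the polynomial in `t`
  let p : MvPolynomial (Fin N) ℂ :=
    ∑ b ∈ f.support, monomial b (coeff b f * ℓ (Ideal.Quotient.mk I (monomial b (1 : ℂ))))
  have key : ∀ t : Fin N → ℂ, (∀ i, t i ≠ 0) → eval t p = 0 := by
    intro t ht
    have h1 := h (Matrix.diagonal t) (by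
      intro i j hij
      exact Matrix.diagonal_apply_ne _ (ne_of_gt hij)) (by
      intro i
      simpa using ht i) f hf
    have h2 : aeval (fun j => ∑ i, C (Matrix.diagonal t i j) * X i) f =
        ∑ b ∈ f.support, (coeff b f * ∏ i, t i ^ b i) • monomial b (1 : ℂ) := by
      have h3 : (fun j => ∑ i, C (Matrix.diagonal t i j) * X i) =
          (fun j => (C (t j) * X j : Poly N)) := by
        funext j
        rw [Finset.sum_eq_single j]
        · simp
        · intro b _ hb
          simp [Matrix.diagonal_apply_ne _ hb]
        · intro hj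
          exact absurd (Finset.mem_univ j) hj
      rw [h3]
      conv_lhs => rw [f.as_sum]
      rw [map_sum]
      refine Finset.sum_congr rfl ?_
      intro b _
      rw [aeval_monomial]
      simp only [mul_pow]
      rw [Finsupp.prod_fintype _ _ (by intro i; simp)]
      rw [Finset.prod_mul_distrib, smul_monomial]
      have h4 : (∏ i, (X i : Poly N) ^ b i) = monomial b (1 : ℂ) := by
        rw [monomial_eq]
        simp [Finsupp.prod_fintype]
      rw [h4]
      simp only [algebraMap_eq, ← C_pow, ← map_prod]
      rw [C_mul_monomial, C_mul_monomial]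
      simp
    rw [h2] at h1
    have h5 : ℓ (Ideal.Quotient.mk I
        (∑ b ∈ f.support, (coeff b f * ∏ i, t i ^ b i) • monomial b (1 : ℂ))) = 0 := by
      rw [Ideal.Quotient.eq_zero_iff_mem.mpr h1, map_zero]
    rw [map_sum, map_sum] at h5
    rw [map_sum]
    rw [← h5]
    refine Finset.sum_congr rfl ?_
    intro b _
    rw [eval_monomial, Finsupp.prod_fintype _ _ (by intro i; simp)]
    have h6 : Ideal.Quotient.mk I ((coeff b f * ∏ i, t i ^ b i) • monomial b (1 : ℂ)) =
        (coeff b f * ∏ i, t i ^ b i) • Ideal.Quotient.mk I (monomial b (1 : ℂ)) := by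
      rfl
    rw [h6, map_smul, smul_eq_mul]
    ring
  have hp : p * ∏ i, X i = 0 := by
    apply MvPolynomial.funext
    intro t
    rw [map_mul, map_zero, map_prod]
    simp only [eval_X]
    by_cases ht : ∀ i, t i ≠ 0
    · rw [key t ht, zero_mul]
    · push Not at ht
      obtain ⟨i, hi⟩ := ht
      rw [Finset.prod_eq_zero (Finset.mem_univ i) hi, mul_zero]
  have hp0 : p = 0 := by
    rcases mul_eq_zero.mp hp with h | h
    · exact h
    · rw [Finset.prod_eq_zero_iff] at h
      obtain ⟨i, _, hi⟩ := h
      exact absurd hi (X_ne_zero i)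
  have h7 : coeff a p = coeff a f * ℓ (Ideal.Quotient.mk I (monomial a (1 : ℂ))) := by
    simp only [p, coeff_sum, coeff_monomial]
    rw [Finset.sum_ite_eq_of_mem']
    exact ha
  rw [hp0, coeff_zero] at h7
  rcases mul_eq_zero.mp h7.symm with h8 | h8
  · exact absurd h8 (mem_support_iff.mp ha)
  · exact h8

theorem borelExch_of_borelFixed {N : ℕ} {I : Ideal (Poly N)} (h : BorelFixed I) :
    BorelExch I := by
  intro a i j hij ha
  have hmon := monomialIdeal_of_borelFixed h
  -- write `a = a' + n e_j`, with `a' j = 0`
  have h1 := h (fun p q => if p = q then 1 else if p = i ∧ q = j then 1 else 0) (by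
    intro p q hpq
    have h2 : p ≠ q := ne_of_gt hpq
    simp only [h2, if_false, ite_eq_right_iff]
    rintro ⟨rfl, rfl⟩
    exact absurd hpq (not_lt.mpr hij.le)) (by intro p; simp) _ ha
  have hsub : (fun q => ∑ p, C ((fun p q => if p = q then (1 : ℂ) else if p = i ∧ q = j then 1
      else 0) p q) * X p) =
      (fun q : Fin N => if q = j then (X j + X i : Poly N) else X q) := by
    funext q
    have this : ∀ p : Fin N, (C (if p = q then (1 : ℂ) else if p = i ∧ q = j then 1 else 0) * X p :
        Poly N) = (if p = q then X p else 0) + (if p = i then (if q = j then X p else 0) else 0) := by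
      intro p
      by_cases hp : p = q
      · subst hp
        by_cases hp' : p = i
        · subst hp'
          have : p ≠ j := ne_of_lt hij
          simp [this]
        · simp [hp']
      · by_cases hp' : p = i
        · subst hp'
          by_cases hq : q = j
          · subst hq
            simp [hp]
          · simp [hp, hq]
        · simp [hp, hp']
    have h5 : ∑ p : Fin N, (C (if p = q then (1 : ℂ) else if p = i ∧ q = j then 1 else 0) * X p :
        Poly N) = if q = j then (X j + X i : Poly N) else X q := by
      rw [Finset.sum_congr rfl (fun p _ => this p), Finset.sum_add_distrib]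
      by_cases hq : q = j
      · simp [hq]
      · simp [hq]
    exact h5
  rw [hsub, aeval_monomial, map_one, one_mul] at h1
  -- decompose
  set n : ℕ := a j with hn
  set b : Fin N →₀ ℕ := a.erase j with hb
  have hab : a = b + Finsupp.single j n := by
    rw [hb, hn, add_comm, Finsupp.single_add_erase]
  have hbj : b j = 0 := by rw [hb]; simp
  have h3 : (a + Finsupp.single j 1).prod
      (fun q e => (if q = j then (X j + X i : Poly N) else X q) ^ e) =
      monomial b (1 : ℂ) * (X j + X i) ^ (n + 1) := by
    have e1 : a + Finsupp.single j 1 = b + Finsupp.single j (n + 1) := by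
      rw [hab, add_assoc, ← Finsupp.single_add]
    rw [e1, Finsupp.prod_add_index']
    · rw [Finsupp.prod_single_index (by simp)]
      simp only [if_true]
      congr 1
      rw [monomial_eq, C_1, one_mul]
      apply Finsupp.prod_congr
      intro q hq
      have : q ≠ j := by
        rintro rfl
        exact (Finsupp.mem_support_iff.mp hq) hbj
      simp [this]
    · intro q; simp
    · intro q e1 e2; rw [pow_add]
  rw [h3] at h1
  have h4 : coeff (a + Finsupp.single i 1) (monomial b (1 : ℂ) * (X j + X i) ^ (n + 1)) ≠ 0 := by
    rw [hab, add_assoc, coeff_monomial_mul, one_mul]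
    rw [add_pow, coeff_sum]
    rw [Finset.sum_eq_single n]
    · have : (X j ^ n * X i ^ (n + 1 - n) * ((n + 1).choose n : Poly N)) =
          monomial (Finsupp.single j n + Finsupp.single i 1) ((n + 1).choose n : ℂ) := by
        rw [X_pow_eq_monomial, X_pow_eq_monomial, monomial_mul]
        have : ((n + 1).choose n : Poly N) = C ((n + 1).choose n : ℂ) := by simp
        rw [this, mul_comm, C_mul_monomial]
        simp
      rw [this, coeff_monomial, if_pos rfl]
      simp
      norm_cast
    · intro k hk hkn
      have hne : (X j ^ k * X i ^ (n + 1 - k) * ((n + 1).choose k : Poly N)) =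
          monomial (Finsupp.single j k + Finsupp.single i (n + 1 - k)) ((n + 1).choose k : ℂ) := by
        rw [X_pow_eq_monomial, X_pow_eq_monomial, monomial_mul]
        have : ((n + 1).choose k : Poly N) = C ((n + 1).choose k : ℂ) := by simp
        rw [this, mul_comm, C_mul_monomial]
        simp
      rw [hne, coeff_monomial, if_neg]
      intro h5
      apply hkn
      have h6 := DFunLike.congr_fun h5 j
      have : i ≠ j := ne_of_lt hij
      simpa [Finsupp.single_apply, this] using h6
    · intro hk
      exact absurd (Finset.mem_range.mpr (by omega)) hk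
  exact hmon _ h1 _ (mem_support_iff.mpr h4)

theorem borelFixed_of_comb {N : ℕ} {I : Ideal (Poly N)} (h1 : MonomialIdeal I)
    (h2 : BorelExch I) : BorelFixed I := by
  intro b hb _ f hf
  -- monomials suffice
  have key : ∀ (n : ℕ) (v : Fin N →₀ ℕ), v.degree = n → ∀ w : Fin N →₀ ℕ,
      monomial (w + v) (1 : ℂ) ∈ I →
      monomial w (1 : ℂ) * aeval (fun j => ∑ i, C (b i j) * X i : Fin N → Poly N)
        (monomial v (1 : ℂ)) ∈ I := by
    intro n
    induction n with
    | zero =>
      intro v hv w hw
      rw [Finsupp.degree_eq_zero_iff] at hv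
      subst hv
      simpa using hw
    | succ n ih =>
      intro v hv w hw
      have hv0 : v ≠ 0 := by
        rintro rfl
        simp at hv
      obtain ⟨j, hj⟩ := Finsupp.ne_iff.mp hv0
      have hj1 : Finsupp.single j 1 ≤ v := by
        rw [Finsupp.single_le_iff]
        exact Nat.one_le_iff_ne_zero.mpr hj
      set v' := v - Finsupp.single j 1 with hv'
      have hvv : v = v' + Finsupp.single j 1 := (tsub_add_cancel_of_le hj1).symm
      have hd : v'.degree = n := by
        have := hv
        rw [hvv, map_add, Finsupp.degree_single] at this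
        omega
      rw [hvv]
      have e1 : (monomial (v' + Finsupp.single j 1) (1 : ℂ) : Poly N) =
          monomial v' 1 * X j := by
        rw [X, monomial_mul, one_mul]
      rw [e1, map_mul, aeval_X, ← mul_assoc, Finset.mul_sum]
      refine Ideal.sum_mem _ ?_
      intro i _
      by_cases hij : j < i
      · rw [hb i j hij]
        simp
      · have hmem : monomial (w + Finsupp.single i 1 + v') (1 : ℂ) ∈ I := by
          have e2 : w + Finsupp.single i 1 + v' = (w + v') + Finsupp.single i 1 := by
            abel
          rw [e2]
          have e3 : monomial ((w + v') + Finsupp.single j 1) (1 : ℂ) ∈ I := by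
            rw [add_assoc, ← hvv]
            exact hw
          rcases lt_or_eq_of_le (not_lt.mp hij) with h | h
          · exact h2 _ i j h e3
          · rw [h]
            exact e3
        have := ih v' hd (w + Finsupp.single i 1) hmem
        have e4 : (monomial w (1 : ℂ) : Poly N) *
            aeval (fun j => ∑ i, C (b i j) * X i : Fin N → Poly N) (monomial v' (1 : ℂ)) *
            (C (b i j) * X i) = C (b i j) * (monomial (w + Finsupp.single i 1) (1 : ℂ) *
            aeval (fun j => ∑ i, C (b i j) * X i : Fin N → Poly N) (monomial v' (1 : ℂ))) := by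
          have e5 : (monomial (w + Finsupp.single i 1) (1 : ℂ) : Poly N) =
              monomial w 1 * X i := by
            rw [X, monomial_mul, one_mul]
          rw [e5]
          ring
        rw [e4]
        exact Ideal.mul_mem_left _ _ this
  rw [f.as_sum, map_sum]
  refine Ideal.sum_mem _ ?_
  intro a ha
  have h3 := key _ a rfl 0 (by rw [zero_add]; exact h1 f hf a ha)
  have e6 : (monomial a (coeff a f) : Poly N) = C (coeff a f) * monomial a 1 := by
    rw [C_mul_monomial, mul_one]
  rw [e6, map_mul]
  refine Ideal.mul_mem_left _ _ ?_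
  simpa using h3

end Pool.Agent.MP_74475a_ag
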