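import Mathlib

/-!
The numbers `nn m r k = #{a ∈ ℕ^r : |a| < k, a_0 < m}` (for `r ≥ 1`) and their inequalities.
-/

namespace Pool.Agent.MP_74475a_ag

/-- `nn m r k` is the number of monomials of degree `< k` in `r ≥ 1` variables, not divisible
by the `m`-th power of the first variable. -/
def nn (m : ℕ) : ℕ → ℕ → ℕ
  | 0, k => if 1 ≤ k ∧ k ≤ m then 1 else 0
  | (_ + 1), 0 => 0
  | (r + 1), (k + 1) => nn m (r + 1) k + nn m r (k + 1)
termination_by r k => (r, k)

theorem nn_zero (m k : ℕ) : nn m 0 k = if 1 ≤ k ∧ k ≤ m then 1 else 0 := by rw [nn]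

theorem nn_succ_zero (m r : ℕ) : nn m (r + 1) 0 = 0 := by rw [nn]

theorem nn_zero' (m r : ℕ) : nn m r 0 = 0 := by
  cases r with
  | zero => rw [nn_zero]; simp
  | succ r => exact nn_succ_zero m r

theorem nn_succ (m r k : ℕ) : nn m (r + 1) (k + 1) = nn m (r + 1) k + nn m r (k + 1) := by
  rw [nn]

theorem nn_one_eq {m : ℕ} (hm : 1 ≤ m) (r : ℕ) : nn m r 1 = 1 := by
  induction r with
  | zero => rw [nn_zero]; simp [hm]
  | succ r ih => rw [nn_succ, nn_zero', ih]

theorem nn_mono (m r : ℕ) (hr : 1 ≤ r) {k k' : ℕ} (h : k ≤ k') : nn m r k ≤ nn m r k' := by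
  obtain ⟨r, rfl⟩ := Nat.exists_eq_add_of_le' hr
  induction h with
  | refl => exact le_rfl
  | step _ ih =>
    rw [Nat.succ_eq_add_one, nn_succ]
    omega

theorem nn_pos {m : ℕ} (hm : 1 ≤ m) {r : ℕ} (hr : 1 ≤ r) {k : ℕ} (hk : 1 ≤ k) :
    0 < nn m r k := by
  have h1 := nn_mono m r hr hk
  rw [nn_one_eq hm] at h1
  omega

theorem nn_one_min (m k : ℕ) : nn m 1 k = min m k := by
  induction k with
  | zero => rw [nn_zero']; simp
  | succ k ih =>
    rw [nn_succ, ih, nn_zero]
    split_ifs with h <;> omega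

/-- log-concavity type inequality: `nn r k * nn (r-1) (k+2) ≤ nn r (k+1) * nn (r-1) (k+1)` -/
theorem nn_ratio {m : ℕ} (hm : 1 ≤ m) (r : ℕ) : ∀ k,
    nn m (r + 2) k * nn m (r + 1) (k + 2) ≤ nn m (r + 2) (k + 1) * nn m (r + 1) (k + 1) := by
  induction r with
  | zero =>
    -- `A_k b_{k+2} ≤ a_{k+1}^2` form
    have key : ∀ k, nn m 2 k * nn m 0 (k + 2) ≤ nn m 1 (k + 1) ^ 2 := by
      intro k
      rw [nn_zero]
      split_ifs with h
      · have : ∀ k, k ≤ m → 2 * nn m 2 k = k * (k + 1) := by
          intro k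
          induction k with
          | zero => intro _; rw [nn_zero']
          | succ k ih =>
            intro hk
            rw [nn_succ, mul_add, ih (by omega), nn_one_min, min_eq_right hk]
            ring
        have h1 := this k (by omega)
        rw [nn_one_min, min_eq_right (by omega : k + 1 ≤ m)]
        nlinarith
      · rw [mul_zero]
        exact Nat.zero_le _
    intro k
    have h1 := key k
    have h2 := nn_succ m 1 k
    have h3 := nn_succ m 0 (k + 1)
    simp only [Nat.zero_add, Nat.reduceAdd] at *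
    rw [h2, h3]
    nlinarith
  | succ r ih =>
    have key : ∀ k, nn m (r + 3) k * nn m (r + 1) (k + 2) ≤ nn m (r + 2) (k + 1) ^ 2 := by
      intro k
      induction k with
      | zero =>
        rw [nn_zero']
        simp
      | succ k ihk =>
        have h1 := ih (k + 1)
        have h2 := nn_succ m (r + 2) k
        have h3 := nn_succ m (r + 1) (k + 1)
        have hpos : 0 < nn m (r + 1) (k + 2) := nn_pos hm (by omega) (by omega)
        -- abbreviations
        set A0 := nn m (r + 3) k
        set a1 := nn m (r + 2) (k + 1)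
        set b2 := nn m (r + 1) (k + 2)
        set b3 := nn m (r + 1) (k + 3)
        have e1 : nn m (r + 3) (k + 1) = A0 + a1 := h2
        have e2 : nn m (r + 2) (k + 2) = a1 + b2 := h3
        have h1' : a1 * b3 ≤ (a1 + b2) * b2 := by
          have := h1
          rw [show k + 1 + 1 = k + 2 from rfl, e2] at this
          exact this
        show nn m (r + 3) (k + 1) * b3 ≤ nn m (r + 2) (k + 2) ^ 2
        rw [e1, e2]
        -- `A0 * b2 ≤ a1^2`
        have h4 : A0 * b3 * b2 ≤ a1 * (a1 + b2) * b2 := by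
          calc A0 * b3 * b2 = (A0 * b2) * b3 := by ring
            _ ≤ a1 ^ 2 * b3 := Nat.mul_le_mul_right _ ihk
            _ = a1 * (a1 * b3) := by ring
            _ ≤ a1 * ((a1 + b2) * b2) := Nat.mul_le_mul_left _ h1'
            _ = a1 * (a1 + b2) * b2 := by ring
        have h5 : A0 * b3 ≤ a1 * (a1 + b2) := Nat.le_of_mul_le_mul_right h4 hpos
        nlinarith
    intro k
    have h1 := key k
    have h2 := nn_succ m (r + 2) k
    have h3 := nn_succ m (r + 1) (k + 1)
    rw [show r + 1 + 2 = r + 3 from rfl, show r + 1 + 1 = r + 2 from rfl]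
    rw [show nn m (r + 3) (k + 1) = nn m (r + 3) k + nn m (r + 2) (k + 1) from h2,
      show nn m (r + 2) (k + 2) = nn m (r + 2) (k + 1) + nn m (r + 1) (k + 2) from h3]
    nlinarith

/-- the sums `∑_{i=1}^k nn m r i * nn m j i` -/
def bbs (m j r : ℕ) : ℕ → ℕ
  | 0 => 0
  | (k + 1) => bbs m j r k + nn m r (k + 1) * nn m j (k + 1)

theorem bbs_succ (m j r k : ℕ) :
    bbs m j r (k + 1) = bbs m j r k + nn m r (k + 1) * nn m j (k + 1) := rfl

theorem nn_telescope (m r k : ℕ) :
    nn m 0 (k + 1) + ∑ j ∈ Finset.range r, nn m (j + 1) k = nn m r (k + 1) := by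
  induction r with
  | zero => simp
  | succ r ih =>
    rw [Finset.sum_range_succ, nn_succ]
    omega

/-- the value of the key bound at the extremal set -/
def bst (m r k : ℕ) : ℕ :=
  bbs m r (r + 1) k + ∑ j ∈ Finset.range r, bbs m (j + 1) (r + 1) k + nn m (r + 2) k

theorem bst_identity (m r k : ℕ) :
    bst m r k + nn m (r + 2) (min k (m - 1)) =
      nn m (r + 1) k * nn m (r + 1) (k + 1) + nn m (r + 2) k := by
  induction k with
  | zero => simp [bst, bbs, nn_zero']
  | succ k ih =>
    have h1 : bst m r (k + 1) = bst m r k + nn m (r + 1) (k + 1) *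
        (nn m r (k + 1) + ∑ j ∈ Finset.range r, nn m (j + 1) (k + 1) + 1) := by
      unfold bst
      rw [bbs_succ, nn_succ m (r + 1) k]
      simp only [bbs_succ]
      rw [Finset.sum_add_distrib, ← Finset.mul_sum]
      ring
    have h2 := nn_telescope m r (k + 1)
    have h3 := nn_succ m r (k + 1)
    have h3' := nn_succ m r k
    have h4 := nn_succ m (r + 1) k
    have h5 := nn_zero m (k + 1 + 1)
    by_cases hk : k + 1 ≤ m - 1
    · rw [if_pos (by omega)] at h5
      rw [h5] at h2
      have e1 : min k (m - 1) = k := by omega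
      have e2 : min (k + 1) (m - 1) = k + 1 := by omega
      rw [e1] at ih
      rw [e2, h1]
      have h6 : nn m r (k + 1) + ∑ j ∈ Finset.range r, nn m (j + 1) (k + 1) + 1 =
        nn m r (k + 1) + nn m r (k + 1 + 1) := by omega
      rw [h6]
      rw [show nn m (r + 2) (k + 1) = nn m (r + 2) k + nn m (r + 1) (k + 1) from h4]
      rw [show nn m (r + 1) (k + 1 + 1) = nn m (r + 1) (k + 1) + nn m r (k + 1 + 1) from h3]
      rw [h3'] at ih ⊢
      nlinarith
    · rw [if_neg (by omega)] at h5
      rw [h5] at h2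
      have e1 : min k (m - 1) = m - 1 := by omega
      have e2 : min (k + 1) (m - 1) = m - 1 := by omega
      rw [e1] at ih
      rw [e2, h1]
      have h6 : nn m r (k + 1) + ∑ j ∈ Finset.range r, nn m (j + 1) (k + 1) + 1 =
        nn m r (k + 1) + nn m r (k + 1 + 1) + 1 := by omega
      rw [h6]
      rw [show nn m (r + 2) (k + 1) = nn m (r + 2) k + nn m (r + 1) (k + 1) from h4]
      rw [show nn m (r + 1) (k + 1 + 1) = nn m (r + 1) (k + 1) + nn m r (k + 1 + 1) from h3]
      rw [h3'] at ih ⊢
      nlinarith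

end Pool.Agent.MP_74475a_ag
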