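import Mathlib
import Pool.Agent.MP_74475a_ag.Numbers

/-!
Finite Borel sets of exponent vectors and the growth inequality.
-/

namespace Pool.Agent.MP_74475a_ag

open Finset

/-- finite Borel order ideals in `ℕ^r`, inside `ℕ →₀ ℕ` -/
structure Good (m r : ℕ) (X : Finset (ℕ →₀ ℕ)) : Prop where
  supp : ∀ a ∈ X, ∀ i, r ≤ i → a i = 0
  down : ∀ a b, a ≤ b → b ∈ X → a ∈ X
  borel : ∀ a i j, i < j → j < r → a + Finsupp.single i 1 ∈ X → a + Finsupp.single j 1 ∈ X
  bound : ∀ a ∈ X, a 0 < m

open Classical in
/-- the elements supported on the first `j` indices -/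
noncomputable def sec (j : ℕ) (X : Finset (ℕ →₀ ℕ)) : Finset (ℕ →₀ ℕ) :=
  X.filter fun a => ∀ i, j ≤ i → a i = 0

theorem mem_sec {j : ℕ} {X : Finset (ℕ →₀ ℕ)} {a : ℕ →₀ ℕ} :
    a ∈ sec j X ↔ a ∈ X ∧ ∀ i, j ≤ i → a i = 0 := by
  classical
  exact Finset.mem_filter

open Classical in
/-- the colon by the variable `r` -/
noncomputable def col (r : ℕ) (X : Finset (ℕ →₀ ℕ)) : Finset (ℕ →₀ ℕ) :=
  (X.filter fun a => a r ≠ 0).image fun a => a - Finsupp.single r 1

theorem mem_col {r : ℕ} {X : Finset (ℕ →₀ ℕ)} {a : ℕ →₀ ℕ} :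
    a ∈ col r X ↔ a + Finsupp.single r 1 ∈ X := by
  unfold col
  rw [Finset.mem_image]
  constructor
  · rintro ⟨b, hb, rfl⟩
    rw [Finset.mem_filter] at hb
    rw [tsub_add_cancel_of_le]
    · exact hb.1
    · rw [Finsupp.single_le_iff]
      exact Nat.one_le_iff_ne_zero.mpr hb.2
  · intro h
    refine ⟨a + Finsupp.single r 1, ?_, ?_⟩
    · rw [Finset.mem_filter]
      refine ⟨h, ?_⟩
      rw [Finsupp.add_apply, Finsupp.single_eq_same]
      omega
    · simp

theorem Good.sec {m r j : ℕ} {X : Finset (ℕ →₀ ℕ)} (h : Good m r X) (hj : j ≤ r) :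
    Good m j (sec j X) where
  supp := by
    intro a ha i hi
    exact (mem_sec.mp ha).2 i hi
  down := by
    intro a b hab hb
    rw [mem_sec] at hb ⊢
    refine ⟨h.down a b hab hb.1, ?_⟩
    intro i hi
    have := hab i
    rw [hb.2 i hi] at this
    exact Nat.le_zero.mp this
  borel := by
    intro a i j' hij hj' ha
    rw [mem_sec] at ha ⊢
    refine ⟨h.borel a i j' hij (by omega) ha.1, ?_⟩
    intro k hk
    have h1 := ha.2 k hk
    rw [Finsupp.add_apply] at h1 ⊢
    rw [Finsupp.single_eq_of_ne (by omega), add_zero]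
    omega
  bound := by
    intro a ha
    exact h.bound a (mem_sec.mp ha).1

theorem col_subset {m r r' : ℕ} {X : Finset (ℕ →₀ ℕ)} (h : Good m r X) : col r' X ⊆ X := by
  intro a ha
  rw [mem_col] at ha
  exact h.down _ _ le_self_add ha

theorem Good.col {m r : ℕ} {X : Finset (ℕ →₀ ℕ)} (h : Good m (r + 1) X) :
    Good m (r + 1) (col r X) where
  supp := by
    intro a ha i hi
    exact h.supp a (col_subset h ha) i hi
  down := by
    intro a b hab hb
    rw [mem_col] at hb ⊢
    exact h.down _ _ (by gcongr) hb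
  borel := by
    intro a i j hij hj ha
    rw [mem_col] at ha ⊢
    rw [add_right_comm] at ha ⊢
    exact h.borel _ i j hij hj ha
  bound := by
    intro a ha
    exact h.bound a (col_subset h ha)

theorem card_eq_sec_add_col {m r : ℕ} {X : Finset (ℕ →₀ ℕ)} (h : Good m (r + 1) X) :
    X.card = (sec r X).card + (col r X).card := by
  classical
  have h1 : sec r X = X.filter fun a => ¬ (a r ≠ 0) := by
    ext a
    rw [mem_sec, Finset.mem_filter]
    constructor
    · rintro ⟨ha, ha'⟩
      exact ⟨ha, by simpa using ha' r le_rfl⟩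
    · rintro ⟨ha, ha'⟩
      refine ⟨ha, ?_⟩
      intro i hi
      rcases Nat.lt_or_ge r i with h2 | h2
      · exact h.supp a ha i (by omega)
      · have : i = r := by omega
        subst this
        simpa using ha'
  have h2 : (col r X).card = (X.filter fun a => a r ≠ 0).card := by
    unfold col
    apply Finset.card_image_of_injOn
    intro a ha b hb hab
    rw [Finset.mem_coe, Finset.mem_filter] at ha hb
    have ha' : Finsupp.single r 1 ≤ a := by
      rw [Finsupp.single_le_iff]
      exact Nat.one_le_iff_ne_zero.mpr ha.2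
    have hb' : Finsupp.single r 1 ≤ b := by
      rw [Finsupp.single_le_iff]
      exact Nat.one_le_iff_ne_zero.mpr hb.2
    have hab' : a - Finsupp.single r 1 = b - Finsupp.single r 1 := hab
    rw [← tsub_add_cancel_of_le ha', ← tsub_add_cancel_of_le hb', hab']
  rw [h1, h2, add_comm, Finset.card_filter_add_card_filter_not]

theorem sec_card_le {m r : ℕ} {X : Finset (ℕ →₀ ℕ)} (h : Good m (r + 2) X) :
    (sec (r + 1) X).card ≤ (sec r X).card + (sec (r + 1) (col (r + 1) X)).card := by
  classical
  have h1 := card_eq_sec_add_col (h.sec (j := r + 1) (by omega))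
  have h2 : sec r (sec (r + 1) X) = sec r X := by
    ext a
    rw [mem_sec, mem_sec, mem_sec]
    constructor
    · rintro ⟨⟨ha, _⟩, ha'⟩
      exact ⟨ha, ha'⟩
    · rintro ⟨ha, ha'⟩
      exact ⟨⟨ha, fun i hi => ha' i (by omega)⟩, ha'⟩
  have h3 : col r (sec (r + 1) X) ⊆ sec (r + 1) (col (r + 1) X) := by
    intro a ha
    rw [mem_col, mem_sec] at ha
    rw [mem_sec, mem_col]
    refine ⟨h.borel a r (r + 1) (by omega) (by omega) ha.1, ?_⟩
    intro i hi
    have := ha.2 i hi
    rw [Finsupp.add_apply] at this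
    omega
  rw [h1, h2]
  have := Finset.card_le_card h3
  omega

theorem sec_one_card_le {m r : ℕ} {X : Finset (ℕ →₀ ℕ)} (h : Good m r X) :
    (sec 1 X).card ≤ m := by
  classical
  have : (sec 1 X).card ≤ (Finset.range m).card := by
    apply Finset.card_le_card_of_injOn (fun a => a 0)
    · intro a ha
      have ha' : a ∈ sec 1 X := ha
      rw [mem_sec] at ha'
      simpa using h.bound a ha'.1
    · intro a ha b hb hab
      have ha' : a ∈ sec 1 X := ha
      have hb' : b ∈ sec 1 X := hb
      rw [mem_sec] at ha' hb'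
      ext i
      rcases Nat.eq_zero_or_pos i with hi | hi
      · subst hi
        exact hab
      · rw [ha'.2 i hi, hb'.2 i hi]
  simpa using this

theorem sec_zero_card_le {X : Finset (ℕ →₀ ℕ)} : (sec 0 X).card ≤ 1 := by
  classical
  rw [Finset.card_le_one]
  intro a ha b hb
  rw [mem_sec] at ha hb
  ext i
  rw [ha.2 i (Nat.zero_le _), hb.2 i (Nat.zero_le _)]

theorem sec_subset {j : ℕ} {X : Finset (ℕ →₀ ℕ)} : sec j X ⊆ X := by
  classical
  exact Finset.filter_subset _ _

theorem sec_mono {j : ℕ} {X Y : Finset (ℕ →₀ ℕ)} (h : X ⊆ Y) : sec j X ⊆ sec j Y := by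
  intro a ha
  rw [mem_sec] at ha ⊢
  exact ⟨h ha.1, ha.2⟩

/-- triangular numbers bound -/
theorem two_card_ge {m : ℕ} : ∀ (n : ℕ) (X : Finset (ℕ →₀ ℕ)), X.card = n → Good m 2 X →
    (sec 1 X).card * ((sec 1 X).card + 1) ≤ 2 * X.card := by
  intro n
  induction n using Nat.strong_induction_on with
  | _ n ih =>
    intro X hn h
    have h1 := card_eq_sec_add_col (m := m) (r := 1) h
    have h2 := sec_card_le (m := m) (r := 0) h
    have h3 := sec_zero_card_le (X := X)
    by_cases h0 : (sec 1 X).card = 0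
    · rw [h0]
      omega
    · have h4 := ih (col 1 X).card (by omega) (col 1 X) rfl (h.col)
      simp only [Nat.zero_add] at h2
      set d := (sec 1 X).card
      set d' := (sec 1 (col 1 X)).card
      have h5 : d ≤ d' + 1 := by omega
      rw [h1]
      nlinarith

/-- the growth inequality -/
theorem growth {m : ℕ} (hm : 1 ≤ m) (r : ℕ) : ∀ (k : ℕ) (X : Finset (ℕ →₀ ℕ)),
    Good m (r + 2) X →
    (nn m (r + 1) (k + 1) : ℤ) * ((sec (r + 1) X).card - nn m (r + 1) k) ≤
      nn m r (k + 1) * (X.card - nn m (r + 2) k) := by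
  induction r with
  | zero =>
    intro k X h
    have h1 := two_card_ge _ X rfl h
    have h2 := sec_one_card_le h
    have hn2 : ∀ k, k ≤ m → 2 * nn m 2 k = k * (k + 1) := by
      intro k
      induction k with
      | zero => intro _; rw [nn_zero']
      | succ k ih =>
        intro hk
        rw [nn_succ, mul_add, ih (by omega), nn_one_min, min_eq_right hk]
        ring
    simp only [Nat.zero_add] at *
    rw [nn_one_min, nn_one_min, nn_zero]
    set d := (sec 1 X).card
    by_cases hk : k + 1 ≤ m
    · have e1 : min m (k + 1) = k + 1 := by omega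
      have e2 : min m k = k := by omega
      rw [e1, e2, if_pos ⟨by omega, hk⟩]
      have h3 := hn2 k (by omega)
      zify at h1 h3
      push_cast
      have h4 : ((d : ℤ) - k) ^ 2 ≥ (d : ℤ) - k := by
        have : ∀ z : ℤ, z ≤ z ^ 2 := fun z => Int.le_self_sq z
        exact this _
      nlinarith
    · have e1 : min m (k + 1) = m := by omega
      have e2 : min m k = m := by omega
      rw [e1, e2, if_neg (by omega)]
      push_cast
      have : ((d : ℤ) - m) ≤ 0 := by
        have : (d : ℤ) ≤ m := by exact_mod_cast h2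
        omega
      have hm' : (0 : ℤ) ≤ m := by positivity
      nlinarith
  | succ r ih =>
    intro k
    induction k with
    | zero =>
      intro X h
      rw [nn_zero', nn_zero', Nat.zero_add, nn_one_eq hm, nn_one_eq hm]
      have := Finset.card_le_card (sec_subset (j := r + 1 + 1) (X := X))
      push_cast
      simpa using this
    | succ k ihk =>
      intro X h
      -- abbreviations
      have hcard := card_eq_sec_add_col (m := m) (r := r + 2) h
      have hsec := sec_card_le (m := m) (r := r + 1) h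
      have h1 := ih (k + 1) (sec (r + 2) X) (h.sec (by omega))
      have h2 := ihk (col (r + 2) X) h.col
      have hss : sec (r + 1) (sec (r + 2) X) = sec (r + 1) X := by
        ext a
        rw [mem_sec, mem_sec, mem_sec]
        constructor
        · rintro ⟨⟨ha, _⟩, ha'⟩
          exact ⟨ha, ha'⟩
        · rintro ⟨ha, ha'⟩
          exact ⟨⟨ha, fun i hi => ha' i (by omega)⟩, ha'⟩
      rw [hss] at h1
      have e1 := nn_succ m (r + 1) (k + 1)
      have e2 := nn_succ m (r + 1) k
      have e3 := nn_succ m r (k + 1)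
      have e4 := nn_succ m (r + 2) k
      have p1 : 0 < nn m (r + 1) (k + 1) := nn_pos hm (by omega) (by omega)
      have p2 : 0 < nn m (r + 1) (k + 2) := nn_pos hm (by omega) (by omega)
      show (nn m (r + 2) (k + 2) : ℤ) * ((sec (r + 2) X).card - nn m (r + 2) (k + 1)) ≤
        nn m (r + 1) (k + 2) * (X.card - nn m (r + 3) (k + 1))
      rw [show nn m (r + 1 + 1) (k + 1 + 1) = nn m (r + 2) (k + 2) from rfl] at e1
      rw [show nn m (r + 1 + 1) (k + 1) = nn m (r + 2) (k + 1) from rfl] at e2 e1
      rw [show nn m (r + 2 + 1) (k + 1) = nn m (r + 3) (k + 1) from rfl] at e4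
      rw [show nn m (r + 1) (k + 1 + 1) = nn m (r + 1) (k + 2) from rfl] at e3 e1
      -- `h1 : b2 * (y - b1) ≤ c2 * (x0 - a1)`
      -- `h2 : a1 * (x1 - a0) ≤ b1 * (x' - A0)`
      change (nn m (r + 1) (k + 2) : ℤ) * ((sec (r + 1) X).card - nn m (r + 1) (k + 1)) ≤
        nn m r (k + 2) * ((sec (r + 2) X).card - nn m (r + 2) (k + 1)) at h1
      change (nn m (r + 2) (k + 1) : ℤ) * ((sec (r + 2) (col (r + 2) X)).card - nn m (r + 2) k) ≤
        nn m (r + 1) (k + 1) * ((col (r + 2) X).card - nn m (r + 3) k) at h2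
      change X.card = (sec (r + 2) X).card + (col (r + 2) X).card at hcard
      change (sec (r + 2) X).card ≤ (sec (r + 1) X).card +
        (sec (r + 2) (col (r + 2) X)).card at hsec
      change nn m (r + 1) (k + 2) = nn m (r + 1) (k + 1) + nn m r (k + 2) at e3
      rw [hcard, e4, e1]
      generalize (sec (r + 2) X).card = x0 at *
      generalize (sec (r + 1) X).card = y at *
      generalize (sec (r + 2) (col (r + 2) X)).card = x1 at *
      generalize (col (r + 2) X).card = x' at *
      generalize nn m (r + 3) k = A0 at *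
      generalize nn m (r + 2) (k + 1) = a1 at *
      generalize nn m (r + 2) k = a0 at *
      generalize nn m (r + 1) (k + 1) = b1 at *
      generalize nn m (r + 1) (k + 2) = b2 at *
      generalize nn m r (k + 2) = c2 at *
      push_cast
      have q1 : (a1 : ℤ) = a0 + b1 := by exact_mod_cast e2
      have q2 : (b2 : ℤ) = b1 + c2 := by exact_mod_cast e3
      have q3 : (x0 : ℤ) ≤ y + x1 := by exact_mod_cast hsec
      have q4 : (0 : ℤ) < b1 := by exact_mod_cast p1
      have q5 : (0 : ℤ) < b2 := by exact_mod_cast p2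
      -- step A : `b1 * ξ ≤ b2 * (x1 - a0)`, `ξ = x0 - a1`
      have sA : (b1 : ℤ) * (x0 - a1) ≤ b2 * (x1 - a0) := by
        have : (b2 : ℤ) * (x0 - y) ≤ b2 * x1 := by
          apply mul_le_mul_of_nonneg_left _ q5.le
          omega
        nlinarith
      -- step B
      have q6 : (0 : ℤ) ≤ a1 := by positivity
      have sB : (b1 : ℤ) * (a1 * (x0 - a1)) ≤ b1 * (b2 * (x' - A0)) := by
        have t1 : (a1 : ℤ) * (b1 * (x0 - a1)) ≤ a1 * (b2 * (x1 - a0)) :=
          mul_le_mul_of_nonneg_left sA q6
        have t2 : (b2 : ℤ) * (a1 * (x1 - a0)) ≤ b2 * (b1 * (x' - A0)) :=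
          mul_le_mul_of_nonneg_left h2 q5.le
        nlinarith
      have sC : (a1 : ℤ) * (x0 - a1) ≤ b2 * (x' - A0) := le_of_mul_le_mul_left sB q4
      nlinarith

end Pool.Agent.MP_74475a_ag
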