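import Mathlib
import Pool.Agent.MP_74475a_ag.Sets

/-!
The bound for the number of pairs of a Borel set.
-/

namespace Pool.Agent.MP_74475a_ag

open Finset

theorem sec_eq_self {m r : ℕ} {X : Finset (ℕ →₀ ℕ)} (h : Good m r X) : sec r X = X := by
  ext a
  rw [mem_sec]
  exact ⟨fun h' => h'.1, fun h' => ⟨h', h.supp a h'⟩⟩

theorem sec_sec {j j' : ℕ} (hj : j ≤ j') (X : Finset (ℕ →₀ ℕ)) :
    sec j (sec j' X) = sec j X := by
  ext a
  rw [mem_sec, mem_sec, mem_sec]
  constructor
  · rintro ⟨⟨ha, _⟩, ha'⟩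
    exact ⟨ha, ha'⟩
  · rintro ⟨ha, ha'⟩
    exact ⟨⟨ha, fun i hi => ha' i (by omega)⟩, ha'⟩

theorem growth2 {m : ℕ} (hm : 1 ≤ m) (j k : ℕ) : ∀ (d : ℕ) (Y : Finset (ℕ →₀ ℕ)),
    Good m (j + d + 1) Y →
    (nn m (j + d) (k + 1) : ℤ) * ((sec (j + 1) Y).card - nn m (j + 1) k) ≤
      nn m j (k + 1) * (Y.card - nn m (j + d + 1) k) := by
  intro d
  induction d with
  | zero =>
    intro Y hY
    rw [Nat.add_zero] at hY ⊢
    rw [sec_eq_self hY]
  | succ d ih =>
    intro Y hY
    rcases Nat.eq_zero_or_pos (j + d) with h0 | h0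
    · have hj : j = 0 := by omega
      have hd : d = 0 := by omega
      subst hj hd
      have := growth hm 0 k Y hY
      simpa using this
    · have h1 := ih (sec (j + d + 1) Y) (hY.sec (by omega))
      have h2 := growth hm (j + d) k Y hY
      rw [sec_sec (by omega)] at h1
      have p1 : 0 < nn m (j + d) (k + 1) := nn_pos hm h0 (by omega)
      change (nn m (j + d + 1) (k + 1) : ℤ) * ((sec (j + 1) Y).card - nn m (j + 1) k) ≤
        nn m j (k + 1) * (Y.card - nn m (j + d + 2) k)
      generalize (sec (j + 1) Y).card = y at *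
      generalize (sec (j + d + 1) Y).card = x at *
      generalize nn m (j + d + 1) (k + 1) = a at *
      generalize nn m (j + d) (k + 1) = b at *
      generalize nn m j (k + 1) = c at *
      generalize nn m (j + d + 2) k = A at *
      generalize nn m (j + d + 1) k = a' at *
      generalize nn m (j + 1) k = c' at *
      have q1 : (0 : ℤ) < b := by exact_mod_cast p1
      have t1 : (a : ℤ) * (b * (y - c')) ≤ a * (c * (x - a')) :=
        mul_le_mul_of_nonneg_left h1 (by positivity)
      have t2 : (c : ℤ) * (a * (x - a')) ≤ c * (b * (Y.card - A)) :=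
        mul_le_mul_of_nonneg_left h2 (by positivity)
      have t3 : (b : ℤ) * (a * (y - c')) ≤ b * (c * (Y.card - A)) := by nlinarith
      exact le_of_mul_le_mul_left t3 q1

open Classical in
/-- the pairs -/
noncomputable def bbSet (j r : ℕ) (X : Finset (ℕ →₀ ℕ)) :
    Finset ((ℕ →₀ ℕ) × (ℕ →₀ ℕ)) :=
  (X ×ˢ X).filter fun p => p.1 r = p.2 r ∧ ∀ i, i ≠ r → j ≤ i → p.1 i = 0

theorem mem_bbSet {j r : ℕ} {X : Finset (ℕ →₀ ℕ)} {p : (ℕ →₀ ℕ) × (ℕ →₀ ℕ)} :
    p ∈ bbSet j r X ↔ p.1 ∈ X ∧ p.2 ∈ X ∧ p.1 r = p.2 r ∧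
      ∀ i, i ≠ r → j ≤ i → p.1 i = 0 := by
  classical
  unfold bbSet
  rw [Finset.mem_filter, Finset.mem_product, and_assoc]

/-- the number of pairs -/
noncomputable def BB (j r : ℕ) (X : Finset (ℕ →₀ ℕ)) : ℕ := (bbSet j r X).card

theorem BB_mono {j r : ℕ} {X Y : Finset (ℕ →₀ ℕ)} (h : X ⊆ Y) : BB j r X ≤ BB j r Y := by
  apply Finset.card_le_card
  intro p hp
  rw [mem_bbSet] at hp ⊢
  exact ⟨h hp.1, h hp.2.1, hp.2.2⟩

theorem BB_rec {m r j : ℕ} {X : Finset (ℕ →₀ ℕ)} (h : Good m (r + 1) X) (hj : j ≤ r) :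
    BB j r X = (sec j X).card * (sec r X).card + BB j r (col r X) := by
  classical
  have h1 : (bbSet j r X).card = ((bbSet j r X).filter fun p => p.1 r = 0).card +
      ((bbSet j r X).filter fun p => ¬ p.1 r = 0).card :=
    (Finset.card_filter_add_card_filter_not _).symm
  have h2 : ((bbSet j r X).filter fun p => p.1 r = 0) = sec j X ×ˢ sec r X := by
    ext p
    rw [Finset.mem_filter, mem_bbSet, Finset.mem_product, mem_sec, mem_sec]
    constructor
    · rintro ⟨⟨p1, p2, p3, p4⟩, p5⟩
      refine ⟨⟨p1, ?_⟩, p2, ?_⟩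
      · intro i hi
        by_cases hir : i = r
        · rw [hir, p5]
        · exact p4 i hir hi
      · intro i hi
        rcases Nat.lt_or_ge r i with h2 | h2
        · exact h.supp _ p2 i (by omega)
        · have : i = r := by omega
          rw [this, ← p3, p5]
    · rintro ⟨⟨p1, p2⟩, p3, p4⟩
      refine ⟨⟨p1, p3, ?_, ?_⟩, p2 r hj⟩
      · rw [p2 r hj, p4 r le_rfl]
      · intro i _ hi
        exact p2 i hi
  have h3 : ((bbSet j r X).filter fun p => ¬ p.1 r = 0).card = (bbSet j r (col r X)).card := by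
    symm
    apply Finset.card_bij (fun p _ => (p.1 + Finsupp.single r 1, p.2 + Finsupp.single r 1))
    · intro p hp
      rw [mem_bbSet, mem_col, mem_col] at hp
      rw [Finset.mem_filter, mem_bbSet]
      obtain ⟨p1, p2, p3, p4⟩ := hp
      refine ⟨⟨p1, p2, ?_, ?_⟩, ?_⟩
      · simp [p3]
      · intro i hi hji
        have := p4 i hi hji
        rw [Finsupp.add_apply, Finsupp.single_eq_of_ne hi, this, Nat.add_zero]
      · simp
    · intro p _ q _ hpq
      simp only [Prod.mk.injEq, add_left_inj] at hpq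
      exact Prod.ext hpq.1 hpq.2
    · intro p hp
      rw [Finset.mem_filter, mem_bbSet] at hp
      obtain ⟨⟨p1, p2, p3, p4⟩, p5⟩ := hp
      have e1 : p.1 - Finsupp.single r 1 + Finsupp.single r 1 = p.1 := by
        apply tsub_add_cancel_of_le
        rw [Finsupp.single_le_iff]
        omega
      have e2 : p.2 - Finsupp.single r 1 + Finsupp.single r 1 = p.2 := by
        apply tsub_add_cancel_of_le
        rw [Finsupp.single_le_iff]
        omega
      refine ⟨(p.1 - Finsupp.single r 1, p.2 - Finsupp.single r 1), ?_, ?_⟩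
      · rw [mem_bbSet, mem_col, mem_col]
        refine ⟨by rw [e1]; exact p1, by rw [e2]; exact p2, ?_, ?_⟩
        · rw [Finsupp.tsub_apply, Finsupp.tsub_apply, p3]
        · intro i hi hji
          rw [Finsupp.tsub_apply, p4 i hi hji]
          simp
      · exact Prod.ext e1 e2
  unfold BB
  rw [h1, h2, h3, Finset.card_product]

theorem BB_le_mul {m r j : ℕ} (hj : j ≤ r) : ∀ (n : ℕ) (X : Finset (ℕ →₀ ℕ)), X.card = n →
    Good m (r + 1) X → BB j r X ≤ (sec j X).card * X.card := by
  intro n
  induction n using Nat.strong_induction_on with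
  | _ n ih =>
    intro X hn h
    rw [BB_rec h hj]
    have h1 := card_eq_sec_add_col h
    by_cases h0 : (sec r X).card = 0
    · -- then `X` is empty
      have hX : X = ∅ := by
        by_contra hne
        obtain ⟨a, ha⟩ := Finset.nonempty_iff_ne_empty.mpr hne
        have h00 : (0 : ℕ →₀ ℕ) ∈ sec r X := by
          rw [mem_sec]
          refine ⟨h.down 0 a (by intro i; simp) ha, fun i _ => rfl⟩
        rw [Finset.card_eq_zero] at h0
        rw [h0] at h00
        simp at h00
      subst hX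
      have : BB j r (col r ∅) = 0 := by
        have : col r (∅ : Finset (ℕ →₀ ℕ)) = ∅ := by
          ext a
          rw [mem_col]
          simp
        rw [this]
        have : bbSet j r ∅ = ∅ := by
          ext p
          rw [mem_bbSet]
          simp
        unfold BB
        rw [this]
        rfl
      rw [this]
      simp [h0]
    · have h2 := ih (col r X).card (by omega) (col r X) rfl h.col
      have h3 := Finset.card_le_card (sec_mono (j := j) (col_subset (r' := r) h))
      rw [h1]
      nlinarith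

/-- the slope -/
noncomputable def gg (m r j k : ℕ) : ℚ :=
  (nn m (r + 1) k : ℚ) * nn m j (k + 1) / nn m r (k + 1)

theorem gg_mono {m : ℕ} (hm : 1 ≤ m) {r j : ℕ} (hr : 1 ≤ r) (hj : 1 ≤ j) (k : ℕ) :
    gg m r j k ≤ gg m r j (k + 1) := by
  obtain ⟨r, rfl⟩ := Nat.exists_eq_add_of_le' hr
  unfold gg
  have p1 : 0 < nn m (r + 1) (k + 1) := nn_pos hm (by omega) (by omega)
  have p2 : 0 < nn m (r + 1) (k + 1 + 1) := nn_pos hm (by omega) (by omega)
  have q1 : (0 : ℚ) < nn m (r + 1) (k + 1) := by exact_mod_cast p1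
  have q2 : (0 : ℚ) < nn m (r + 1) (k + 1 + 1) := by exact_mod_cast p2
  rw [div_le_div_iff₀ q1 q2]
  have h1 := nn_ratio hm r k
  have h2 := nn_mono m j hj (show k + 1 ≤ k + 1 + 1 by omega)
  have h1' : (nn m (r + 2) k : ℚ) * nn m (r + 1) (k + 1 + 1) ≤
      nn m (r + 2) (k + 1) * nn m (r + 1) (k + 1) := by exact_mod_cast h1
  have h2' : (nn m j (k + 1) : ℚ) ≤ nn m j (k + 1 + 1) := by exact_mod_cast h2
  calc (nn m (r + 1 + 1) k : ℚ) * nn m j (k + 1) * nn m (r + 1) (k + 1 + 1)
      = (nn m (r + 2) k * nn m (r + 1) (k + 1 + 1)) * nn m j (k + 1) := by ring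
    _ ≤ (nn m (r + 2) (k + 1) * nn m (r + 1) (k + 1)) * nn m j (k + 1 + 1) := by
        apply mul_le_mul h1' h2' (by positivity) (by positivity)
    _ = _ := by ring

theorem BB_bound {m : ℕ} (hm : 1 ≤ m) {r j : ℕ} (hr : 1 ≤ r) (hj : 1 ≤ j) (hjr : j ≤ r) :
    ∀ (k : ℕ) (X : Finset (ℕ →₀ ℕ)), Good m (r + 2) X → nn m (r + 2) k ≤ X.card →
    (BB (j + 1) (r + 1) X : ℚ) - bbs m (j + 1) (r + 1) k ≤
      ((sec (j + 1) X).card + gg m r j k) * (X.card - nn m (r + 2) k) := by
  intro k
  induction k with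
  | zero =>
    intro X h _
    have h1 := BB_le_mul (m := m) (r := r + 1) (j := j + 1) (by omega) _ X rfl h
    have h2 : gg m r j 0 = 0 := by
      unfold gg
      rw [nn_zero']
      simp
    rw [h2, nn_zero']
    simp only [bbs]
    push_cast
    have : (BB (j + 1) (r + 1) X : ℚ) ≤ (sec (j + 1) X).card * X.card := by exact_mod_cast h1
    linarith
  | succ k ih =>
    intro X h hX
    have hcard := card_eq_sec_add_col (m := m) (r := r + 1) h
    -- lower bound for the remaining cardinality
    have hgr := growth hm r (k + 1) X h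
    have e1 := nn_succ m (r + 1) k
    have e2 := nn_succ m r (k + 1)
    have p1 : 0 < nn m (r + 1) (k + 2) := nn_pos hm (by omega) (by omega)
    change (nn m (r + 1) (k + 2) : ℤ) * ((sec (r + 1) X).card - nn m (r + 1) (k + 1)) ≤
      nn m r (k + 2) * (X.card - nn m (r + 2) (k + 1)) at hgr
    change nn m (r + 2) (k + 1) = nn m (r + 2) k + nn m (r + 1) (k + 1) at e1
    change nn m (r + 1) (k + 2) = nn m (r + 1) (k + 1) + nn m r (k + 2) at e2
    change X.card = (sec (r + 1) X).card + (col (r + 1) X).card at hcard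
    have hcol : nn m (r + 2) k ≤ (col (r + 1) X).card := by
      have q1 : (0 : ℤ) < nn m (r + 1) (k + 2) := by exact_mod_cast p1
      have q2 : (nn m (r + 1) (k + 2) : ℤ) = nn m (r + 1) (k + 1) + nn m r (k + 2) := by
        exact_mod_cast e2
      have q3 : (nn m (r + 2) (k + 1) : ℤ) = nn m (r + 2) k + nn m (r + 1) (k + 1) := by
        exact_mod_cast e1
      have q4 : (X.card : ℤ) = (sec (r + 1) X).card + (col (r + 1) X).card := by
        exact_mod_cast hcard
      have q5 : (0 : ℤ) ≤ X.card - nn m (r + 2) (k + 1) := by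
        have : (nn m (r + 2) (k + 1) : ℤ) ≤ X.card := by exact_mod_cast hX
        omega
      have q6 : (0 : ℤ) ≤ nn m (r + 1) (k + 2) * ((col (r + 1) X).card - nn m (r + 2) k) := by
        have q7 : (0 : ℤ) ≤ nn m (r + 1) (k + 1) * (X.card - nn m (r + 2) (k + 1)) :=
          mul_nonneg (by positivity) q5
        nlinarith
      have q8 : (0 : ℤ) ≤ (col (r + 1) X).card - nn m (r + 2) k :=
        nonneg_of_mul_nonneg_right q6 q1
      omega
    have hih := ih (col (r + 1) X) h.col hcol
    have hrec := BB_rec (m := m) (j := j + 1) h (by omega)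
    have hgm := gg_mono hm hr hj k
    have hsm := Finset.card_le_card (sec_mono (j := j + 1) (col_subset (r' := r + 1) h))
    -- composite growth
    have hg2 : (nn m r (k + 2) : ℤ) * ((sec (j + 1) X).card - nn m (j + 1) (k + 1)) ≤
      nn m j (k + 2) * ((sec (r + 1) X).card - nn m (r + 1) (k + 1)) := by
      obtain ⟨d, rfl⟩ := Nat.exists_eq_add_of_le hjr
      have := growth2 hm j (k + 1) d (sec (j + d + 1) X) (h.sec (by omega))
      rw [sec_sec (by omega)] at this
      exact this
    have p3 : 0 < nn m r (k + 2) := nn_pos hm (by omega) (by omega)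
    have q9 : (0 : ℚ) < nn m r (k + 2) := by exact_mod_cast p3
    -- in the form needed
    have hg3 : (nn m (r + 1) (k + 1) : ℚ) * ((sec (j + 1) X).card - nn m (j + 1) (k + 1)) ≤
        gg m r j (k + 1) * ((sec (r + 1) X).card - nn m (r + 1) (k + 1)) := by
      have hg2' : (nn m r (k + 2) : ℚ) * ((sec (j + 1) X).card - nn m (j + 1) (k + 1)) ≤
        nn m j (k + 2) * ((sec (r + 1) X).card - nn m (r + 1) (k + 1)) := by exact_mod_cast hg2
      unfold gg
      rw [div_mul_eq_mul_div, le_div_iff₀ q9]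
      have : (nn m (r + 1) (k + 1) : ℚ) *
          (nn m r (k + 2) * ((sec (j + 1) X).card - nn m (j + 1) (k + 1))) ≤
          nn m (r + 1) (k + 1) *
          (nn m j (k + 2) * ((sec (r + 1) X).card - nn m (r + 1) (k + 1))) :=
        mul_le_mul_of_nonneg_left hg2' (by positivity)
      calc _ = (nn m (r + 1) (k + 1) : ℚ) *
          (nn m r (k + 2) * ((sec (j + 1) X).card - nn m (j + 1) (k + 1))) := by ring
        _ ≤ _ := this
        _ = _ := by ring
    change BB (j + 1) (r + 1) X = (sec (j + 1) X).card * (sec (r + 1) X).card +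
      BB (j + 1) (r + 1) (col (r + 1) X) at hrec
    rw [bbs_succ, hrec, e1]
    have hcard' : (X.card : ℚ) = (sec (r + 1) X).card + (col (r + 1) X).card := by
      exact_mod_cast hcard
    rw [hcard']
    push_cast
    have hD : (0 : ℚ) ≤ (col (r + 1) X).card - nn m (r + 2) k := by
      have : (nn m (r + 2) k : ℚ) ≤ (col (r + 1) X).card := by exact_mod_cast hcol
      linarith
    have hsm' : ((sec (j + 1) (col (r + 1) X)).card : ℚ) ≤ (sec (j + 1) X).card := by
      exact_mod_cast hsm
    generalize (BB (j + 1) (r + 1) (col (r + 1) X) : ℚ) = B' at *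
    generalize (bbs m (j + 1) (r + 1) k : ℚ) = b at *
    generalize ((sec (j + 1) (col (r + 1) X)).card : ℚ) = y1 at *
    generalize ((sec (j + 1) X).card : ℚ) = y0 at *
    generalize ((sec (r + 1) X).card : ℚ) = s0 at *
    generalize ((col (r + 1) X).card : ℚ) = x' at *
    generalize (nn m (r + 2) k : ℚ) = A at *
    generalize (nn m (r + 1) (k + 1) : ℚ) = s at *
    generalize (nn m (j + 1) (k + 1) : ℚ) = y at *
    generalize gg m r j (k + 1) = g1 at *
    generalize gg m r j k = g0 at *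
    have t1 : (y1 + g0) * (x' - A) ≤ (y0 + g1) * (x' - A) :=
      mul_le_mul_of_nonneg_right (by linarith) hD
    nlinarith

theorem sec_one_le {m r : ℕ} {X : Finset (ℕ →₀ ℕ)} (h : Good m (r + 2) X) :
    (sec 1 X).card ≤ (sec 1 (col (r + 1) X)).card + 1 := by
  classical
  have h1 := card_eq_sec_add_col (h.sec (j := 0 + 1) (by omega))
  have h2 := sec_zero_card_le (X := sec 1 X)
  have h3 : col 0 (sec 1 X) ⊆ sec 1 (col (r + 1) X) := by
    intro a ha
    rw [mem_col, mem_sec] at ha
    rw [mem_sec, mem_col]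
    refine ⟨h.borel a 0 (r + 1) (by omega) (by omega) ha.1, ?_⟩
    intro i hi
    have := ha.2 i hi
    rw [Finsupp.add_apply] at this
    omega
  have h4 := Finset.card_le_card h3
  simp only [Nat.zero_add] at h1
  omega

/-- a Borel set contains all monomials of small degree -/
theorem nn_le_card {m : ℕ} (hm : 1 ≤ m) {r : ℕ} {X : Finset (ℕ →₀ ℕ)}
    (h : Good m (r + 2) X) : nn m (r + 2) (sec 1 X).card ≤ X.card := by
  have hd := sec_one_card_le h
  rcases Nat.eq_zero_or_pos (sec 1 X).card with h0 | h0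
  · rw [h0, nn_zero']
    exact Nat.zero_le _
  · obtain ⟨d, hd'⟩ := Nat.exists_eq_add_of_le' h0
    rw [hd'] at hd ⊢
    have h1 := growth2 hm 0 d (r + 1) X (by simpa [Nat.add_comm, Nat.add_left_comm] using h)
    rw [Nat.zero_add, Nat.zero_add, nn_zero, if_pos ⟨by omega, by omega⟩, hd'] at h1
    have e1 := nn_succ m (r + 1) d
    have e2 : nn m 1 d = d := by rw [nn_one_min]; omega
    rw [e2] at h1
    change (nn m (r + 1) (d + 1) : ℤ) * (((d + 1 : ℕ) : ℤ) - d) ≤
      ((1 : ℕ) : ℤ) * (X.card - nn m (r + 2) d) at h1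
    change nn m (r + 2) (d + 1) = nn m (r + 2) d + nn m (r + 1) (d + 1) at e1
    rw [e1]
    push_cast at h1
    have : (nn m (r + 2) d : ℤ) + nn m (r + 1) (d + 1) ≤ X.card := by linarith
    exact_mod_cast this

theorem BB_one_le {m : ℕ} (hm : 1 ≤ m) {r : ℕ} : ∀ (n : ℕ) (X : Finset (ℕ →₀ ℕ)),
    X.card = n → Good m (r + 2) X →
    BB 1 (r + 1) X + ∑ i ∈ Finset.range (sec 1 X).card, nn m (r + 2) i ≤
      (sec 1 X).card * X.card := by
  intro n
  induction n using Nat.strong_induction_on with
  | _ n ih =>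
    intro X hn h
    by_cases h0 : (sec 1 X).card = 0
    · have h1 := BB_le_mul (m := m) (r := r + 1) (j := 1) (by omega) _ X rfl h
      rw [h0] at h1 ⊢
      simpa using h1
    · have hrec := BB_rec (m := m) (j := 1) h (by omega)
      have hcard := card_eq_sec_add_col (m := m) (r := r + 1) h
      have hs := sec_one_le h
      have hs' := Finset.card_le_card (sec_mono (j := 1) (col_subset (r' := r + 1) h))
      have hpos : 0 < (sec (r + 1) X).card := by
        obtain ⟨a, ha⟩ := Finset.card_pos.mp (Nat.pos_of_ne_zero h0)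
        apply Finset.card_pos.mpr
        refine ⟨a, ?_⟩
        rw [mem_sec] at ha ⊢
        exact ⟨ha.1, fun i hi => ha.2 i (by omega)⟩
      have hih := ih (col (r + 1) X).card (by omega) (col (r + 1) X) rfl h.col
      have hnn := nn_le_card hm h.col
      rw [hrec, hcard]
      rcases Nat.lt_or_ge (sec 1 (col (r + 1) X)).card (sec 1 X).card with hlt | hge
      · have e : (sec 1 X).card = (sec 1 (col (r + 1) X)).card + 1 := by omega
        rw [e, Finset.sum_range_succ]
        nlinarith
      · have e : (sec 1 X).card = (sec 1 (col (r + 1) X)).card := by omega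
        rw [e]
        nlinarith

/-- evaluation of `bbs m 1` -/
theorem bbs_one (m r : ℕ) : ∀ k,
    bbs m 1 (r + 1) k + ∑ i ∈ Finset.range (min k m), nn m (r + 2) i =
      min k m * nn m (r + 2) k := by
  intro k
  induction k with
  | zero => simp [bbs]
  | succ k ih =>
    have e1 := nn_succ m (r + 1) k
    change nn m (r + 2) (k + 1) = nn m (r + 2) k + nn m (r + 1) (k + 1) at e1
    rw [bbs_succ, e1, nn_one_min]
    rcases Nat.lt_or_ge k m with h | h
    · have a1 : min k m = k := by omega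
      have a2 : min (k + 1) m = k + 1 := by omega
      have a3 : min m (k + 1) = k + 1 := by omega
      rw [a1] at ih
      rw [a2, a3, Finset.sum_range_succ]
      nlinarith
    · have a1 : min k m = m := by omega
      have a2 : min (k + 1) m = m := by omega
      have a3 : min m (k + 1) = m := by omega
      rw [a1] at ih
      rw [a2, a3]
      nlinarith

/-- comparison for `j = 1` -/
theorem BB_one_bound {m : ℕ} (hm : 1 ≤ m) {r k : ℕ} (hk : m ≤ k) {X : Finset (ℕ →₀ ℕ)}
    (h : Good m (r + 2) X) (hX : X.card = nn m (r + 2) k) :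
    BB 1 (r + 1) X + (m - (sec 1 X).card) ≤ bbs m 1 (r + 1) k := by
  have h1 := BB_one_le hm _ X rfl h
  have h2 := bbs_one m r k
  have hd := sec_one_card_le h
  rw [min_eq_right hk] at h2
  obtain ⟨e, he⟩ := Nat.exists_eq_add_of_le hd
  rw [hX] at h1
  have h3 : ∑ i ∈ Finset.range m, nn m (r + 2) i ≤
      ∑ i ∈ Finset.range (sec 1 X).card, nn m (r + 2) i + e * (nn m (r + 2) k - 1) := by
    have hsr : ∑ i ∈ Finset.range m, nn m (r + 2) i =
        ∑ i ∈ Finset.range ((sec 1 X).card + e), nn m (r + 2) i := by rw [← he]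
    rw [hsr, Finset.sum_range_add]
    apply Nat.add_le_add_left
    have : ∀ i ∈ Finset.range e, nn m (r + 2) ((sec 1 X).card + i) ≤ nn m (r + 2) k - 1 := by
      intro i hi
      rw [Finset.mem_range] at hi
      have e1 := nn_succ m (r + 1) ((sec 1 X).card + i)
      have p1 : 0 < nn m (r + 1) ((sec 1 X).card + i + 1) := nn_pos hm (by omega) (by omega)
      have p2 := nn_mono m (r + 2) (by omega) (show (sec 1 X).card + i + 1 ≤ k by omega)
      change nn m (r + 2) ((sec 1 X).card + i + 1) =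
        nn m (r + 2) ((sec 1 X).card + i) + nn m (r + 1) ((sec 1 X).card + i + 1) at e1
      omega
    calc _ ≤ ∑ _i ∈ Finset.range e, (nn m (r + 2) k - 1) := Finset.sum_le_sum this
      _ = e * (nn m (r + 2) k - 1) := by simp
  have h4 : 0 < nn m (r + 2) k := nn_pos hm (by omega) (by omega)
  have h5 : m - (sec 1 X).card = e := by omega
  rw [h5]
  obtain ⟨c, hc⟩ := Nat.exists_eq_add_of_le' h4
  rw [hc] at h1 h2 h3
  simp only [Nat.add_sub_cancel] at h3
  have h6 : m * (c + 1) = (sec 1 X).card * (c + 1) + e * (c + 1) := by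
    conv_lhs => rw [he]
    ring
  nlinarith

theorem BB_zero_le {m r : ℕ} {X : Finset (ℕ →₀ ℕ)} (h : Good m (r + 1) X) :
    BB 0 r X ≤ X.card := by
  have h1 := BB_le_mul (m := m) (r := r) (j := 0) (by omega) _ X rfl h
  have h2 := sec_zero_card_le (X := X)
  nlinarith

/-- the total count of pairs -/
noncomputable def BT (r : ℕ) (X : Finset (ℕ →₀ ℕ)) : ℕ :=
  BB r (r + 1) X + ∑ j ∈ Finset.range (r + 1), BB j (r + 1) X

theorem BT_bound {m : ℕ} (hm : 1 ≤ m) {r k : ℕ} (hr : 1 ≤ r) (hk : m ≤ k)
    {X : Finset (ℕ →₀ ℕ)} (h : Good m (r + 2) X) (hX : X.card = nn m (r + 2) k) :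
    BT r X + (m - (sec 1 X).card) ≤ bst m r k := by
  have h1 := BB_one_bound hm hk h hX
  have h0 := BB_zero_le (r := r + 1) h
  have hj : ∀ j, 1 ≤ j → j ≤ r → BB j (r + 1) X ≤ bbs m j (r + 1) k := by
    intro j hj1 hjr
    rcases Nat.lt_or_ge 1 j with h2 | h2
    · obtain ⟨j, rfl⟩ := Nat.exists_eq_add_of_le' hj1
      have := BB_bound hm hr (show 1 ≤ j by omega) (by omega) k X h (by omega)
      rw [hX, sub_self, mul_zero] at this
      have h3 : (BB (j + 1) (r + 1) X : ℚ) ≤ bbs m (j + 1) (r + 1) k := by linarith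
      exact_mod_cast h3
    · have : j = 1 := by omega
      subst this
      omega
  unfold BT bst
  rw [Finset.sum_range_succ']
  have hsum : ∑ j ∈ Finset.range r, BB (j + 1) (r + 1) X + (m - (sec 1 X).card) ≤
      ∑ j ∈ Finset.range r, bbs m (j + 1) (r + 1) k := by
    obtain ⟨r, rfl⟩ := Nat.exists_eq_add_of_le' hr
    rw [Finset.sum_range_succ', Finset.sum_range_succ']
    have : ∑ j ∈ Finset.range r, BB (j + 1 + 1) (r + 1 + 1) X ≤
        ∑ j ∈ Finset.range r, bbs m (j + 1 + 1) (r + 1 + 1) k := by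
      apply Finset.sum_le_sum
      intro j hj'
      rw [Finset.mem_range] at hj'
      exact hj _ (by omega) (by omega)
    rw [Nat.zero_add]
    omega
  have := hj r hr le_rfl
  omega

end Pool.Agent.MP_74475a_ag
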