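import Mathlib

/-!
The combinatorial core: a function on pairs (monomial of the ideal, standard monomial)
that obeys the two rules of a homomorphism and vanishes on two small families vanishes.
-/

namespace Pool.Agent.MP_74475a_ag

variable {N : ℕ}

/-- `i` is the largest index other than `u`, `v` in the support of `g` -/
def TopIdx (u v : Fin N) (g : Fin N →₀ ℕ) (i : Fin N) : Prop :=
  i ≠ u ∧ i ≠ v ∧ g i ≠ 0 ∧ ∀ i', i < i' → i' ≠ u → i' ≠ v → g i' = 0

/-- the family of pairs with `s v < g v` -/
def FMinus (S : Set (Fin N →₀ ℕ)) (u v : Fin N) (g s : Fin N →₀ ℕ) : Prop :=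
  g ∉ S ∧ s ∈ S ∧ s v < g v ∧ g - Finsupp.single v 1 ∈ S ∧ s + Finsupp.single u 1 ∉ S

/-- the family of pairs with `g v ≤ s v` -/
def FPlus (S : Set (Fin N →₀ ℕ)) (u v : Fin N) (g s : Fin N →₀ ℕ) : Prop :=
  g ∉ S ∧ s ∈ S ∧ g v ≤ s v ∧
  (∀ i, TopIdx u v g i → g - Finsupp.single i 1 ∈ S) ∧
  (g u ≠ 0 → g - Finsupp.single u 1 ∈ S ∧ s + Finsupp.single v 1 ∉ S) ∧
  (g u = 0 → (g v ≠ 0 → g - Finsupp.single v 1 ∈ S) ∧
    ∀ i, TopIdx u v g i → ∀ n : ℕ, g - Finsupp.single i 1 + Finsupp.single v n ∉ S →
      s + Finsupp.single v n ∉ S)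

structure Rules (S : Set (Fin N →₀ ℕ)) (c : (Fin N →₀ ℕ) → (Fin N →₀ ℕ) → ℂ) : Prop where
  add : ∀ g s i, g ∉ S → s + Finsupp.single i 1 ∈ S →
    c (g + Finsupp.single i 1) (s + Finsupp.single i 1) = c g s
  zero : ∀ g s i, g ∉ S → s ∈ S → s i = 0 → c (g + Finsupp.single i 1) s = 0

section
variable {S : Set (Fin N →₀ ℕ)} {c : (Fin N →₀ ℕ) → (Fin N →₀ ℕ) → ℂ} {u v : Fin N}

theorem sub_single_add {g : Fin N →₀ ℕ} {i : Fin N} (h : g i ≠ 0) :
    g - Finsupp.single i 1 + Finsupp.single i 1 = g := by
  apply tsub_add_cancel_of_le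
  rw [Finsupp.single_le_iff]
  exact Nat.one_le_iff_ne_zero.mpr h

/-- one step down: the value at `(g, s)` is determined by a smaller pair -/
theorem Rules.down (hR : Rules S c) {g s : Fin N →₀ ℕ} {i : Fin N} (hi : g i ≠ 0)
    (hg : g - Finsupp.single i 1 ∉ S) (hs : s ∈ S)
    (H : s i ≠ 0 → c (g - Finsupp.single i 1) (s - Finsupp.single i 1) = 0) : c g s = 0 := by
  by_cases hsi : s i = 0
  · have := hR.zero (g - Finsupp.single i 1) s i hg hs hsi
    rwa [sub_single_add hi] at this
  · have h1 := hR.add (g - Finsupp.single i 1) (s - Finsupp.single i 1) i hg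
      (by rw [sub_single_add hsi]; exact hs)
    rw [sub_single_add hi, sub_single_add hsi] at h1
    rw [h1]
    exact H hsi

theorem vanish_minus (hS : ∀ a b, a ≤ b → b ∈ S → a ∈ S) (hR : Rules S c) (huv : u ≠ v)
    (H : ℕ) (hH : ∀ s ∈ S, ∀ i, s i < H)
    (hF : ∀ g s, FMinus S u v g s → c g s = 0) :
    ∀ g s, g ∉ S → s ∈ S → s v < g v → c g s = 0 := by
  have main : ∀ (p q : ℕ) (g s : Fin N →₀ ℕ), g v = p → H - s u = q → g ∉ S → s ∈ S →
      s v < g v → c g s = 0 := by
    intro p
    induction p with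
    | zero =>
      intro q g s hp _ _ _ h
      omega
    | succ p ihp =>
      intro q
      induction q with
      | zero =>
        intro g s _ hq _ hs _
        have := hH s hs u
        omega
      | succ q ihq =>
        intro g s hp hq hg hs hlt
        by_cases h1 : g - Finsupp.single v 1 ∈ S
        · by_cases h2 : s + Finsupp.single u 1 ∈ S
          · rw [← hR.add g s u hg h2]
            apply ihq
            · rw [Finsupp.add_apply, Finsupp.single_eq_of_ne (Ne.symm huv), add_zero, hp]
            · rw [Finsupp.add_apply, Finsupp.single_eq_same]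
              omega
            · intro h3
              exact hg (hS _ _ le_self_add h3)
            · exact h2
            · rw [Finsupp.add_apply, Finsupp.add_apply,
                Finsupp.single_eq_of_ne (Ne.symm huv)]
              simpa using hlt
          · exact hF g s ⟨hg, hs, hlt, h1, h2⟩
        · apply hR.down (i := v) (by omega) h1 hs
          intro hsv
          apply ihp (H - (s - Finsupp.single v 1 : Fin N →₀ ℕ) u)
          · rw [Finsupp.tsub_apply, Finsupp.single_eq_same, hp]
            omega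
          · rfl
          · exact h1
          · exact hS _ _ tsub_le_self hs
          · rw [Finsupp.tsub_apply, Finsupp.tsub_apply, Finsupp.single_eq_same]
            omega
  intro g s hg hs h
  exact main _ _ g s rfl rfl hg hs h

/-- iterate of the additive rule -/
theorem Rules.add_nsmul (hS : ∀ a b, a ≤ b → b ∈ S → a ∈ S) (hR : Rules S c)
    {g s : Fin N →₀ ℕ} (i : Fin N) (hg : g ∉ S) (n : ℕ)
    (hs : s + Finsupp.single i n ∈ S) :
    c (g + Finsupp.single i n) (s + Finsupp.single i n) = c g s := by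
  induction n with
  | zero => simp
  | succ n ih =>
    have h1 : s + Finsupp.single i n ∈ S := by
      apply hS _ _ _ hs
      rw [Finsupp.single_add, ← add_assoc]
      exact le_self_add
    rw [Finsupp.single_add, ← add_assoc, ← add_assoc]
    rw [hR.add, ih h1]
    · intro h2
      exact hg (hS _ _ le_self_add h2)
    · rw [add_assoc, ← Finsupp.single_add]
      exact hs

/-- the total exponent outside `u`, `v` -/
def yd (u v : Fin N) (g : Fin N →₀ ℕ) : ℕ :=
  ∑ i ∈ (Finset.univ.filter fun i => i ≠ u ∧ i ≠ v), g i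

theorem yd_sub {g : Fin N →₀ ℕ} {i : Fin N} (hu : i ≠ u) (hv : i ≠ v) (hi : g i ≠ 0) :
    yd u v (g - Finsupp.single i 1) < yd u v g := by
  unfold yd
  apply Finset.sum_lt_sum
  · intro j _
    rw [Finsupp.tsub_apply]
    omega
  · refine ⟨i, by simp [hu, hv], ?_⟩
    rw [Finsupp.tsub_apply, Finsupp.single_eq_same]
    omega

theorem yd_sub_u (g : Fin N →₀ ℕ) (n : ℕ) : yd u v (g - Finsupp.single u n) = yd u v g := by
  unfold yd
  refine Finset.sum_congr rfl ?_
  intro j hj
  rw [Finset.mem_filter] at hj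
  rw [Finsupp.tsub_apply, Finsupp.single_eq_of_ne hj.2.1, Nat.sub_zero]

theorem yd_sub_v (g : Fin N →₀ ℕ) (n : ℕ) : yd u v (g - Finsupp.single v n) = yd u v g := by
  unfold yd
  refine Finset.sum_congr rfl ?_
  intro j hj
  rw [Finset.mem_filter] at hj
  rw [Finsupp.tsub_apply, Finsupp.single_eq_of_ne hj.2.2, Nat.sub_zero]

theorem yd_add_v (g : Fin N →₀ ℕ) (n : ℕ) : yd u v (g + Finsupp.single v n) = yd u v g := by
  unfold yd
  refine Finset.sum_congr rfl ?_
  intro j hj
  rw [Finset.mem_filter] at hj
  rw [Finsupp.add_apply, Finsupp.single_eq_of_ne hj.2.2, add_zero]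

theorem vanish_plus (hS : ∀ a b, a ≤ b → b ∈ S → a ∈ S) (hR : Rules S c) (huv : u ≠ v)
    (H : ℕ) (hH : ∀ s ∈ S, ∀ i, s i < H)
    (hF : ∀ g s, FPlus S u v g s → c g s = 0) :
    ∀ g s, g ∉ S → s ∈ S → g v ≤ s v → c g s = 0 := by
  have main : ∀ (a b q : ℕ) (g s : Fin N →₀ ℕ), yd u v g = a → g u = b →
      (if g u = 0 then g v else H - s v) = q → g ∉ S → s ∈ S →
      g v ≤ s v → c g s = 0 := by
    intro a
    induction a using Nat.strong_induction_on with
    | _ a iha =>
    intro b
    induction b using Nat.strong_induction_on with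
    | _ b ihb =>
    intro q
    induction q using Nat.strong_induction_on with
    | _ q ihq =>
    intro g s ha hb hq hg hs hle
    -- step 1: a `y`-direction
    by_cases h1 : ∃ i, TopIdx u v g i ∧ g - Finsupp.single i 1 ∉ S
    · obtain ⟨i, hi, hgi⟩ := h1
      apply hR.down hi.2.2.1 hgi hs
      intro hsi
      refine iha (yd u v (g - Finsupp.single i 1)) ?_ _ _ _ _ rfl rfl rfl hgi
        (hS _ _ tsub_le_self hs) ?_
      · rw [← ha]
        exact yd_sub hi.1 hi.2.1 hi.2.2.1
      · rw [Finsupp.tsub_apply, Finsupp.tsub_apply,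
          Finsupp.single_eq_of_ne (Ne.symm hi.2.1)]
        simpa using hle
    push Not at h1
    -- step 2: the `u`-direction
    by_cases h2 : g u ≠ 0 ∧ g - Finsupp.single u 1 ∉ S
    · obtain ⟨hgu, hgu'⟩ := h2
      apply hR.down hgu hgu' hs
      intro hsi
      refine ihb ((g - Finsupp.single u 1 : Fin N →₀ ℕ) u) ?_ _ _ _ ?_ rfl rfl hgu'
        (hS _ _ tsub_le_self hs) ?_
      · rw [Finsupp.tsub_apply, Finsupp.single_eq_same]
        omega
      · rw [yd_sub_u, ha]
      · rw [Finsupp.tsub_apply, Finsupp.tsub_apply,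
          Finsupp.single_eq_of_ne (Ne.symm huv)]
        simpa using hle
    push Not at h2
    by_cases hgu : g u = 0
    · -- step 4
      by_cases h3 : g v ≠ 0 ∧ g - Finsupp.single v 1 ∉ S
      · obtain ⟨hgv, hgv'⟩ := h3
        apply hR.down hgv hgv' hs
        intro hsi
        have hu0 : (g - Finsupp.single v 1 : Fin N →₀ ℕ) u = 0 := by
          rw [Finsupp.tsub_apply, hgu]
          simp
        refine ihq ((g - Finsupp.single v 1 : Fin N →₀ ℕ) v) ?_ _ _ ?_ ?_ ?_ hgv'
          (hS _ _ tsub_le_self hs) ?_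
        · rw [Finsupp.tsub_apply, Finsupp.single_eq_same, ← hq, if_pos hgu]
          omega
        · rw [yd_sub_v, ha]
        · rw [hu0, ← hb, hgu]
        · rw [if_pos hu0]
        · rw [Finsupp.tsub_apply, Finsupp.tsub_apply, Finsupp.single_eq_same]
          omega
      push Not at h3
      by_cases h4 : ∃ i, TopIdx u v g i ∧ ∃ n : ℕ,
          g - Finsupp.single i 1 + Finsupp.single v n ∉ S ∧ s + Finsupp.single v n ∈ S
      · obtain ⟨i, hi, n, hgn, hsn⟩ := h4
        rw [← hR.add_nsmul hS v hg n hsn]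
        have e1 : g + Finsupp.single v n - Finsupp.single i 1 =
            g - Finsupp.single i 1 + Finsupp.single v n := by
          rw [tsub_add_eq_add_tsub]
          rw [Finsupp.single_le_iff]
          exact Nat.one_le_iff_ne_zero.mpr hi.2.2.1
        have hgi : (g + Finsupp.single v n : Fin N →₀ ℕ) i ≠ 0 := by
          rw [Finsupp.add_apply]
          have := hi.2.2.1
          omega
        apply hR.down (i := i) hgi (by rw [e1]; exact hgn) hsn
        intro _
        refine iha (yd u v (g + Finsupp.single v n - Finsupp.single i 1)) ?_ _ _ _ _ rfl rfl rfl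
          (by rw [e1]; exact hgn) (hS _ _ tsub_le_self hsn) ?_
        · rw [← ha, ← yd_add_v (u := u) (v := v) g n]
          exact yd_sub hi.1 hi.2.1 hgi
        · rw [Finsupp.tsub_apply, Finsupp.tsub_apply,
            Finsupp.single_eq_of_ne (Ne.symm hi.2.1), Finsupp.add_apply, Finsupp.add_apply]
          simpa using hle
      push Not at h4
      apply hF g s
      refine ⟨hg, hs, hle, ?_, ?_, ?_⟩
      · intro i hi
        exact h1 i hi
      · intro h
        exact absurd hgu h
      · intro _
        exact ⟨h3, fun i hi n hn => h4 i hi n hn⟩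
    · -- step 3
      by_cases h3 : s + Finsupp.single v 1 ∈ S
      · rw [← hR.add g s v hg h3]
        have hlt := hH _ h3 v
        rw [Finsupp.add_apply, Finsupp.single_eq_same] at hlt
        have hu1 : (g + Finsupp.single v 1 : Fin N →₀ ℕ) u = g u := by
          rw [Finsupp.add_apply, Finsupp.single_eq_of_ne huv, add_zero]
        refine ihq (H - (s + Finsupp.single v 1 : Fin N →₀ ℕ) v) ?_ _ _ ?_ ?_ ?_ ?_ h3 ?_
        · rw [Finsupp.add_apply, Finsupp.single_eq_same, ← hq, if_neg hgu]
          omega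
        · rw [yd_add_v, ha]
        · rw [hu1, hb]
        · rw [hu1, if_neg hgu]
        · intro h5
          exact hg (hS _ _ le_self_add h5)
        · rw [Finsupp.add_apply, Finsupp.add_apply]
          omega
      · apply hF g s
        refine ⟨hg, hs, hle, ?_, ?_, ?_⟩
        · intro i hi
          exact h1 i hi
        · intro h
          exact ⟨h2 h, h3⟩
        · intro h
          exact absurd h hgu
  intro g s hg hs h
  exact main _ _ _ g s rfl rfl rfl hg hs h

end

end Pool.Agent.MP_74475a_ag
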