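import Mathlib
import Pool.Agent.MP_74475a_ag.Vanish

/-!
Counting the two families of pairs.
-/

namespace Pool.Agent.MP_74475a_ag

open Finset

variable {N : ℕ}

/-- pairs `(z, s)` in a down-closed finite set with `z v = s v`, `z` supported on
the first `j` indices and `v` -/
noncomputable def PP (S : Finset (Fin N →₀ ℕ)) (v : Fin N) (j : ℕ) :
    Finset ((Fin N →₀ ℕ) × (Fin N →₀ ℕ)) := by
  classical
  exact (S ×ˢ S).filter fun p => p.1 v = p.2 v ∧ ∀ i, i ≠ v → j ≤ (i : ℕ) → p.1 i = 0

theorem mem_PP {S : Finset (Fin N →₀ ℕ)} {v : Fin N} {j : ℕ}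
    {p : (Fin N →₀ ℕ) × (Fin N →₀ ℕ)} :
    p ∈ PP S v j ↔ p.1 ∈ S ∧ p.2 ∈ S ∧ p.1 v = p.2 v ∧
      ∀ i, i ≠ v → j ≤ (i : ℕ) → p.1 i = 0 := by
  unfold PP
  rw [Finset.mem_filter, Finset.mem_product, and_assoc]

/-- the outer boundary -/
noncomputable def bd (S : Finset (Fin N →₀ ℕ)) : Finset (Fin N →₀ ℕ) := by
  classical
  exact (S ×ˢ (Finset.univ : Finset (Fin N))).image fun p => p.1 + Finsupp.single p.2 1

theorem mem_bd {S : Finset (Fin N →₀ ℕ)} {g : Fin N →₀ ℕ} {i : Fin N} (hi : g i ≠ 0)
    (h : g - Finsupp.single i 1 ∈ S) : g ∈ bd S := by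
  classical
  unfold bd
  rw [Finset.mem_image]
  exact ⟨(g - Finsupp.single i 1, i), by simp [h], sub_single_add hi⟩

open Classical in
/-- the pairs of type minus -/
noncomputable def fMinus (S : Finset (Fin N →₀ ℕ)) (u v : Fin N) :
    Finset ((Fin N →₀ ℕ) × (Fin N →₀ ℕ)) :=
  (bd S ×ˢ S).filter fun p => FMinus (S : Set (Fin N →₀ ℕ)) u v p.1 p.2

open Classical in
/-- the pairs of type plus -/
noncomputable def fPlus (S : Finset (Fin N →₀ ℕ)) (u v : Fin N) :
    Finset ((Fin N →₀ ℕ) × (Fin N →₀ ℕ)) :=
  (bd S ×ˢ S).filter fun p => FPlus (S : Set (Fin N →₀ ℕ)) u v p.1 p.2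

theorem exists_topIdx {u v : Fin N} {g : Fin N →₀ ℕ} (h : ∃ i, i ≠ u ∧ i ≠ v ∧ g i ≠ 0) :
    ∃ i, TopIdx u v g i := by
  classical
  set s : Finset (Fin N) := Finset.univ.filter fun i => i ≠ u ∧ i ≠ v ∧ g i ≠ 0 with hs
  have hne : s.Nonempty := by
    obtain ⟨i, hi⟩ := h
    exact ⟨i, by simp [hs, hi]⟩
  have hm := Finset.mem_filter.mp (s.max'_mem hne)
  refine ⟨s.max' hne, hm.2.1, hm.2.2.1, hm.2.2.2, ?_⟩
  intro i' hi' hu hv
  by_contra hg
  have : i' ∈ s := by simp [hs, hu, hv, hg]
  exact absurd (s.le_max' i' this) (not_le.mpr hi')

theorem mem_fMinus {S : Finset (Fin N →₀ ℕ)} {u v : Fin N} {g s : Fin N →₀ ℕ}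
    (h : FMinus (S : Set (Fin N →₀ ℕ)) u v g s) : (g, s) ∈ fMinus S u v := by
  classical
  unfold fMinus
  rw [Finset.mem_filter, Finset.mem_product]
  obtain ⟨h1, h2, h3, h4, h5⟩ := h
  have h6 : g v ≠ 0 := by omega
  refine ⟨⟨mem_bd (i := v) h6 (by simpa using h4), by simpa using h2⟩, h1, h2, h3, h4, h5⟩

theorem mem_fPlus {S : Finset (Fin N →₀ ℕ)} {u v : Fin N} {g s : Fin N →₀ ℕ}
    (hS : ∀ a b, a ≤ b → b ∈ S → a ∈ S)
    (h : FPlus (S : Set (Fin N →₀ ℕ)) u v g s) : (g, s) ∈ fPlus S u v := by
  classical
  unfold fPlus
  rw [Finset.mem_filter, Finset.mem_product]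
  refine ⟨⟨?_, by simpa using h.2.1⟩, h⟩
  obtain ⟨h1, h2, h3, h4, h5, h6⟩ := h
  by_cases hu : g u = 0
  · by_cases hv : g v = 0
    · by_cases hy : ∃ i, i ≠ u ∧ i ≠ v ∧ g i ≠ 0
      · obtain ⟨i, hi⟩ := exists_topIdx hy
        exact mem_bd (i := i) hi.2.2.1 (by simpa using h4 i hi)
      · exfalso
        push Not at hy
        have : g = 0 := by
          ext i
          by_cases hiu : i = u
          · rw [hiu, hu]; rfl
          · by_cases hiv : i = v
            · rw [hiv, hv]; rfl
            · exact hy i hiu hiv
        apply h1
        rw [this]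
        exact hS 0 s (by intro i; simp) (by simpa using h2)
    · exact mem_bd (i := v) hv (by simpa using (h6 hu).1 hv)
  · exact mem_bd (i := u) hu (by simpa using (h5 hu).1)

theorem card_fMinus_le {S : Finset (Fin N →₀ ℕ)} (hS : ∀ a b, a ≤ b → b ∈ S → a ∈ S)
    {u v : Fin N} (huv : u ≠ v) {n : ℕ} (hu : ∀ i, i ≠ v → n ≤ (i : ℕ) → i = u) :
    (fMinus S u v).card ≤ (PP S v n).card := by
  classical
  apply Finset.card_le_card_of_injOn
    (fun p => (p.2.update u 0, p.1.update v (p.2 v)))
  · intro p hp
    have hp' : p ∈ fMinus S u v := hp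
    unfold fMinus at hp'
    rw [Finset.mem_filter] at hp'
    obtain ⟨_, h1, h2, h3, h4, h5⟩ := hp'
    have hgoal : (p.2.update u 0, p.1.update v (p.2 v)) ∈ PP S v n := by
      rw [mem_PP]
      refine ⟨?_, ?_, ?_, ?_⟩
      · apply hS _ p.2 _ (by simpa using h2)
        intro i
        simp only [Finsupp.coe_update, Function.update_apply]
        split_ifs <;> simp
      · apply hS _ (p.1 - Finsupp.single v 1) _ (by simpa using h4)
        intro i
        simp only [Finsupp.coe_update, Function.update_apply, Finsupp.tsub_apply]
        split_ifs with h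
        · subst h
          rw [Finsupp.single_eq_same]
          omega
        · rw [Finsupp.single_eq_of_ne h]
          simp
      · simp [huv.symm]
      · intro i hi hni
        rw [hu i hi hni]
        simp
    exact hgoal
  · intro p hp q hq hpq
    have hp' : p ∈ fMinus S u v := hp
    have hq' : q ∈ fMinus S u v := hq
    unfold fMinus at hp' hq'
    rw [Finset.mem_filter] at hp' hq'
    obtain ⟨_, p1, p2, p3, p4, p5⟩ := hp'
    obtain ⟨_, q1, q2, q3, q4, q5⟩ := hq'
    simp only [Prod.mk.injEq] at hpq
    obtain ⟨e1, e2⟩ := hpq
    have f1 : ∀ i, i ≠ u → p.2 i = q.2 i := by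
      intro i hi
      have := DFunLike.congr_fun e1 i
      simpa [Function.update_apply, hi] using this
    have f2 : ∀ i, i ≠ v → p.1 i = q.1 i := by
      intro i hi
      have := DFunLike.congr_fun e2 i
      simpa [Function.update_apply, hi] using this
    have g1 : p.2 u = q.2 u := by
      rcases lt_trichotomy (p.2 u) (q.2 u) with h | h | h
      · exfalso
        apply p5
        have : p.2 + Finsupp.single u 1 ≤ q.2 := by
          intro i
          rw [Finsupp.add_apply]
          by_cases hi : i = u
          · subst hi
            rw [Finsupp.single_eq_same]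
            omega
          · rw [Finsupp.single_eq_of_ne hi, f1 i hi]
            simp
        exact_mod_cast hS _ _ this (by simpa using q2)
      · exact h
      · exfalso
        apply q5
        have : q.2 + Finsupp.single u 1 ≤ p.2 := by
          intro i
          rw [Finsupp.add_apply]
          by_cases hi : i = u
          · subst hi
            rw [Finsupp.single_eq_same]
            omega
          · rw [Finsupp.single_eq_of_ne hi, f1 i hi]
            simp
        exact_mod_cast hS _ _ this (by simpa using p2)
    have k2 : p.2 = q.2 := by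
      ext i
      by_cases hi : i = u
      · rw [hi, g1]
      · exact f1 i hi
    have g2 : p.1 v = q.1 v := by
      rcases lt_trichotomy (p.1 v) (q.1 v) with h | h | h
      · exfalso
        apply p1
        have : p.1 ≤ q.1 - Finsupp.single v 1 := by
          intro i
          rw [Finsupp.tsub_apply]
          by_cases hi : i = v
          · subst hi
            rw [Finsupp.single_eq_same]
            omega
          · rw [Finsupp.single_eq_of_ne hi, f2 i hi]
            simp
        exact_mod_cast hS _ _ this (by simpa using q4)
      · exact h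
      · exfalso
        apply q1
        have : q.1 ≤ p.1 - Finsupp.single v 1 := by
          intro i
          rw [Finsupp.tsub_apply]
          by_cases hi : i = v
          · subst hi
            rw [Finsupp.single_eq_same]
            omega
          · rw [Finsupp.single_eq_of_ne hi, f2 i hi]
            simp
        exact_mod_cast hS _ _ this (by simpa using p4)
    have k1 : p.1 = q.1 := by
      ext i
      by_cases hi : i = v
      · rw [hi, g2]
      · exact f2 i hi
    exact Prod.ext k1 k2


/-- the largest `v`-coordinate in the `v`-column of `s` -/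
noncomputable def topC (S : Finset (Fin N →₀ ℕ)) (v : Fin N) (s : Fin N →₀ ℕ) : ℕ := by
  classical
  exact (S.filter fun a => ∀ i, i ≠ v → a i = s i).sup fun a => a v

theorem le_topC {S : Finset (Fin N →₀ ℕ)} {v : Fin N} {s a : Fin N →₀ ℕ} (ha : a ∈ S)
    (h : ∀ i, i ≠ v → a i = s i) : a v ≤ topC S v s := by
  classical
  unfold topC
  exact Finset.le_sup (f := fun a : Fin N →₀ ℕ => a v) (Finset.mem_filter.mpr ⟨ha, h⟩)

theorem mem_of_le_topC {S : Finset (Fin N →₀ ℕ)} (hS : ∀ a b, a ≤ b → b ∈ S → a ∈ S)
    {v : Fin N} {s a : Fin N →₀ ℕ} (hs : s ∈ S)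
    (h : ∀ i, i ≠ v → a i = s i) (hv : a v ≤ topC S v s) : a ∈ S := by
  classical
  have hne : (S.filter fun a => ∀ i, i ≠ v → a i = s i).Nonempty :=
    ⟨s, Finset.mem_filter.mpr ⟨hs, fun i _ => rfl⟩⟩
  obtain ⟨b, hb, hb'⟩ := Finset.exists_mem_eq_sup _ hne (fun a : Fin N →₀ ℕ => a v)
  rw [Finset.mem_filter] at hb
  apply hS a b _ hb.1
  intro i
  by_cases hi : i = v
  · subst hi
    have : topC S i s = b i := hb'
    omega
  · rw [h i hi, hb.2 i hi]

theorem topC_congr {S : Finset (Fin N →₀ ℕ)} {v : Fin N} {s a : Fin N →₀ ℕ}
    (h : ∀ i, i ≠ v → a i = s i) : topC S v a = topC S v s := by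
  classical
  unfold topC
  congr 1
  apply Finset.filter_congr
  intro b _
  constructor
  · intro hb i hi
    rw [hb i hi, h i hi]
  · intro hb i hi
    rw [hb i hi, h i hi]

theorem TopIdx.unique {u v : Fin N} {g : Fin N →₀ ℕ} {i i' : Fin N}
    (h : TopIdx u v g i) (h' : TopIdx u v g i') : i = i' := by
  rcases lt_trichotomy i i' with h1 | h1 | h1
  · exact absurd (h.2.2.2 i' h1 h'.1 h'.2.1) h'.2.2.1
  · exact h1
  · exact absurd (h'.2.2.2 i h1 h.1 h.2.1) h.2.2.1

open Classical in
/-- one plus the top index, or zero -/
noncomputable def jOf (u v : Fin N) (g : Fin N →₀ ℕ) : ℕ :=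
  if h : ∃ i, TopIdx u v g i then (h.choose : Fin N).val + 1 else 0

open Classical in
/-- lower the top index -/
noncomputable def wOf (u v : Fin N) (g : Fin N →₀ ℕ) : Fin N →₀ ℕ :=
  if h : ∃ i, TopIdx u v g i then g - Finsupp.single h.choose 1 else g

theorem jOf_top {u v : Fin N} {g : Fin N →₀ ℕ} {i : Fin N} (h : TopIdx u v g i) :
    jOf u v g = i.val + 1 := by
  classical
  have h' : ∃ i, TopIdx u v g i := ⟨i, h⟩
  unfold jOf
  rw [dif_pos h', h.unique h'.choose_spec]

theorem wOf_top {u v : Fin N} {g : Fin N →₀ ℕ} {i : Fin N} (h : TopIdx u v g i) :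
    wOf u v g = g - Finsupp.single i 1 := by
  classical
  have h' : ∃ i, TopIdx u v g i := ⟨i, h⟩
  unfold wOf
  rw [dif_pos h', h.unique h'.choose_spec]

theorem jOf_not {u v : Fin N} {g : Fin N →₀ ℕ} (h : ¬ ∃ i, TopIdx u v g i) :
    jOf u v g = 0 := by
  unfold jOf
  rw [dif_neg h]

theorem wOf_not {u v : Fin N} {g : Fin N →₀ ℕ} (h : ¬ ∃ i, TopIdx u v g i) :
    wOf u v g = g := by
  unfold wOf
  rw [dif_neg h]

theorem y_eq_of_jOf {u v : Fin N} {g g' : Fin N →₀ ℕ} (hj : jOf u v g = jOf u v g')
    (hw : ∀ i, i ≠ u → i ≠ v → wOf u v g i = wOf u v g' i) :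
    ∀ i, i ≠ u → i ≠ v → g i = g' i := by
  intro k hku hkv
  by_cases h : ∃ i, TopIdx u v g i
  · obtain ⟨i, hi⟩ := h
    by_cases h' : ∃ i, TopIdx u v g' i
    · obtain ⟨i', hi'⟩ := h'
      rw [jOf_top hi, jOf_top hi'] at hj
      have hii : i = i' := Fin.ext (by omega)
      subst hii
      have h1 := hw k hku hkv
      rw [wOf_top hi, wOf_top hi', Finsupp.tsub_apply, Finsupp.tsub_apply] at h1
      by_cases hk : k = i
      · subst hk
        rw [Finsupp.single_eq_same] at h1
        have := hi.2.2.1
        have := hi'.2.2.1
        omega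
      · rw [Finsupp.single_eq_of_ne hk] at h1
        simpa using h1
    · rw [jOf_top hi, jOf_not h'] at hj
      omega
  · by_cases h' : ∃ i, TopIdx u v g' i
    · obtain ⟨i', hi'⟩ := h'
      rw [jOf_not h, jOf_top hi'] at hj
      omega
    · have h1 := hw k hku hkv
      rwa [wOf_not h, wOf_not h'] at h1

open Classical in
/-- the counting map on the pairs of type plus -/
noncomputable def mapPlus (S : Finset (Fin N →₀ ℕ)) (u v : Fin N)
    (p : (Fin N →₀ ℕ) × (Fin N →₀ ℕ)) :
    (_ : ℕ) × ((Fin N →₀ ℕ) × (Fin N →₀ ℕ)) :=
  ⟨jOf u v p.1, (((wOf u v p.1).update u 0).update v (p.1 v + (topC S v p.2 - p.2 v)),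
    p.2.update v (p.1 v + (topC S v p.2 - p.2 v)))⟩

theorem card_fPlus_le {S : Finset (Fin N →₀ ℕ)} (hS : ∀ a b, a ≤ b → b ∈ S → a ∈ S)
    {u v : Fin N} (huv : u ≠ v) {n : ℕ} (hy : ∀ i, i ≠ u → i ≠ v → (i : ℕ) < n) :
    (fPlus S u v).card ≤ ∑ j ∈ Finset.range (n + 1), (PP S v j).card := by
  classical
  rw [← Finset.card_sigma]
  apply Finset.card_le_card_of_injOn (mapPlus S u v)
  · intro p hp
    have hp' : p ∈ fPlus S u v := hp
    unfold fPlus at hp'
    rw [Finset.mem_filter] at hp'
    obtain ⟨_, h1, h2, h3, h4, h5, h6⟩ := hp'
    obtain ⟨g, s⟩ := p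
    simp only at h1 h2 h3 h4 h5 h6
    have h2' : s ∈ S := by simpa using h2
    have htop : s v ≤ topC S v s := le_topC h2' (fun i _ => rfl)
    have hgoal : mapPlus S u v (g, s) ∈ (Finset.range (n + 1)).sigma fun j => PP S v j := by
      unfold mapPlus
      rw [Finset.mem_sigma]
      simp only
      refine ⟨?_, ?_⟩
      · rw [Finset.mem_range]
        by_cases h : ∃ i, TopIdx u v g i
        · obtain ⟨i, hi⟩ := h
          rw [jOf_top hi]
          have := hy i hi.1 hi.2.1
          omega
        · rw [jOf_not h]
          omega
      · rw [mem_PP]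
        have hs' : s.update v (g v + (topC S v s - s v)) ∈ S := by
          apply mem_of_le_topC (v := v) hS h2'
          · intro i hi
            simp [hi]
          · simp
            omega
        refine ⟨?_, hs', ?_, ?_⟩
        · -- membership of `z`
          by_cases h : ∃ i, TopIdx u v g i
          · obtain ⟨i, hi⟩ := h
            rw [wOf_top hi]
            by_cases hgu : g u = 0
            · -- use the last condition
              have h7 := (h6 hgu).2 i hi (topC S v s - s v)
              have h8 : s + Finsupp.single v (topC S v s - s v) ∈ S := by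
                apply mem_of_le_topC hS h2'
                · intro k hk
                  rw [Finsupp.add_apply, Finsupp.single_eq_of_ne hk, add_zero]
                · rw [Finsupp.add_apply, Finsupp.single_eq_same]
                  omega
              have h9 : g - Finsupp.single i 1 + Finsupp.single v (topC S v s - s v) ∈ S := by
                by_contra hcon
                exact h7 (by simpa using hcon) (by simpa using h8)
              apply hS _ _ _ h9
              intro k
              simp only [Finsupp.coe_update, Function.update_apply, Finsupp.add_apply,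
                Finsupp.tsub_apply]
              split_ifs with hk1 hk2
              · subst hk1
                rw [Finsupp.single_eq_same, Finsupp.single_eq_of_ne (Ne.symm hi.2.1)]
                omega
              · simp
              · rw [Finsupp.single_eq_of_ne hk1]
                omega
            · have h7 := h5 hgu
              have h8 : topC S v s = s v := by
                by_contra hne
                apply h7.2
                have : s + Finsupp.single v 1 ∈ S := by
                  apply mem_of_le_topC hS h2'
                  · intro k hk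
                    rw [Finsupp.add_apply, Finsupp.single_eq_of_ne hk, add_zero]
                  · rw [Finsupp.add_apply, Finsupp.single_eq_same]
                    omega
                exact_mod_cast this
              have h9 : g - Finsupp.single i 1 ∈ S := by simpa using h4 i hi
              apply hS _ _ _ h9
              intro k
              simp only [Finsupp.coe_update, Function.update_apply, Finsupp.tsub_apply]
              split_ifs with hk1 hk2
              · subst hk1
                rw [Finsupp.single_eq_of_ne (Ne.symm hi.2.1), h8]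
                omega
              · simp
              · exact le_rfl
          · rw [wOf_not h]
            apply hS _ _ _ hs'
            have hy0 : ∀ i, i ≠ u → i ≠ v → g i = 0 := by
              intro i hiu hiv
              by_contra hgi
              exact h (exists_topIdx ⟨i, hiu, hiv, hgi⟩)
            intro k
            simp only [Finsupp.coe_update, Function.update_apply]
            split_ifs with hk1 hk2
            · exact le_rfl
            · simp
            · rw [hy0 k hk2 hk1]
              simp
        · simp
        · intro k hkv hk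
          by_cases hku : k = u
          · subst hku
            simp [hkv]
          · by_cases h : ∃ i, TopIdx u v g i
            · obtain ⟨i, hi⟩ := h
              rw [jOf_top hi] at hk
              have hlt : i < k := by
                rw [Fin.lt_def]
                omega
              have := hi.2.2.2 k hlt hku hkv
              rw [wOf_top hi]
              simp [hkv, hku, this]
            · have hy0 : g k = 0 := by
                by_contra hgi
                exact h (exists_topIdx ⟨k, hku, hkv, hgi⟩)
              rw [wOf_not h]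
              simp [hkv, hku, hy0]
    exact hgoal
  · intro p hp q hq hpq
    have hp' : p ∈ fPlus S u v := hp
    have hq' : q ∈ fPlus S u v := hq
    unfold fPlus at hp' hq'
    rw [Finset.mem_filter] at hp' hq'
    obtain ⟨_, p1, p2, p3, p4, p5, p6⟩ := hp'
    obtain ⟨_, q1, q2, q3, q4, q5, q6⟩ := hq'
    obtain ⟨g, s⟩ := p
    obtain ⟨g', s'⟩ := q
    simp only at p1 p2 p3 p4 p5 p6 q1 q2 q3 q4 q5 q6
    have p2' : s ∈ S := by simpa using p2
    have q2' : s' ∈ S := by simpa using q2
    have hts : s v ≤ topC S v s := le_topC p2' (fun i _ => rfl)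
    have hts' : s' v ≤ topC S v s' := le_topC q2' (fun i _ => rfl)
    unfold mapPlus at hpq
    simp only [Sigma.mk.injEq, heq_eq_eq, Prod.mk.injEq] at hpq
    obtain ⟨e0, e1, e2⟩ := hpq
    have fy : ∀ i, i ≠ u → i ≠ v → g i = g' i := by
      apply y_eq_of_jOf e0
      intro i hiu hiv
      have := DFunLike.congr_fun e1 i
      simpa [Function.update_apply, hiu, hiv] using this
    have fs : ∀ i, i ≠ v → s i = s' i := by
      intro i hiv
      have := DFunLike.congr_fun e2 i
      simpa [Function.update_apply, hiv] using this
    have ht : g v + (topC S v s - s v) = g' v + (topC S v s' - s' v) := by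
      have := DFunLike.congr_fun e2 v
      simpa using this
    have hT : topC S v s = topC S v s' := topC_congr fs
    -- the key comparison
    have key : ∀ (g g' s s' : Fin N →₀ ℕ), g ∉ (S : Set (Fin N →₀ ℕ)) → s ∈ S →
        (∀ i, i ≠ u → i ≠ v → g i = g' i) → s v ≤ topC S v s → s' v ≤ topC S v s' →
        topC S v s = topC S v s' →
        g v + (topC S v s - s v) = g' v + (topC S v s' - s' v) →
        (g u ≠ 0 → g - Finsupp.single u 1 ∈ (S : Set (Fin N →₀ ℕ)) ∧
          s + Finsupp.single v 1 ∉ (S : Set (Fin N →₀ ℕ))) →
        (g' u ≠ 0 → g' - Finsupp.single u 1 ∈ (S : Set (Fin N →₀ ℕ))) →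
        (g' u = 0 → g' v ≠ 0 → g' - Finsupp.single v 1 ∈ (S : Set (Fin N →₀ ℕ))) →
        ¬ g v < g' v := by
      intro g g' s s' hg hs hyy h1 h2 h3 h4 h5 h6 h7 hlt
      have hgu : g u = 0 := by
        by_contra hgu
        apply (h5 hgu).2
        have : s + Finsupp.single v 1 ∈ S := by
          apply mem_of_le_topC hS hs
          · intro k hk
            rw [Finsupp.add_apply, Finsupp.single_eq_of_ne hk, add_zero]
          · rw [Finsupp.add_apply, Finsupp.single_eq_same]
            omega
        exact_mod_cast this
      by_cases hgu' : g' u = 0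
      · have h8 := h7 hgu' (by omega)
        apply hg
        have : g ≤ g' - Finsupp.single v 1 := by
          intro k
          rw [Finsupp.tsub_apply]
          by_cases hkv : k = v
          · subst hkv
            rw [Finsupp.single_eq_same]
            omega
          · rw [Finsupp.single_eq_of_ne hkv]
            by_cases hku : k = u
            · subst hku
              omega
            · rw [hyy k hku hkv]
              simp
        exact_mod_cast hS _ _ this (by simpa using h8)
      · have h8 := h6 hgu'
        apply hg
        have : g ≤ g' - Finsupp.single u 1 := by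
          intro k
          rw [Finsupp.tsub_apply]
          by_cases hku : k = u
          · subst hku
            omega
          · rw [Finsupp.single_eq_of_ne hku]
            by_cases hkv : k = v
            · subst hkv
              omega
            · rw [hyy k hku hkv]
              simp
        exact_mod_cast hS _ _ this (by simpa using h8)
    have hgv : g v = g' v := by
      rcases lt_trichotomy (g v) (g' v) with h | h | h
      · exact absurd h (key g g' s s' p1 p2' fy hts hts' hT ht p5 (fun h => (q5 h).1)
          (fun h => (q6 h).1))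
      · exact h
      · exact absurd h (key g' g s' s q1 q2' (fun i h1 h2 => (fy i h1 h2).symm) hts' hts hT.symm
          ht.symm q5 (fun h => (p5 h).1) (fun h => (p6 h).1))
    have hsv : s v = s' v := by omega
    have hss : s = s' := by
      ext i
      by_cases hi : i = v
      · rw [hi, hsv]
      · exact fs i hi
    have hgu : g u = g' u := by
      rcases lt_trichotomy (g u) (g' u) with h | h | h
      · exfalso
        apply p1
        have h8 := (q5 (by omega)).1
        have : g ≤ g' - Finsupp.single u 1 := by
          intro k
          rw [Finsupp.tsub_apply]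
          by_cases hku : k = u
          · subst hku
            rw [Finsupp.single_eq_same]
            omega
          · rw [Finsupp.single_eq_of_ne hku]
            by_cases hkv : k = v
            · subst hkv
              omega
            · rw [fy k hku hkv]
              simp
        exact_mod_cast hS _ _ this (by simpa using h8)
      · exact h
      · exfalso
        apply q1
        have h8 := (p5 (by omega)).1
        have : g' ≤ g - Finsupp.single u 1 := by
          intro k
          rw [Finsupp.tsub_apply]
          by_cases hku : k = u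
          · subst hku
            rw [Finsupp.single_eq_same]
            omega
          · rw [Finsupp.single_eq_of_ne hku]
            by_cases hkv : k = v
            · subst hkv
              omega
            · rw [fy k hku hkv]
              simp
        exact_mod_cast hS _ _ this (by simpa using h8)
    have hgg : g = g' := by
      ext i
      by_cases hi : i = v
      · rw [hi, hgv]
      · by_cases hi' : i = u
        · rw [hi', hgu]
        · exact fy i hi' hi
    rw [hgg, hss]

end Pool.Agent.MP_74475a_ag
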