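import Mathlib
import Pool.Agent.MP_74475a_ag.Borel

/-!
Monomial ideals: standard monomials, coefficient functionals, colength.
-/

namespace Pool.Agent.MP_74475a_ag

open MvPolynomial

variable {N : ℕ}

/-- exponents of the standard monomials -/
def std (I : Ideal (Poly N)) : Set (Fin N →₀ ℕ) := {a | monomial a (1 : ℂ) ∉ I}

theorem std_down (I : Ideal (Poly N)) {a b : Fin N →₀ ℕ} (hab : a ≤ b) (hb : b ∈ std I) :
    a ∈ std I := by
  intro ha
  apply hb
  have : (monomial b (1 : ℂ) : Poly N) = monomial (b - a) 1 * monomial a 1 := by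
    rw [monomial_mul, one_mul, tsub_add_cancel_of_le hab]
  rw [this]
  exact Ideal.mul_mem_left _ _ ha

theorem mem_iff_support {I : Ideal (Poly N)} (h : MonomialIdeal I) (f : Poly N) :
    f ∈ I ↔ ∀ a ∈ f.support, a ∉ std I := by
  constructor
  · intro hf a ha hs
    exact hs (h f hf a ha)
  · intro hf
    rw [f.as_sum]
    refine Ideal.sum_mem _ ?_
    intro a ha
    have h1 : monomial a (1 : ℂ) ∈ I := by
      have := hf a ha
      simpa [std] using this
    have e6 : (monomial a (coeff a f) : Poly N) = C (coeff a f) * monomial a 1 := by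
      rw [C_mul_monomial, mul_one]
    rw [e6]
    exact Ideal.mul_mem_left _ _ h1

/-- the coefficient functional of a standard monomial -/
noncomputable def cf {I : Ideal (Poly N)} (h : MonomialIdeal I) (s : Fin N →₀ ℕ)
    (hs : s ∈ std I) : (Poly N ⧸ I) →ₗ[ℂ] ℂ :=
  ((I.restrictScalars ℂ).liftQ (lcoeff ℂ s) (by
    intro f hf
    rw [LinearMap.mem_ker, lcoeff_apply]
    by_contra hne
    exact (mem_iff_support h f).mp hf s (mem_support_iff.mpr hne) hs)).comp
    (Submodule.Quotient.restrictScalarsEquiv ℂ I).symm.toLinearMap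

theorem cf_mk {I : Ideal (Poly N)} (h : MonomialIdeal I) (s : Fin N →₀ ℕ)
    (hs : s ∈ std I) (f : Poly N) : cf h s hs (Ideal.Quotient.mk I f) = coeff s f := by
  rfl

theorem eq_zero_of_cf {I : Ideal (Poly N)} (h : MonomialIdeal I) (y : Poly N ⧸ I)
    (hy : ∀ s (hs : s ∈ std I), cf h s hs y = 0) : y = 0 := by
  obtain ⟨f, rfl⟩ := Ideal.Quotient.mk_surjective y
  rw [Ideal.Quotient.eq_zero_iff_mem, mem_iff_support h]
  intro a ha hs
  have := hy a hs
  rw [cf_mk] at this
  exact (mem_support_iff.mp ha) this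

theorem cf_X_mul {I : Ideal (Poly N)} (h : MonomialIdeal I) (s : Fin N →₀ ℕ) (i : Fin N)
    (hs : s + Finsupp.single i 1 ∈ std I) (hs' : s ∈ std I) (y : Poly N ⧸ I) :
    cf h (s + Finsupp.single i 1) hs ((X i : Poly N) • y) = cf h s hs' y := by
  obtain ⟨f, rfl⟩ := Ideal.Quotient.mk_surjective y
  have : (X i : Poly N) • (Ideal.Quotient.mk I f) = Ideal.Quotient.mk I (X i * f) := rfl
  rw [this, cf_mk, cf_mk, add_comm, coeff_X_mul]

theorem cf_X_mul_zero {I : Ideal (Poly N)} (h : MonomialIdeal I) (s : Fin N →₀ ℕ) (i : Fin N)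
    (hs : s ∈ std I) (hi : s i = 0) (y : Poly N ⧸ I) :
    cf h s hs ((X i : Poly N) • y) = 0 := by
  obtain ⟨f, rfl⟩ := Ideal.Quotient.mk_surjective y
  have : (X i : Poly N) • (Ideal.Quotient.mk I f) = Ideal.Quotient.mk I (X i * f) := rfl
  rw [this, cf_mk, coeff_X_mul', if_neg]
  simpa using hi

/-- the matrix coefficient `(g, s)` of a homomorphism -/
noncomputable def mc {I : Ideal (Poly N)} (h : MonomialIdeal I)
    (φ : I →ₗ[Poly N] (Poly N ⧸ I)) (g s : Fin N →₀ ℕ) (hg : g ∉ std I) (hs : s ∈ std I) : ℂ :=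
  cf h s hs (φ ⟨monomial g 1, by simpa [std] using hg⟩)

theorem mc_add {I : Ideal (Poly N)} (h : MonomialIdeal I)
    (φ : I →ₗ[Poly N] (Poly N ⧸ I)) (g s : Fin N →₀ ℕ) (i : Fin N) (hg : g ∉ std I)
    (hs : s ∈ std I) (hg' : g + Finsupp.single i 1 ∉ std I)
    (hs' : s + Finsupp.single i 1 ∈ std I) :
    mc h φ (g + Finsupp.single i 1) (s + Finsupp.single i 1) hg' hs' = mc h φ g s hg hs := by
  unfold mc
  have h1 : (⟨monomial (g + Finsupp.single i 1) 1, by simpa [std] using hg'⟩ : I) =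
      (X i : Poly N) • ⟨monomial g 1, by simpa [std] using hg⟩ := by
    apply Subtype.ext
    simp only [SetLike.val_smul, smul_eq_mul]
    rw [X, monomial_mul, one_mul, add_comm]
  rw [h1, map_smul, cf_X_mul h s i hs' hs]

theorem mc_zero {I : Ideal (Poly N)} (h : MonomialIdeal I)
    (φ : I →ₗ[Poly N] (Poly N ⧸ I)) (g s : Fin N →₀ ℕ) (i : Fin N) (hg : g ∉ std I)
    (hs : s ∈ std I) (hg' : g + Finsupp.single i 1 ∉ std I) (hi : s i = 0) :
    mc h φ (g + Finsupp.single i 1) s hg' hs = 0 := by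
  unfold mc
  have h1 : (⟨monomial (g + Finsupp.single i 1) 1, by simpa [std] using hg'⟩ : I) =
      (X i : Poly N) • ⟨monomial g 1, by simpa [std] using hg⟩ := by
    apply Subtype.ext
    simp only [SetLike.val_smul, smul_eq_mul]
    rw [X, monomial_mul, one_mul, add_comm]
  rw [h1, map_smul, cf_X_mul_zero h s i hs hi]

theorem hom_eq_zero {I : Ideal (Poly N)} (h : MonomialIdeal I)
    (φ : I →ₗ[Poly N] (Poly N ⧸ I))
    (H : ∀ g s (hg : g ∉ std I) (hs : s ∈ std I), mc h φ g s hg hs = 0) : φ = 0 := by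
  apply LinearMap.ext
  rintro ⟨f, hf⟩
  have h1 : (⟨f, hf⟩ : I) = ∑ a ∈ f.support.attach, (C (coeff a.1 f) : Poly N) •
      (⟨monomial a.1 1, h f hf a.1 a.2⟩ : I) := by
    apply Subtype.ext
    rw [AddSubmonoidClass.coe_finsetSum]
    simp only [SetLike.val_smul, smul_eq_mul, C_mul_monomial, mul_one]
    rw [Finset.sum_attach f.support (fun a => (monomial a (coeff a f) : Poly N))]
    exact f.as_sum
  rw [h1, map_sum, LinearMap.zero_apply]
  refine Finset.sum_eq_zero ?_
  intro a _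
  rw [map_smul]
  have h2 : φ ⟨monomial a.1 1, h f hf a.1 a.2⟩ = 0 := by
    apply eq_zero_of_cf h
    intro s hs
    exact H a.1 s (fun hh => hh (h f hf a.1 a.2)) hs
  rw [h2, smul_zero]

end Pool.Agent.MP_74475a_ag
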