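import Mathlib
import Pool.Agent.MP_74475a_ag.Mon
import Pool.Agent.MP_74475a_ag.Count

/-!
The key inequality: `T(I)` is at most the number of pairs of the two families.
-/

namespace Pool.Agent.MP_74475a_ag

open MvPolynomial

variable {N : ℕ}

open Classical in
/-- total version of the matrix coefficient -/
noncomputable def mcT {I : Ideal (Poly N)} (h : MonomialIdeal I) (g s : Fin N →₀ ℕ) :
    (I →ₗ[Poly N] (Poly N ⧸ I)) →ₗ[ℂ] ℂ :=
  if hg : g ∉ std I then
    if hs : s ∈ std I then
      { toFun := fun φ => mc h φ g s hg hs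
        map_add' := by
          intro φ ψ
          unfold mc
          rw [LinearMap.add_apply, map_add]
        map_smul' := by
          intro a φ
          unfold mc
          rw [LinearMap.smul_apply, map_smul]
          rfl }
    else 0
  else 0

theorem mcT_eq {I : Ideal (Poly N)} (h : MonomialIdeal I) {g s : Fin N →₀ ℕ}
    (hg : g ∉ std I) (hs : s ∈ std I) (φ : I →ₗ[Poly N] (Poly N ⧸ I)) :
    mcT h g s φ = mc h φ g s hg hs := by
  unfold mcT
  rw [dif_pos hg, dif_pos hs]
  rfl

theorem rules_mcT {I : Ideal (Poly N)} (h : MonomialIdeal I)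
    (φ : I →ₗ[Poly N] (Poly N ⧸ I)) : Rules (std I) (fun g s => mcT h g s φ) where
  add := by
    intro g s i hg hs
    have hg' : g + Finsupp.single i 1 ∉ std I := fun h' => hg (std_down I le_self_add h')
    have hs' : s ∈ std I := std_down I le_self_add hs
    show mcT h _ _ φ = mcT h _ _ φ
    rw [mcT_eq h hg' hs, mcT_eq h hg hs', mc_add h φ g s i hg hs' hg' hs]
  zero := by
    intro g s i hg hs hi
    have hg' : g + Finsupp.single i 1 ∉ std I := fun h' => hg (std_down I le_self_add h')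
    show mcT h _ _ φ = 0
    rw [mcT_eq h hg' hs, mc_zero h φ g s i hg hs hg' hi]

theorem hom_finite_and_le {I : Ideal (Poly N)} (h : MonomialIdeal I)
    (F : Finset ((Fin N →₀ ℕ) × (Fin N →₀ ℕ)))
    (hF : ∀ φ : I →ₗ[Poly N] (Poly N ⧸ I), (∀ p ∈ F, mcT h p.1 p.2 φ = 0) → φ = 0) :
    Module.Finite ℂ (I →ₗ[Poly N] (Poly N ⧸ I)) ∧ tangentDim I ≤ F.card := by
  let Φ : (I →ₗ[Poly N] (Poly N ⧸ I)) →ₗ[ℂ] (F → ℂ) :=
    LinearMap.pi fun p => mcT h p.1.1 p.1.2
  have hinj : Function.Injective Φ := by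
    rw [← LinearMap.ker_eq_bot, LinearMap.ker_eq_bot']
    intro φ hφ
    apply hF φ
    intro p hp
    have := congrFun hφ ⟨p, hp⟩
    exact this
  constructor
  · exact Module.Finite.of_injective Φ hinj
  · have := LinearMap.finrank_le_finrank_of_injective hinj
    simpa [tangentDim] using this

theorem tangent_finite_and_le {I : Ideal (Poly N)} (h : MonomialIdeal I)
    (S : Finset (Fin N →₀ ℕ)) (hS : (S : Set (Fin N →₀ ℕ)) = std I) {u v : Fin N} {n : ℕ}
    (huv : u ≠ v) (hy : ∀ i, i ≠ u → i ≠ v → (i : ℕ) < n) :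
    Module.Finite ℂ (I →ₗ[Poly N] (Poly N ⧸ I)) ∧
    tangentDim I ≤ (PP S v n).card + ∑ j ∈ Finset.range (n + 1), (PP S v j).card := by
  classical
  have hdown : ∀ a b, a ≤ b → b ∈ S → a ∈ S := by
    intro a b hab hb
    have : a ∈ std I := std_down I hab (by rw [← hS]; exact_mod_cast hb)
    rw [← hS] at this
    exact_mod_cast this
  have hdown' : ∀ a b, a ≤ b → b ∈ (S : Set (Fin N →₀ ℕ)) → a ∈ (S : Set (Fin N →₀ ℕ)) := by
    intro a b hab hb
    exact_mod_cast hdown a b hab (by exact_mod_cast hb)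
  obtain ⟨H, hH⟩ : ∃ H, ∀ s ∈ (S : Set (Fin N →₀ ℕ)), ∀ i, s i < H := by
    refine ⟨(S.sup fun s => Finset.univ.sup fun i => s i) + 1, ?_⟩
    intro s hs i
    have h1 : s i ≤ Finset.univ.sup fun i => s i := Finset.le_sup (f := fun i => s i) (Finset.mem_univ i)
    have h2 : (Finset.univ.sup fun i => s i) ≤ S.sup fun s => Finset.univ.sup fun i => s i :=
      Finset.le_sup (f := fun s : Fin N →₀ ℕ => Finset.univ.sup fun i => s i)
        (by exact_mod_cast hs)
    omega
  have := hom_finite_and_le h (fMinus S u v ∪ fPlus S u v) (by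
    intro φ hφ
    apply hom_eq_zero h
    intro g s hg hs
    rw [← mcT_eq h hg hs]
    have hR : Rules (S : Set (Fin N →₀ ℕ)) (fun g s => mcT h g s φ) := by
      rw [hS]; exact rules_mcT h φ
    have hg' : g ∉ (S : Set (Fin N →₀ ℕ)) := by rw [hS]; exact hg
    have hs' : s ∈ (S : Set (Fin N →₀ ℕ)) := by rw [hS]; exact hs
    rcases lt_or_ge (s v) (g v) with hlt | hle
    · exact vanish_minus hdown' hR huv H hH (fun g s hgs =>
        hφ (g, s) (Finset.mem_union_left _ (mem_fMinus hgs))) g s hg' hs' hlt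
    · exact vanish_plus hdown' hR huv H hH (fun g s hgs =>
        hφ (g, s) (Finset.mem_union_right _ (mem_fPlus hdown hgs))) g s hg' hs' hle)
  refine ⟨this.1, this.2.trans ((Finset.card_union_le _ _).trans ?_)⟩
  apply Nat.add_le_add
  · apply card_fMinus_le hdown huv
    intro i hi hni
    by_contra hiu
    have := hy i hiu hi
    omega
  · exact card_fPlus_le hdown huv hy

end Pool.Agent.MP_74475a_ag
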