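import Mathlib
import Pool.Agent.MP_74475a_ag.TBound
import Pool.Agent.MP_74475a_ag.Bound

/-!
From Borel-fixed ideals to Borel sets.
-/

namespace Pool.Agent.MP_74475a_ag

open MvPolynomial

variable {N : ℕ}

theorem std_linearIndependent {I : Ideal (Poly N)} (h : MonomialIdeal I) :
    LinearIndependent ℂ (fun a : std I => Ideal.Quotient.mk I (monomial a.1 (1 : ℂ))) := by
  classical
  rw [linearIndependent_iff']
  intro s c hc a ha
  have h1 := congrArg (cf h a.1 a.2) hc
  rw [map_sum, map_zero] at h1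
  rw [Finset.sum_eq_single a] at h1
  · rw [map_smul, cf_mk, coeff_monomial, if_pos rfl] at h1
    simpa using h1
  · intro b _ hb
    rw [map_smul, cf_mk, coeff_monomial, if_neg, smul_zero]
    intro hab
    exact hb (Subtype.ext hab)
  · intro hna
    exact absurd ha hna

theorem std_span {I : Ideal (Poly N)} :
    ⊤ ≤ Submodule.span ℂ
      (Set.range (fun a : std I => Ideal.Quotient.mk I (monomial a.1 (1 : ℂ)))) := by
  intro y _
  obtain ⟨f, rfl⟩ := Ideal.Quotient.mk_surjective y
  rw [f.as_sum, map_sum]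
  refine Submodule.sum_mem _ ?_
  intro a _
  have e6 : Ideal.Quotient.mk I (monomial a (coeff a f)) =
      (coeff a f) • Ideal.Quotient.mk I (monomial a (1 : ℂ)) := by
    have : (monomial a (coeff a f) : Poly N) = (coeff a f) • monomial a (1 : ℂ) := by
      rw [smul_monomial]
      simp
    rw [this]
    rfl
  rw [e6]
  apply Submodule.smul_mem
  by_cases ha : a ∈ std I
  · exact Submodule.subset_span ⟨⟨a, ha⟩, rfl⟩
  · have : Ideal.Quotient.mk I (monomial a (1 : ℂ)) = 0 := by
      rw [Ideal.Quotient.eq_zero_iff_mem]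
      simpa [std] using ha
    rw [this]
    exact Submodule.zero_mem _

/-- the basis of standard monomials -/
noncomputable def stdBasis {I : Ideal (Poly N)} (h : MonomialIdeal I) :
    Module.Basis (std I) ℂ (Poly N ⧸ I) :=
  Module.Basis.mk (std_linearIndependent h) std_span

theorem hasColength_iff {I : Ideal (Poly N)} (h : MonomialIdeal I) (l : ℕ) :
    HasColength I l ↔ ∃ S : Finset (Fin N →₀ ℕ), (S : Set (Fin N →₀ ℕ)) = std I ∧ S.card = l := by
  constructor
  · rintro ⟨h1, h2⟩
    have hfin : Finite (std I) := Module.Finite.finite_basis (stdBasis h)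
    have hfin' : (std I).Finite := hfin
    refine ⟨hfin'.toFinset, by simp, ?_⟩
    rw [← h2, Module.finrank_eq_nat_card_basis (stdBasis h)]
    rw [Nat.card_coe_set_eq, Set.ncard_eq_toFinset_card _ hfin']
  · rintro ⟨S, hS, hl⟩
    have hfin' : (std I).Finite := by
      rw [← hS]
      exact S.finite_toSet
    have hfin : Finite (std I) := hfin'
    refine ⟨Module.Finite.of_basis (stdBasis h), ?_⟩
    rw [Module.finrank_eq_nat_card_basis (stdBasis h), Nat.card_coe_set_eq, ← hS,
      Set.ncard_coe_finset, hl]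

/-- the embedding of exponent vectors -/
noncomputable def emb (N : ℕ) : (Fin N →₀ ℕ) ↪ (ℕ →₀ ℕ) :=
  ⟨Finsupp.embDomain Fin.valEmbedding, Finsupp.embDomain_injective _⟩

theorem emb_apply (a : Fin N →₀ ℕ) (i : Fin N) : emb N a (i : ℕ) = a i :=
  Finsupp.embDomain_apply_self Fin.valEmbedding a i

theorem emb_apply_ge (a : Fin N →₀ ℕ) {n : ℕ} (h : N ≤ n) : emb N a n = 0 := by
  apply Finsupp.embDomain_of_notMem_range
  rintro ⟨i, hi⟩
  have : (i : ℕ) = n := hi
  omega

/-- restriction -/
noncomputable def res (N : ℕ) (b : ℕ →₀ ℕ) : Fin N →₀ ℕ :=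
  Finsupp.comapDomain Fin.val b (Fin.val_injective.injOn)

theorem res_apply (b : ℕ →₀ ℕ) (i : Fin N) : res N b i = b i := rfl

theorem emb_res {b : ℕ →₀ ℕ} (h : ∀ n, N ≤ n → b n = 0) : emb N (res N b) = b := by
  ext n
  rcases Nat.lt_or_ge n N with hn | hn
  · have := emb_apply (res N b) ⟨n, hn⟩
    rw [res_apply] at this
    exact this
  · rw [emb_apply_ge _ hn, h n hn]

theorem res_emb (a : Fin N →₀ ℕ) : res N (emb N a) = a := by
  ext i
  rw [res_apply, emb_apply]

theorem emb_add (a b : Fin N →₀ ℕ) : emb N (a + b) = emb N a + emb N b := by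
  ext n
  rcases Nat.lt_or_ge n N with hn | hn
  · have h1 := emb_apply (a + b) ⟨n, hn⟩
    have h2 := emb_apply a ⟨n, hn⟩
    have h3 := emb_apply b ⟨n, hn⟩
    simp only [Finsupp.add_apply] at h1 ⊢
    rw [h1, h2, h3]
  · rw [Finsupp.add_apply, emb_apply_ge _ hn, emb_apply_ge _ hn, emb_apply_ge _ hn]

theorem emb_single (i : Fin N) (t : ℕ) :
    emb N (Finsupp.single i t) = Finsupp.single (i : ℕ) t := by
  exact Finsupp.embDomain_single Fin.valEmbedding i t

/-- the set of exponent vectors in `ℕ →₀ ℕ` -/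
noncomputable def XS (S : Finset (Fin N →₀ ℕ)) : Finset (ℕ →₀ ℕ) := S.map (emb N)

theorem mem_XS {S : Finset (Fin N →₀ ℕ)} {b : ℕ →₀ ℕ} :
    b ∈ XS S ↔ ∃ a ∈ S, emb N a = b := by
  unfold XS
  rw [Finset.mem_map]

theorem mem_XS' {S : Finset (Fin N →₀ ℕ)} {b : ℕ →₀ ℕ} :
    b ∈ XS S ↔ (∀ n, N ≤ n → b n = 0) ∧ res N b ∈ S := by
  rw [mem_XS]
  constructor
  · rintro ⟨a, ha, rfl⟩
    exact ⟨fun n hn => emb_apply_ge a hn, by rw [res_emb]; exact ha⟩
  · rintro ⟨h1, h2⟩
    exact ⟨res N b, h2, emb_res h1⟩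

theorem card_XS (S : Finset (Fin N →₀ ℕ)) : (XS S).card = S.card := by
  unfold XS
  exact Finset.card_map _

theorem good_XS {I : Ideal (Poly N)} (hB : BorelExch I) {S : Finset (Fin N →₀ ℕ)}
    (hS : (S : Set (Fin N →₀ ℕ)) = std I) (m : ℕ) (hN : 0 < N)
    (hm : ∀ a ∈ S, a ⟨0, hN⟩ < m) : Good m N (XS S) where
  supp := by
    intro b hb n hn
    exact (mem_XS'.mp hb).1 n hn
  down := by
    intro a b hab hb
    rw [mem_XS'] at hb ⊢
    refine ⟨?_, ?_⟩
    · intro n hn
      have h1 := hab n
      rw [hb.1 n hn] at h1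
      exact Nat.le_zero.mp h1
    · have h1 : res N a ≤ res N b := by
        intro i
        rw [res_apply, res_apply]
        exact hab _
      have h2 : res N b ∈ std I := by rw [← hS]; exact_mod_cast hb.2
      have h3 := std_down I h1 h2
      rw [← hS] at h3
      exact_mod_cast h3
  borel := by
    intro a i j hij hj ha
    rw [mem_XS'] at ha ⊢
    have hi : i < N := by omega
    have hsupp : ∀ n, N ≤ n → a n = 0 := by
      intro n hn
      have := ha.1 n hn
      rw [Finsupp.add_apply] at this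
      omega
    have e1 : res N (a + Finsupp.single i 1) = res N a + Finsupp.single ⟨i, hi⟩ 1 := by
      ext k
      rw [res_apply, Finsupp.add_apply, Finsupp.add_apply, res_apply]
      congr 1
      rw [Finsupp.single_apply, Finsupp.single_apply]
      simp [Fin.ext_iff]
    have e2 : res N (a + Finsupp.single j 1) = res N a + Finsupp.single ⟨j, hj⟩ 1 := by
      ext k
      rw [res_apply, Finsupp.add_apply, Finsupp.add_apply, res_apply]
      congr 1
      rw [Finsupp.single_apply, Finsupp.single_apply]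
      simp [Fin.ext_iff]
    refine ⟨?_, ?_⟩
    · intro n hn
      rw [Finsupp.add_apply, hsupp n hn, Finsupp.single_eq_of_ne (by omega), Nat.add_zero]
    · rw [e2]
      rw [e1] at ha
      have h2 : res N a + Finsupp.single ⟨i, hi⟩ 1 ∈ std I := by
        rw [← hS]; exact_mod_cast ha.2
      have h3 : res N a + Finsupp.single ⟨j, hj⟩ 1 ∈ std I := by
        intro h4
        exact h2 (hB (res N a) ⟨i, hi⟩ ⟨j, hj⟩ (by simpa [Fin.lt_def] using hij) h4)
      rw [← hS] at h3
      exact_mod_cast h3
  bound := by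
    intro b hb
    rw [mem_XS] at hb
    obtain ⟨a, ha, rfl⟩ := hb
    have := emb_apply a ⟨0, hN⟩
    simp only at this
    rw [this]
    exact hm a ha

/-- powers of the first variable -/
theorem single_mem_std_iff {I : Ideal (Poly N)} {S : Finset (Fin N →₀ ℕ)}
    (hS : (S : Set (Fin N →₀ ℕ)) = std I) (hN : 0 < N) (t : ℕ) :
    Finsupp.single (⟨0, hN⟩ : Fin N) t ∈ std I ↔ t < mOne I := by
  have hset : {m : ℕ | ∀ i : Fin N, (i : ℕ) = 0 → (X i : Poly N) ^ m ∈ I} =
      {m : ℕ | Finsupp.single (⟨0, hN⟩ : Fin N) m ∉ std I} := by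
    ext m
    simp only [Set.mem_ofPred_eq, std, not_not]
    constructor
    · intro h
      have := h ⟨0, hN⟩ rfl
      rwa [X_pow_eq_monomial] at this
    · intro h i hi
      have : i = ⟨0, hN⟩ := Fin.ext hi
      rw [this, X_pow_eq_monomial]
      exact h
  have hne : {m : ℕ | Finsupp.single (⟨0, hN⟩ : Fin N) m ∉ std I}.Nonempty := by
    by_contra hcon
    rw [Set.not_nonempty_iff_eq_empty] at hcon
    have hall : ∀ m : ℕ, Finsupp.single (⟨0, hN⟩ : Fin N) m ∈ S := by
      intro m
      by_contra h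
      have : m ∈ ({m : ℕ | Finsupp.single (⟨0, hN⟩ : Fin N) m ∉ std I}) := by
        rw [Set.mem_ofPred_eq, ← hS]
        exact_mod_cast h
      rw [hcon] at this
      exact this
    have hinj : Function.Injective fun m : ℕ => (⟨_, hall m⟩ : S) := by
      intro m m' hmm
      have := congrArg Subtype.val hmm
      exact Finsupp.single_injective _ this
    exact absurd (Finite.of_injective _ hinj) (not_finite_iff_infinite.mpr inferInstance)
  unfold mOne
  rw [hset]
  constructor
  · intro h
    by_contra hle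
    rw [not_lt] at hle
    have h1 := Nat.sInf_mem hne
    apply h1
    apply std_down I _ h
    exact Finsupp.single_mono hle
  · intro h
    by_contra hcon
    exact absurd (Nat.sInf_le hcon) (not_le.mpr h)

theorem card_sec_one {I : Ideal (Poly N)} {S : Finset (Fin N →₀ ℕ)}
    (hS : (S : Set (Fin N →₀ ℕ)) = std I) (hN : 0 < N) :
    (sec 1 (XS S)).card = mOne I := by
  classical
  have h1 : sec 1 (XS S) = (Finset.range (mOne I)).image fun t => Finsupp.single 0 t := by
    ext b
    rw [mem_sec, mem_XS', Finset.mem_image]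
    constructor
    · rintro ⟨⟨_, h2⟩, h3⟩
      have hb : b = Finsupp.single 0 (b 0) := by
        ext n
        rcases Nat.eq_zero_or_pos n with hn | hn
        · subst hn
          simp
        · rw [h3 n hn, Finsupp.single_eq_of_ne (by omega)]
      refine ⟨b 0, ?_, hb.symm⟩
      rw [Finset.mem_range, ← single_mem_std_iff hS hN, ← hS]
      have : res N b = Finsupp.single (⟨0, hN⟩ : Fin N) (b 0) := by
        ext i
        rw [res_apply]
        by_cases hi : i = ⟨0, hN⟩
        · subst hi
          simp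
        · rw [Finsupp.single_eq_of_ne hi]
          apply h3
          have : (i : ℕ) ≠ 0 := fun h => hi (Fin.ext h)
          omega
      rw [this] at h2
      exact_mod_cast h2
    · rintro ⟨t, ht, rfl⟩
      rw [Finset.mem_range, ← single_mem_std_iff hS hN, ← hS] at ht
      refine ⟨⟨?_, ?_⟩, ?_⟩
      · intro n hn
        rw [Finsupp.single_eq_of_ne (by omega)]
      · have : res N (Finsupp.single 0 t) = Finsupp.single (⟨0, hN⟩ : Fin N) t := by
          ext i
          rw [res_apply, Finsupp.single_apply, Finsupp.single_apply]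
          simp [Fin.ext_iff]
        rw [this]
        exact_mod_cast ht
      · intro i hi
        rw [Finsupp.single_eq_of_ne (by omega)]
  rw [h1, Finset.card_image_of_injective _ (Finsupp.single_injective 0), Finset.card_range]

theorem lt_mOne {I : Ideal (Poly N)} {S : Finset (Fin N →₀ ℕ)}
    (hS : (S : Set (Fin N →₀ ℕ)) = std I) (hN : 0 < N) :
    ∀ a ∈ S, a ⟨0, hN⟩ < mOne I := by
  intro a ha
  rw [← single_mem_std_iff hS hN]
  have h1 : a ∈ std I := by rw [← hS]; exact_mod_cast ha
  apply std_down I _ h1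
  rw [Finsupp.single_le_iff]

theorem card_PP (r : ℕ) (S : Finset (Fin (r + 2) →₀ ℕ)) (j : ℕ) :
    (PP S (Fin.last (r + 1)) j).card = BB j (r + 1) (XS S) := by
  classical
  unfold BB
  apply Finset.card_bij (fun p _ => (emb (r + 2) p.1, emb (r + 2) p.2))
  · intro p hp
    rw [mem_PP] at hp
    rw [mem_bbSet, mem_XS, mem_XS]
    obtain ⟨p1, p2, p3, p4⟩ := hp
    refine ⟨⟨p.1, p1, rfl⟩, ⟨p.2, p2, rfl⟩, ?_, ?_⟩
    · have e1 := emb_apply p.1 (Fin.last (r + 1))
      have e2 := emb_apply p.2 (Fin.last (r + 1))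
      simp only [Fin.val_last] at e1 e2
      rw [e1, e2, p3]
    · intro i hi hji
      rcases Nat.lt_or_ge i (r + 2) with hlt | hge
      · have e1 := emb_apply p.1 ⟨i, hlt⟩
        simp only at e1
        rw [e1]
        apply p4
        · intro h
          apply hi
          rw [Fin.ext_iff] at h
          simpa using h
        · exact hji
      · exact emb_apply_ge _ hge
  · intro p _ q _ hpq
    simp only [Prod.mk.injEq, EmbeddingLike.apply_eq_iff_eq] at hpq
    exact Prod.ext hpq.1 hpq.2
  · intro q hq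
    rw [mem_bbSet, mem_XS, mem_XS] at hq
    obtain ⟨⟨a, ha, ha'⟩, ⟨b, hb, hb'⟩, q3, q4⟩ := hq
    refine ⟨(a, b), ?_, Prod.ext ha' hb'⟩
    rw [mem_PP]
    refine ⟨ha, hb, ?_, ?_⟩
    · have e1 := emb_apply a (Fin.last (r + 1))
      have e2 := emb_apply b (Fin.last (r + 1))
      simp only [Fin.val_last] at e1 e2
      rw [← e1, ← e2, ha', hb', q3]
    · intro i hi hji
      rw [← emb_apply a i, ha']
      apply q4
      · intro h
        apply hi
        rw [Fin.ext_iff]
        simpa using h
      · exact hji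

/-- `T(I) ≤ B(I)` in terms of Borel sets -/
theorem tangentDim_le_BT {r : ℕ} {I : Ideal (Poly (r + 2))} (h : MonomialIdeal I)
    {S : Finset (Fin (r + 2) →₀ ℕ)} (hS : (S : Set (Fin (r + 2) →₀ ℕ)) = std I) :
    tangentDim I ≤ BT r (XS S) := by
  have hy : ∀ i : Fin (r + 2), i ≠ ⟨r, by omega⟩ → i ≠ Fin.last (r + 1) → (i : ℕ) < r := by
    intro i h1 h2
    have h3 : (i : ℕ) ≠ r := fun h => h1 (Fin.ext h)
    have h4 : (i : ℕ) ≠ r + 1 := fun h => h2 (Fin.ext h)
    have := i.isLt
    omega
  have := (tangent_finite_and_le h S hS (u := ⟨r, by omega⟩) (v := Fin.last (r + 1))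
    (by
      intro h
      rw [Fin.ext_iff] at h
      simp at h) hy).2
  unfold BT
  simp only [card_PP] at this
  exact this

end Pool.Agent.MP_74475a_ag
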