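import Mathlib
import Pool.Agent.MP_74475a_ag.Bridge

/-!
Monomial ideals from down-closed sets, homomorphisms from coefficient functions.
-/

namespace Pool.Agent.MP_74475a_ag

open MvPolynomial

variable {N : ℕ}

/-- the monomial ideal whose standard monomials are `S` -/
noncomputable def idealOf (S : Set (Fin N →₀ ℕ)) (hS : ∀ a b, a ≤ b → b ∈ S → a ∈ S) :
    Ideal (Poly N) where
  carrier := {f | ∀ a ∈ S, coeff a f = 0}
  add_mem' := by
    intro f g hf hg a ha
    rw [coeff_add, hf a ha, hg a ha, add_zero]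
  zero_mem' := by
    intro a _
    exact coeff_zero a
  smul_mem' := by
    intro c f hf a ha
    rw [smul_eq_mul, coeff_mul]
    refine Finset.sum_eq_zero ?_
    intro p hp
    rw [Finset.HasAntidiagonal.mem_antidiagonal] at hp
    have : p.2 ≤ a := by
      rw [← hp]
      exact le_add_self
    rw [hf p.2 (hS _ _ this ha), mul_zero]

theorem mem_idealOf {S : Set (Fin N →₀ ℕ)} {hS : ∀ a b, a ≤ b → b ∈ S → a ∈ S} {f : Poly N} :
    f ∈ idealOf S hS ↔ ∀ a ∈ S, coeff a f = 0 := Iff.rfl

theorem std_idealOf (S : Set (Fin N →₀ ℕ)) (hS : ∀ a b, a ≤ b → b ∈ S → a ∈ S) :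
    std (idealOf S hS) = S := by
  ext a
  unfold std
  rw [Set.mem_ofPred_eq, mem_idealOf]
  constructor
  · intro h
    push Not at h
    obtain ⟨b, hb, hb'⟩ := h
    rw [coeff_monomial] at hb'
    have : a = b := by
      by_contra hne
      rw [if_neg hne] at hb'
      exact hb' rfl
    rwa [this]
  · intro ha h
    have := h a ha
    rw [coeff_monomial, if_pos rfl] at this
    exact one_ne_zero this

theorem monomialIdeal_idealOf (S : Set (Fin N →₀ ℕ)) (hS : ∀ a b, a ≤ b → b ∈ S → a ∈ S) :
    MonomialIdeal (idealOf S hS) := by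
  intro f hf a ha
  by_contra hcon
  have h1 : a ∈ std (idealOf S hS) := hcon
  rw [std_idealOf] at h1
  exact (mem_support_iff.mp ha) (hf a h1)

theorem borelExch_idealOf (S : Set (Fin N →₀ ℕ)) (hS : ∀ a b, a ≤ b → b ∈ S → a ∈ S)
    (hB : ∀ (a : Fin N →₀ ℕ) (i j : Fin N), i < j → a + Finsupp.single i 1 ∈ S →
      a + Finsupp.single j 1 ∈ S) : BorelExch (idealOf S hS) := by
  intro a i j hij h1
  by_contra hcon
  have h2 : a + Finsupp.single i 1 ∈ std (idealOf S hS) := hcon
  rw [std_idealOf] at h2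
  have h3 := hB a i j hij h2
  rw [← std_idealOf S hS] at h3
  exact h3 h1

section Hom

variable {I : Ideal (Poly N)} (h : MonomialIdeal I) (S : Finset (Fin N →₀ ℕ))
  (hS : (S : Set (Fin N →₀ ℕ)) = std I) (c : (Fin N →₀ ℕ) → (Fin N →₀ ℕ) → ℂ)

/-- the complex-linear map with prescribed matrix -/
noncomputable def linOf (I : Ideal (Poly N)) (S : Finset (Fin N →₀ ℕ))
    (c : (Fin N →₀ ℕ) → (Fin N →₀ ℕ) → ℂ) :
    Poly N →ₗ[ℂ] (Poly N ⧸ I) :=
  (basisMonomials (Fin N) ℂ).constr ℂ
    fun a => Ideal.Quotient.mk I (∑ s ∈ S, monomial s (c a s))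

theorem linOf_monomial (I : Ideal (Poly N)) (S : Finset (Fin N →₀ ℕ))
    (c : (Fin N →₀ ℕ) → (Fin N →₀ ℕ) → ℂ) (a : Fin N →₀ ℕ) :
    linOf I S c (monomial a 1) = Ideal.Quotient.mk I (∑ s ∈ S, monomial s (c a s)) := by
  unfold linOf
  have : (monomial a (1 : ℂ) : Poly N) = basisMonomials (Fin N) ℂ a := by
    rw [coe_basisMonomials]
  rw [this, Module.Basis.constr_basis]

include hS in
theorem cf_linOf (a s : Fin N →₀ ℕ) (hs : s ∈ std I) :
    cf h s hs (linOf I S c (monomial a 1)) = c a s := by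
  classical
  rw [linOf_monomial, cf_mk, coeff_sum, Finset.sum_eq_single s]
  · rw [coeff_monomial, if_pos rfl]
  · intro b _ hb
    rw [coeff_monomial, if_neg hb]
  · intro hns
    exfalso
    apply hns
    rw [← hS] at hs
    exact_mod_cast hs

include h hS in
theorem linOf_X_mul (hR : Rules (std I) c) (a : Fin N →₀ ℕ) (ha : a ∉ std I) (i : Fin N) :
    linOf I S c (X i * monomial a 1) = (X i : Poly N) • linOf I S c (monomial a 1) := by
  have e1 : (X i * monomial a (1 : ℂ) : Poly N) = monomial (a + Finsupp.single i 1) 1 := by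
    rw [X, monomial_mul, one_mul, add_comm]
  rw [e1]
  rw [← sub_eq_zero]
  apply eq_zero_of_cf h
  intro s hs
  rw [map_sub, cf_linOf h S hS]
  by_cases hi : s i = 0
  · rw [cf_X_mul_zero h s i hs hi, hR.zero a s i ha hs hi, sub_zero]
  · have hsi := sub_single_add hi
    have hs' : s - Finsupp.single i 1 ∈ std I := std_down I tsub_le_self hs
    have h2 := cf_X_mul h (s - Finsupp.single i 1) i (by rw [hsi]; exact hs) hs'
      (linOf I S c (monomial a 1))
    have h3 := hR.add a (s - Finsupp.single i 1) i ha (by rw [hsi]; exact hs)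
    rw [cf_linOf h S hS] at h2
    rw [hsi] at h3
    have h4 : cf h s hs ((X i : Poly N) • linOf I S c (monomial a 1)) =
        c a (s - Finsupp.single i 1) := by
      rw [← h2]
      congr 1
      simp only [hsi]
    rw [h3, h4, sub_self]

include h hS in
theorem linOf_X_mul' (hR : Rules (std I) c) (f : Poly N) (hf : f ∈ I) (i : Fin N) :
    linOf I S c (X i * f) = (X i : Poly N) • linOf I S c f := by
  have e : f = ∑ a ∈ f.support, (coeff a f) • monomial a (1 : ℂ) := by
    conv_lhs => rw [f.as_sum]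
    refine Finset.sum_congr rfl ?_
    intro a _
    rw [smul_monomial]
    simp
  rw [e, Finset.mul_sum, map_sum, map_sum, Finset.smul_sum]
  refine Finset.sum_congr rfl ?_
  intro a ha
  rw [mul_smul_comm, map_smul, map_smul,
    linOf_X_mul h S hS c hR a ((mem_iff_support h f).mp hf a ha) i, smul_comm]

/-- the homomorphism with prescribed matrix -/
noncomputable def homOf (hR : Rules (std I) c) : I →ₗ[Poly N] (Poly N ⧸ I) where
  toFun := fun f => linOf I S c f.1
  map_add' := by
    intro f g
    exact map_add _ _ _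
  map_smul' := by
    intro p f
    simp only [RingHom.id_apply, SetLike.val_smul, smul_eq_mul]
    induction p using MvPolynomial.induction_on generalizing f with
    | C a =>
      rw [← smul_eq_C_mul, map_smul]
      show a • _ = (C a : Poly N) • _
      rw [← algebraMap_eq, algebraMap_smul]
    | add p q hp hq =>
      rw [add_mul, map_add, hp, hq, add_smul]
    | mul_X p i hp =>
      have hfi : X i * f.1 ∈ I := Ideal.mul_mem_left _ _ f.2
      have := hp ⟨X i * f.1, hfi⟩
      simp only at this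
      rw [mul_assoc, this, linOf_X_mul' h S hS c hR f.1 f.2 i, smul_smul]

theorem mc_homOf (hR : Rules (std I) c) (g s : Fin N →₀ ℕ) (hg : g ∉ std I)
    (hs : s ∈ std I) : mc h (homOf h S hS c hR) g s hg hs = c g s := by
  unfold mc homOf
  exact cf_linOf h S hS c g s hs

end Hom

/-- lower bound for the tangent dimension -/
theorem le_tangentDim {I : Ideal (Poly N)} (h : MonomialIdeal I)
    (S : Finset (Fin N →₀ ℕ)) (hS : (S : Set (Fin N →₀ ℕ)) = std I)
    (hfin : Module.Finite ℂ (I →ₗ[Poly N] (Poly N ⧸ I)))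
    {ι : Type} [Fintype ι] [DecidableEq ι] (c : ι → (Fin N →₀ ℕ) → (Fin N →₀ ℕ) → ℂ)
    (hR : ∀ i, Rules (std I) (c i)) (g s : ι → (Fin N →₀ ℕ))
    (hg : ∀ i, g i ∉ std I) (hs : ∀ i, s i ∈ std I)
    (hδ : ∀ i j, c i (g j) (s j) = if i = j then 1 else 0) :
    Fintype.card ι ≤ tangentDim I := by
  have hli : LinearIndependent ℂ (fun i => homOf h S hS (c i) (hR i)) := by
    rw [Fintype.linearIndependent_iff]
    intro a ha j
    have h1 := congrArg (mcT h (g j) (s j)) ha
    rw [map_sum, map_zero] at h1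
    rw [Finset.sum_eq_single j] at h1
    · rw [map_smul, mcT_eq h (hg j) (hs j), mc_homOf, hδ, if_pos rfl] at h1
      simpa using h1
    · intro i _ hij
      rw [map_smul, mcT_eq h (hg j) (hs j), mc_homOf, hδ, if_neg hij, smul_zero]
    · intro hj
      exact absurd (Finset.mem_univ j) hj
  exact hli.fintype_card_le_finrank

end Pool.Agent.MP_74475a_ag
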