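import Mathlib
import Pool.Agent.MP_74475a_ag.Bridge

/-!
The extremal Borel sets and their cardinalities.
-/

namespace Pool.Agent.MP_74475a_ag

open Finset

/-- monomials of degree `< k` in `r` variables with exponent of the first `< m` -/
noncomputable def FN (m r k : ℕ) : Finset (ℕ →₀ ℕ) :=
  ((Finset.range r).finsupp fun _ => Finset.range k).filter fun a => a.degree < k ∧ a 0 < m

theorem mem_FN {m r k : ℕ} {a : ℕ →₀ ℕ} :
    a ∈ FN m r k ↔ (∀ i, r ≤ i → a i = 0) ∧ a.degree < k ∧ a 0 < m := by
  unfold FN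
  rw [Finset.mem_filter, Finset.mem_finsupp_iff]
  constructor
  · rintro ⟨⟨h1, _⟩, h3⟩
    refine ⟨?_, h3⟩
    intro i hi
    by_contra hne
    have := h1 (Finsupp.mem_support_iff.mpr hne)
    rw [Finset.mem_range] at this
    omega
  · rintro ⟨h1, h2, h3⟩
    refine ⟨⟨?_, ?_⟩, h2, h3⟩
    · intro i hi
      rw [Finset.mem_range]
      by_contra hge
      exact (Finsupp.mem_support_iff.mp hi) (h1 i (by omega))
    · intro i _
      rw [Finset.mem_range]
      have := Finsupp.le_degree i a
      omega

theorem good_FN {m r k : ℕ} : Good m r (FN m r k) where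
  supp := by
    intro a ha
    exact (mem_FN.mp ha).1
  down := by
    intro a b hab hb
    rw [mem_FN] at hb ⊢
    refine ⟨?_, ?_, ?_⟩
    · intro i hi
      have := hab i
      rw [hb.1 i hi] at this
      exact Nat.le_zero.mp this
    · exact lt_of_le_of_lt (Finsupp.degree_mono hab) hb.2.1
    · exact lt_of_le_of_lt (hab 0) hb.2.2
  borel := by
    intro a i j hij hj ha
    rw [mem_FN] at ha ⊢
    obtain ⟨h1, h2, h3⟩ := ha
    refine ⟨?_, ?_, ?_⟩
    · intro n hn
      have := h1 n hn
      rw [Finsupp.add_apply] at this ⊢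
      rw [Finsupp.single_eq_of_ne (by omega)]
      omega
    · rw [map_add, Finsupp.degree_single] at h2 ⊢
      exact h2
    · rw [Finsupp.add_apply] at h3 ⊢
      rw [Finsupp.single_eq_of_ne (by omega)]
      omega
  bound := by
    intro a ha
    exact (mem_FN.mp ha).2.2

theorem sec_FN {m r k : ℕ} : sec r (FN m (r + 1) k) = FN m r k := by
  ext a
  rw [mem_sec, mem_FN, mem_FN]
  constructor
  · rintro ⟨⟨_, h2⟩, h3⟩
    exact ⟨h3, h2⟩
  · rintro ⟨h1, h2⟩
    exact ⟨⟨fun i hi => h1 i (by omega), h2⟩, h1⟩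

theorem col_FN {m r k : ℕ} (hr : 1 ≤ r) : col r (FN m (r + 1) (k + 1)) = FN m (r + 1) k := by
  ext a
  rw [mem_col, mem_FN, mem_FN]
  have e1 : (a + Finsupp.single r 1).degree = a.degree + 1 := by
    rw [map_add, Finsupp.degree_single]
  have e2 : (a + Finsupp.single r 1 : ℕ →₀ ℕ) 0 = a 0 := by
    rw [Finsupp.add_apply, Finsupp.single_eq_of_ne (by omega), add_zero]
  rw [e1, e2]
  constructor
  · rintro ⟨h1, h2, h3⟩
    refine ⟨?_, by omega, h3⟩
    intro i hi
    have := h1 i hi
    rw [Finsupp.add_apply] at this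
    omega
  · rintro ⟨h1, h2, h3⟩
    refine ⟨?_, by omega, h3⟩
    intro i hi
    rw [Finsupp.add_apply, h1 i hi, Finsupp.single_eq_of_ne (by omega), Nat.add_zero]

theorem FN_zero {m r : ℕ} : FN m r 0 = ∅ := by
  ext a
  rw [mem_FN]
  simp

theorem card_FN_one {m k : ℕ} : (FN m 1 k).card = nn m 1 k := by
  have : FN m 1 k = (Finset.range (min m k)).image fun t => Finsupp.single 0 t := by
    ext a
    rw [mem_FN, Finset.mem_image]
    constructor
    · rintro ⟨h1, h2, h3⟩
      have ha : a = Finsupp.single 0 (a 0) := by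
        ext n
        rcases Nat.eq_zero_or_pos n with hn | hn
        · subst hn
          simp
        · rw [h1 n hn, Finsupp.single_eq_of_ne (by omega)]
      refine ⟨a 0, ?_, ha.symm⟩
      rw [Finset.mem_range]
      have : a.degree = a 0 := by
        conv_lhs => rw [ha]
        rw [Finsupp.degree_single]
      omega
    · rintro ⟨t, ht, rfl⟩
      rw [Finset.mem_range] at ht
      refine ⟨?_, ?_, ?_⟩
      · intro i hi
        rw [Finsupp.single_eq_of_ne (by omega)]
      · rw [Finsupp.degree_single]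
        omega
      · simp
        omega
  rw [this, Finset.card_image_of_injective _ (Finsupp.single_injective 0), Finset.card_range,
    nn_one_min]

theorem card_FN {m : ℕ} (r : ℕ) : ∀ k, (FN m (r + 1) k).card = nn m (r + 1) k := by
  induction r with
  | zero => intro k; exact card_FN_one
  | succ r ih =>
    intro k
    induction k with
    | zero => rw [FN_zero, nn_zero']; rfl
    | succ k ihk =>
      have h1 := card_eq_sec_add_col (good_FN (m := m) (r := r + 1 + 1) (k := k + 1))
      rw [sec_FN, col_FN (by omega), ih, ihk] at h1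
      have h2 := nn_succ m (r + 1) k
      rw [h1, h2]
      omega

/-- the same sets inside `Fin N →₀ ℕ` -/
noncomputable def FF (N m k : ℕ) : Finset (Fin N →₀ ℕ) :=
  (FN m N k).image (res N)

theorem degree_emb {N : ℕ} (a : Fin N →₀ ℕ) : (emb N a).degree = a.degree := by
  induction a using Finsupp.induction_linear with
  | zero =>
    have : emb N 0 = 0 := by
      ext n
      rcases Nat.lt_or_ge n N with hn | hn
      · have := emb_apply (0 : Fin N →₀ ℕ) ⟨n, hn⟩
        simpa using this
      · rw [emb_apply_ge _ hn]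
        rfl
    rw [this, map_zero, map_zero]
  | add f g hf hg => rw [emb_add, map_add, map_add, hf, hg]
  | single i t => rw [emb_single, Finsupp.degree_single, Finsupp.degree_single]

theorem mem_FF {N m k : ℕ} (hN : 0 < N) {a : Fin N →₀ ℕ} :
    a ∈ FF N m k ↔ a.degree < k ∧ a ⟨0, hN⟩ < m := by
  unfold FF
  rw [Finset.mem_image]
  have e0 := emb_apply a ⟨0, hN⟩
  simp only at e0
  constructor
  · rintro ⟨b, hb, rfl⟩
    rw [mem_FN] at hb
    have hb' := emb_res hb.1
    rw [← degree_emb, hb', res_apply]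
    exact hb.2
  · rintro ⟨h1, h2⟩
    refine ⟨emb N a, ?_, res_emb a⟩
    rw [mem_FN, degree_emb, e0]
    exact ⟨fun i hi => emb_apply_ge a hi, h1, h2⟩

theorem card_FF {r m k : ℕ} : (FF (r + 1) m k).card = nn m (r + 1) k := by
  rw [← card_FN]
  unfold FF
  apply Finset.card_image_of_injOn
  intro a ha b hb hab
  have ha' : a ∈ FN m (r + 1) k := ha
  have hb' : b ∈ FN m (r + 1) k := hb
  rw [mem_FN] at ha' hb'
  rw [← emb_res ha'.1, ← emb_res hb'.1]
  exact congrArg _ hab

end Pool.Agent.MP_74475a_ag
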