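import Mathlib
import Pool.Agent.MP_74475a_ag.FSets
import Pool.Agent.MP_74475a_ag.Construct

/-!
Lower bounds for the tangent dimension of the extremal ideals.
-/

namespace Pool.Agent.MP_74475a_ag

open MvPolynomial

section rules
variable {N : ℕ} {S : Set (Fin N →₀ ℕ)}

open Classical in
theorem rules_indicator {g0 s0 : Fin N →₀ ℕ} (hg0 : ∀ g i, g + Finsupp.single i 1 = g0 → g ∈ S)
    (hs0 : ∀ i, s0 + Finsupp.single i 1 ∉ S) :
    Rules S (fun g s => if g = g0 ∧ s = s0 then 1 else 0) where
  add := by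
    intro g s i hg hs
    rw [if_neg, if_neg]
    · rintro ⟨_, rfl⟩
      exact hs0 i hs
    · rintro ⟨h1, _⟩
      exact hg (hg0 g i h1)
  zero := by
    intro g s i hg _ _
    rw [if_neg]
    rintro ⟨h1, _⟩
    exact hg (hg0 g i h1)

open Classical in
theorem rules_mult {i0 : Fin N} {m : ℕ} (hm : 1 ≤ m) {z : Fin N →₀ ℕ}
    (hz : ∀ w : Fin N →₀ ℕ, w i0 = 0 → Finsupp.single i0 (m - 1) + w ∉ S → z + w ∉ S) :
    Rules S (fun g s => if ∃ w, g = Finsupp.single i0 m + w ∧ s = z + w then 1 else 0) := by
  have key : ∀ (g w : Fin N →₀ ℕ) (i : Fin N), g ∉ S →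
      g + Finsupp.single i 1 = Finsupp.single i0 m + w → w i = 0 → z + w ∉ S := by
    intro g w i hg h1 hw
    have hi : i = i0 := by
      by_contra hne
      have h2 := DFunLike.congr_fun h1 i
      rw [Finsupp.add_apply, Finsupp.add_apply, Finsupp.single_eq_same,
        Finsupp.single_eq_of_ne hne, hw] at h2
      omega
    subst hi
    apply hz w hw
    have : g = Finsupp.single i (m - 1) + w := by
      have h3 : Finsupp.single i m = (Finsupp.single i (m - 1) + Finsupp.single i 1 : Fin N →₀ ℕ) := by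
        rw [← Finsupp.single_add]
        congr 1
        omega
      rw [h3, add_assoc, add_comm (Finsupp.single i 1) w, ← add_assoc] at h1
      exact add_right_cancel h1
    rw [← this]
    exact hg
  constructor
  · intro g s i hg hs
    congr 1
    apply propext
    constructor
    · rintro ⟨w, h1, h2⟩
      by_cases hw : w i = 0
      · exfalso
        apply key g w i hg h1 hw
        rw [← h2]
        exact hs
      · refine ⟨w - Finsupp.single i 1, ?_, ?_⟩
        · rw [← sub_single_add hw, ← add_assoc] at h1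
          exact add_right_cancel h1
        · rw [← sub_single_add hw, ← add_assoc] at h2
          exact add_right_cancel h2
    · rintro ⟨w, rfl, rfl⟩
      exact ⟨w + Finsupp.single i 1, by rw [add_assoc], by rw [add_assoc]⟩
  · intro g s i hg hs hi
    rw [if_neg]
    rintro ⟨w, h1, h2⟩
    have hw : w i = 0 := by
      have := DFunLike.congr_fun h2 i
      rw [Finsupp.add_apply] at this
      omega
    apply key g w i hg h1 hw
    rw [← h2]
    exact hs

end rules

section main
variable (r m k ρ : ℕ)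

open Classical in
/-- the extremal set with a tail in the direction of the last variable -/
noncomputable def SS : Finset (Fin (r + 2) →₀ ℕ) :=
  FF (r + 2) m k ∪ (Finset.range ρ).image fun c => Finsupp.single (Fin.last (r + 1)) (k + c)

variable {r m k ρ}

theorem mem_SS {a : Fin (r + 2) →₀ ℕ} :
    a ∈ SS r m k ρ ↔ (a.degree < k ∧ a ⟨0, by omega⟩ < m) ∨
      ∃ c < ρ, a = Finsupp.single (Fin.last (r + 1)) (k + c) := by
  classical
  unfold SS
  rw [Finset.mem_union, mem_FF (by omega), Finset.mem_image]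
  constructor
  · rintro (h | ⟨c, hc, rfl⟩)
    · exact Or.inl h
    · exact Or.inr ⟨c, Finset.mem_range.mp hc, rfl⟩
  · rintro (h | ⟨c, hc, rfl⟩)
    · exact Or.inl h
    · exact Or.inr ⟨c, Finset.mem_range.mpr hc, rfl⟩

theorem last_ne_zero : (Fin.last (r + 1)) ≠ (⟨0, by omega⟩ : Fin (r + 2)) := by
  intro h
  rw [Fin.ext_iff] at h
  simp at h

/-- being a power of the last variable -/
def Pw (a : Fin (r + 2) →₀ ℕ) : Prop := ∀ i, i ≠ Fin.last (r + 1) → a i = 0

theorem Pw.eq {a : Fin (r + 2) →₀ ℕ} (h : Pw a) :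
    a = Finsupp.single (Fin.last (r + 1)) a.degree := by
  have h1 : a = Finsupp.single (Fin.last (r + 1)) (a (Fin.last (r + 1))) := by
    ext i
    by_cases hi : i = Fin.last (r + 1)
    · subst hi
      simp
    · rw [h i hi, Finsupp.single_eq_of_ne hi]
  have h2 : a.degree = a (Fin.last (r + 1)) := by
    conv_lhs => rw [h1]
    rw [Finsupp.degree_single]
  rw [h2]
  exact h1

theorem Pw_single (t : ℕ) : Pw (Finsupp.single (Fin.last (r + 1)) t) := by
  intro i hi
  rw [Finsupp.single_eq_of_ne hi]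

theorem Pw_add {a b : Fin (r + 2) →₀ ℕ} (h : Pw (a + b)) : Pw a ∧ Pw b := by
  constructor
  · intro i hi
    have := h i hi
    rw [Finsupp.add_apply] at this
    omega
  · intro i hi
    have := h i hi
    rw [Finsupp.add_apply] at this
    omega

theorem down_SS (hm : 1 ≤ m) (a b : Fin (r + 2) →₀ ℕ) (hab : a ≤ b)
    (hb : b ∈ (SS r m k ρ : Set (Fin (r + 2) →₀ ℕ))) :
    a ∈ (SS r m k ρ : Set (Fin (r + 2) →₀ ℕ)) := by
  rw [Finset.mem_coe, mem_SS] at hb ⊢
  rcases hb with ⟨h1, h2⟩ | ⟨c, hc, rfl⟩
  · left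
    exact ⟨lt_of_le_of_lt (Finsupp.degree_mono hab) h1, lt_of_le_of_lt (hab _) h2⟩
  · have hPw : Pw a := by
      intro i hi
      have := hab i
      rw [Finsupp.single_eq_of_ne hi] at this
      exact Nat.le_zero.mp this
    have hdeg := Finsupp.degree_mono hab
    rw [Finsupp.degree_single] at hdeg
    rcases Nat.lt_or_ge a.degree k with h | h
    · left
      refine ⟨h, ?_⟩
      rw [hPw _ (Ne.symm last_ne_zero)]
      omega
    · right
      refine ⟨a.degree - k, by omega, ?_⟩
      conv_lhs => rw [hPw.eq]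
      congr 1
      omega

theorem borel_SS (a : Fin (r + 2) →₀ ℕ) (i j : Fin (r + 2)) (hij : i < j)
    (h : a + Finsupp.single i 1 ∈ (SS r m k ρ : Set (Fin (r + 2) →₀ ℕ))) :
    a + Finsupp.single j 1 ∈ (SS r m k ρ : Set (Fin (r + 2) →₀ ℕ)) := by
  rw [Finset.mem_coe, mem_SS] at h ⊢
  rcases h with ⟨h1, h2⟩ | ⟨c, hc, h2⟩
  · left
    rw [map_add, Finsupp.degree_single] at h1 ⊢
    refine ⟨h1, ?_⟩
    rw [Finsupp.add_apply] at h2 ⊢
    have : (⟨0, by omega⟩ : Fin (r + 2)) ≠ j := by
      intro h
      rw [← h, Fin.lt_def] at hij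
      simp at hij
    rw [Finsupp.single_eq_of_ne this]
    omega
  · exfalso
    have h3 := DFunLike.congr_fun h2 i
    have h4 : i ≠ Fin.last (r + 1) := ne_of_lt (lt_of_lt_of_le hij (Fin.le_last j))
    rw [Finsupp.add_apply, Finsupp.single_eq_same, Finsupp.single_eq_of_ne h4] at h3
    omega

theorem card_SS : (SS r m k ρ).card = nn m (r + 2) k + ρ := by
  classical
  unfold SS
  rw [Finset.card_union_of_disjoint, card_FF, Finset.card_image_of_injective, Finset.card_range]
  · intro c c' h
    have := Finsupp.single_injective _ h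
    omega
  · rw [Finset.disjoint_left]
    intro a ha ha'
    rw [mem_FF (by omega)] at ha
    rw [Finset.mem_image] at ha'
    obtain ⟨c, _, rfl⟩ := ha'
    rw [Finsupp.degree_single] at ha
    omega

open Classical in
/-- the shift of powers of the last variable -/
noncomputable def sh (ρ : ℕ) (a : Fin (r + 2) →₀ ℕ) : Fin (r + 2) →₀ ℕ :=
  if Pw a then a + Finsupp.single (Fin.last (r + 1)) ρ else a

theorem sh_pw {a : Fin (r + 2) →₀ ℕ} (h : Pw a) :
    sh ρ a = Finsupp.single (Fin.last (r + 1)) (a.degree + ρ) := by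
  unfold sh
  rw [if_pos h, Finsupp.single_add]
  congr 1
  exact h.eq

theorem sh_not {a : Fin (r + 2) →₀ ℕ} (h : ¬ Pw a) : sh ρ a = a := by
  unfold sh
  rw [if_neg h]

theorem sh_inj : Function.Injective (sh (r := r) ρ) := by
  intro a b hab
  by_cases ha : Pw a
  · by_cases hb : Pw b
    · rw [sh_pw ha, sh_pw hb] at hab
      have := Finsupp.single_injective _ hab
      rw [ha.eq, hb.eq]
      congr 1
      omega
    · rw [sh_pw ha, sh_not hb] at hab
      exact absurd (hab ▸ Pw_single _) hb
  · by_cases hb : Pw b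
    · rw [sh_pw hb, sh_not ha] at hab
      exact absurd (hab ▸ Pw_single _) ha
    · rw [sh_not ha, sh_not hb] at hab
      exact hab

theorem sh_zero (a : Fin (r + 2) →₀ ℕ) : sh ρ a ⟨0, by omega⟩ = a ⟨0, by omega⟩ := by
  by_cases ha : Pw a
  · rw [sh_pw ha, Finsupp.single_eq_of_ne (Ne.symm last_ne_zero), ha _ (Ne.symm last_ne_zero)]
  · rw [sh_not ha]

theorem sh_mem (hm : 1 ≤ m) {a : Fin (r + 2) →₀ ℕ} (ha : a ∈ FF (r + 2) m k) :
    sh ρ a ∈ SS r m k ρ := by
  rw [mem_FF (by omega)] at ha
  rw [mem_SS]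
  by_cases hp : Pw a
  · rw [sh_pw hp]
    rcases Nat.lt_or_ge (a.degree + ρ) k with h | h
    · left
      rw [Finsupp.degree_single, Finsupp.single_eq_of_ne (Ne.symm last_ne_zero)]
      exact ⟨h, by omega⟩
    · right
      exact ⟨a.degree + ρ - k, by omega, by congr 1; omega⟩
  · left
    rw [sh_not hp]
    exact ha

/-- monomials of degree exactly `d` -/
noncomputable def EE (r m d : ℕ) : Finset (Fin (r + 2) →₀ ℕ) :=
  FF (r + 2) m (d + 1) \ FF (r + 2) m d

theorem mem_EE {d : ℕ} {a : Fin (r + 2) →₀ ℕ} :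
    a ∈ EE r m d ↔ a.degree = d ∧ a ⟨0, by omega⟩ < m := by
  unfold EE
  rw [Finset.mem_sdiff, mem_FF (by omega), mem_FF (by omega)]
  constructor
  · rintro ⟨⟨h1, h2⟩, h3⟩
    refine ⟨?_, h2⟩
    by_contra hne
    exact h3 ⟨by omega, h2⟩
  · rintro ⟨h1, h2⟩
    exact ⟨⟨by omega, h2⟩, fun h => by omega⟩

theorem FF_mono {N k k' : ℕ} (hN : 0 < N) (h : k ≤ k') : FF N m k ⊆ FF N m k' := by
  intro a ha
  rw [mem_FF hN] at ha ⊢
  exact ⟨by omega, ha.2⟩

theorem card_EE {d : ℕ} : (EE r m d).card = nn m (r + 1) (d + 1) := by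
  unfold EE
  rw [Finset.card_sdiff_of_subset (FF_mono (by omega) (by omega)), card_FF, card_FF]
  have := nn_succ m (r + 1) d
  change nn m (r + 2) (d + 1) = nn m (r + 2) d + nn m (r + 1) (d + 1) at this
  change nn m (r + 2) (d + 1) - nn m (r + 2) d = _
  omega

theorem sh_gen_notMem {a : Fin (r + 2) →₀ ℕ} (ha : a ∈ EE r m k) : sh ρ a ∉ SS r m k ρ := by
  rw [mem_EE] at ha
  rw [mem_SS]
  by_cases hp : Pw a
  · rw [sh_pw hp, ha.1, Finsupp.degree_single]
    rintro (⟨h1, _⟩ | ⟨c, hc, h⟩)
    · omega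
    · have := Finsupp.single_injective _ h
      omega
  · rw [sh_not hp]
    rintro (⟨h1, _⟩ | ⟨c, hc, h⟩)
    · omega
    · exact hp (h ▸ Pw_single _)

theorem sh_gen_min {a : Fin (r + 2) →₀ ℕ} (ha : a ∈ EE r m k)
    (g : Fin (r + 2) →₀ ℕ) (i : Fin (r + 2))
    (hg : g + Finsupp.single i 1 = sh ρ a) : g ∈ SS r m k ρ := by
  rw [mem_EE] at ha
  have h0 := DFunLike.congr_fun hg ⟨0, by omega⟩
  rw [Finsupp.add_apply, sh_zero] at h0
  have hd := congrArg Finsupp.degree hg
  rw [map_add, Finsupp.degree_single] at hd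
  rw [mem_SS]
  by_cases hp : Pw a
  · rw [sh_pw hp] at hg hd
    rw [Finsupp.degree_single] at hd
    have hPg : Pw g := (Pw_add (hg ▸ Pw_single _)).1
    rcases Nat.eq_zero_or_pos ρ with hρ | hρ
    · left
      exact ⟨by omega, by omega⟩
    · right
      refine ⟨ρ - 1, by omega, ?_⟩
      rw [hPg.eq]
      congr 1
      omega
  · rw [sh_not hp] at hd
    left
    exact ⟨by omega, by omega⟩

theorem sh_soc {b : Fin (r + 2) →₀ ℕ} (hb : b ∈ EE r m (k - 1)) (hk : 1 ≤ k)
    (i : Fin (r + 2)) : sh ρ b + Finsupp.single i 1 ∉ SS r m k ρ := by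
  rw [mem_EE] at hb
  rw [mem_SS]
  by_cases hp : Pw b
  · rw [sh_pw hp]
    rintro (⟨h1, _⟩ | ⟨c, hc, h⟩)
    · rw [map_add, Finsupp.degree_single, Finsupp.degree_single] at h1
      omega
    · have := congrArg Finsupp.degree h
      rw [map_add, Finsupp.degree_single, Finsupp.degree_single, Finsupp.degree_single] at this
      omega
  · rw [sh_not hp]
    rintro (⟨h1, _⟩ | ⟨c, hc, h⟩)
    · rw [map_add, Finsupp.degree_single] at h1
      omega
    · exact hp (Pw_add (h ▸ Pw_single _)).1

theorem sh_mult (hm : 1 ≤ m) {z : Fin (r + 2) →₀ ℕ}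
    (hz : m - 1 ≤ z.degree) (w : Fin (r + 2) →₀ ℕ) (hw : w ⟨0, by omega⟩ = 0)
    (hg : Finsupp.single ⟨0, by omega⟩ (m - 1) + w ∉ SS r m k ρ) :
    sh ρ z + w ∉ SS r m k ρ := by
  rw [mem_SS] at hg ⊢
  rw [not_or] at hg
  have h1 : k ≤ m - 1 + w.degree := by
    by_contra hlt
    apply hg.1
    rw [map_add, Finsupp.degree_single, Finsupp.add_apply, Finsupp.single_eq_same, hw]
    exact ⟨by omega, by omega⟩
  by_cases hp : Pw z
  · rw [sh_pw hp]
    rintro (⟨h2, _⟩ | ⟨c, hc, h⟩)
    · rw [map_add, Finsupp.degree_single] at h2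
      omega
    · have := congrArg Finsupp.degree h
      rw [map_add, Finsupp.degree_single, Finsupp.degree_single] at this
      omega
  · rw [sh_not hp]
    rintro (⟨h2, _⟩ | ⟨c, hc, h⟩)
    · rw [map_add] at h2
      omega
    · exact hp (Pw_add (h ▸ Pw_single _)).1

theorem m_notMem (hm : 1 ≤ m) :
    Finsupp.single (⟨0, by omega⟩ : Fin (r + 2)) m ∉ SS r m k ρ := by
  rw [mem_SS]
  rintro (⟨_, h2⟩ | ⟨c, hc, h⟩)
  · rw [Finsupp.single_eq_same] at h2
    omega
  · have := DFunLike.congr_fun h ⟨0, by omega⟩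
    rw [Finsupp.single_eq_same, Finsupp.single_eq_of_ne (Ne.symm last_ne_zero)] at this
    omega

open Classical in
/-- existence of an ideal with large tangent dimension -/
theorem exists_ideal (hm : 1 ≤ m) (hk : m ≤ k) :
    ∃ I : Ideal (Poly (r + 2)), BorelFixed I ∧ HasColength I (nn m (r + 2) k + ρ) ∧
      mOne I = m ∧ bst m r k ≤ tangentDim I := by
  set S := SS r m k ρ with hSdef
  set I := idealOf (S : Set (Fin (r + 2) →₀ ℕ)) (down_SS hm) with hI
  have hmon : MonomialIdeal I := monomialIdeal_idealOf _ _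
  have hB : BorelExch I := borelExch_idealOf _ _ borel_SS
  have hS : (S : Set (Fin (r + 2) →₀ ℕ)) = std I := (std_idealOf _ _).symm
  have hmem : ∀ a, a ∈ std I ↔ a ∈ S := by
    intro a
    rw [← hS]
    exact Finset.mem_coe
  refine ⟨I, borelFixed_of_comb hmon hB, (hasColength_iff hmon _).mpr ⟨S, hS, card_SS⟩, ?_, ?_⟩
  · -- `mOne`
    have h1 : ∀ t, t < mOne I ↔ t < m := by
      intro t
      rw [← single_mem_std_iff hS (by omega : 0 < r + 2) t, hmem, hSdef, mem_SS]
      constructor
      · rintro (⟨_, h2⟩ | ⟨c, hc, h⟩)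
        · rwa [Finsupp.single_eq_same] at h2
        · have := congrArg Finsupp.degree h
          rw [Finsupp.degree_single, Finsupp.degree_single] at this
          have h3 := DFunLike.congr_fun h ⟨0, by omega⟩
          rw [Finsupp.single_eq_same, Finsupp.single_eq_of_ne (Ne.symm last_ne_zero)] at h3
          omega
      · intro ht
        left
        rw [Finsupp.degree_single, Finsupp.single_eq_same]
        exact ⟨by omega, ht⟩
    have h2 := h1 (mOne I)
    have h3 := h1 m
    omega
  · -- tangent dimension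
    have hfin : Module.Finite ℂ (I →ₗ[Poly (r + 2)] (Poly (r + 2) ⧸ I)) :=
      (tangent_finite_and_le hmon S hS (u := ⟨r, by omega⟩) (v := Fin.last (r + 1)) (n := r)
        (by
          intro h
          rw [Fin.ext_iff] at h
          simp at h) (by
          intro i h1 h2
          have h3 : (i : ℕ) ≠ r := fun h => h1 (Fin.ext h)
          have h4 : (i : ℕ) ≠ r + 1 := fun h => h2 (Fin.ext h)
          have := i.isLt
          omega)).1
    -- index type
    let Z : Finset (Fin (r + 2) →₀ ℕ) := FF (r + 2) m k \ FF (r + 2) m (m - 1)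
    let ι : Type := (EE r m k × EE r m (k - 1)) ⊕ Z
    have hZ : ∀ z ∈ Z, m - 1 ≤ z.degree ∧ z ∈ FF (r + 2) m k := by
      intro z hz
      rw [Finset.mem_sdiff, mem_FF (by omega), mem_FF (by omega)] at hz
      refine ⟨?_, (mem_FF (by omega)).mpr hz.1⟩
      by_contra hlt
      exact hz.2 ⟨by omega, hz.1.2⟩
    let c : ι → (Fin (r + 2) →₀ ℕ) → (Fin (r + 2) →₀ ℕ) → ℂ := fun i =>
      match i with
      | Sum.inl p => fun g s => if g = sh ρ p.1.1 ∧ s = sh ρ p.2.1 then 1 else 0
      | Sum.inr z => fun g s =>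
          if ∃ w, g = Finsupp.single (⟨0, by omega⟩ : Fin (r + 2)) m + w ∧ s = sh ρ z.1 + w
          then 1 else 0
    let gg : ι → (Fin (r + 2) →₀ ℕ) := fun i =>
      match i with
      | Sum.inl p => sh ρ p.1.1
      | Sum.inr _ => Finsupp.single (⟨0, by omega⟩ : Fin (r + 2)) m
    let ss : ι → (Fin (r + 2) →₀ ℕ) := fun i =>
      match i with
      | Sum.inl p => sh ρ p.2.1
      | Sum.inr z => sh ρ z.1
    have hcard : Fintype.card ι = bst m r k := by
      have h1 : Fintype.card ι = (EE r m k).card * (EE r m (k - 1)).card + Z.card := by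
        simp [ι]
      rw [h1, card_EE, card_EE]
      have h2 : Z.card = nn m (r + 2) k - nn m (r + 2) (m - 1) := by
        rw [Finset.card_sdiff_of_subset (FF_mono (by omega) (by omega)), card_FF, card_FF]
      have h3 := bst_identity m r k
      rw [h2]
      have h4 : min k (m - 1) = m - 1 := by omega
      rw [h4] at h3
      have h5 : k - 1 + 1 = k := by omega
      rw [h5]
      have h6 := nn_mono m (r + 2) (by omega) (show m - 1 ≤ k by omega)
      have h7 : nn m (r + 1) (k + 1) * nn m (r + 1) k = nn m (r + 1) k * nn m (r + 1) (k + 1) :=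
        mul_comm _ _
      omega
    rw [← hcard]
    apply le_tangentDim hmon S hS hfin c _ gg ss
    · rintro (p | z)
      · show gg (Sum.inl p) ∉ std I
        rw [hmem]
        exact sh_gen_notMem p.1.2
      · show gg (Sum.inr z) ∉ std I
        rw [hmem]
        exact m_notMem hm
    · rintro (p | z)
      · show ss (Sum.inl p) ∈ std I
        rw [hmem]
        apply sh_mem hm
        have := mem_EE.mp p.2.2
        rw [mem_FF (by omega)]
        exact ⟨by omega, this.2⟩
      · show ss (Sum.inr z) ∈ std I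
        rw [hmem]
        exact sh_mem hm (hZ z.1 z.2).2
    · rintro (p | z) (q | z')
      · show (if sh ρ q.1.1 = sh ρ p.1.1 ∧ sh ρ q.2.1 = sh ρ p.2.1 then (1 : ℂ) else 0) =
          if (Sum.inl p : ι) = Sum.inl q then 1 else 0
        congr 1
        apply propext
        constructor
        · rintro ⟨h1, h2⟩
          have h3 := sh_inj h1
          have h4 := sh_inj h2
          rw [Sum.inl.injEq]
          exact Prod.ext (Subtype.ext h3.symm) (Subtype.ext h4.symm)
        · intro h
          rw [Sum.inl.injEq] at h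
          rw [h]
          exact ⟨rfl, rfl⟩
      · show (if Finsupp.single (⟨0, by omega⟩ : Fin (r + 2)) m = sh ρ p.1.1 ∧ _ then (1 : ℂ)
          else 0) = if (Sum.inl p : ι) = Sum.inr z' then 1 else 0
        rw [if_neg, if_neg]
        · simp
        · rintro ⟨h1, _⟩
          have h2 := DFunLike.congr_fun h1 ⟨0, by omega⟩
          rw [sh_zero, Finsupp.single_eq_same] at h2
          have := (mem_EE.mp p.1.2).2
          omega
      · show (if ∃ w, sh ρ q.1.1 = Finsupp.single (⟨0, by omega⟩ : Fin (r + 2)) m + w ∧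
          sh ρ q.2.1 = sh ρ z.1 + w then (1 : ℂ) else 0) =
          if (Sum.inr z : ι) = Sum.inl q then 1 else 0
        rw [if_neg, if_neg]
        · simp
        · rintro ⟨w, h1, _⟩
          have h2 := DFunLike.congr_fun h1 ⟨0, by omega⟩
          rw [sh_zero, Finsupp.add_apply, Finsupp.single_eq_same] at h2
          have := (mem_EE.mp q.1.2).2
          omega
      · show (if ∃ w, Finsupp.single (⟨0, by omega⟩ : Fin (r + 2)) m =
          Finsupp.single (⟨0, by omega⟩ : Fin (r + 2)) m + w ∧
          sh ρ z'.1 = sh ρ z.1 + w then (1 : ℂ) else 0) =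
          if (Sum.inr z : ι) = Sum.inr z' then 1 else 0
        congr 1
        apply propext
        constructor
        · rintro ⟨w, h1, h2⟩
          have hw : w = 0 := by
            have : Finsupp.single (⟨0, by omega⟩ : Fin (r + 2)) m + 0 =
              Finsupp.single (⟨0, by omega⟩ : Fin (r + 2)) m + w := by
              rw [add_zero]
              exact h1
            exact (add_left_cancel this).symm
          rw [hw, add_zero] at h2
          rw [Sum.inr.injEq]
          exact (Subtype.ext (sh_inj h2)).symm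
        · intro h
          rw [Sum.inr.injEq] at h
          exact ⟨0, by rw [add_zero], by rw [add_zero, h]⟩
    · rintro (p | z)
      · show Rules (std I) (c (Sum.inl p))
        apply rules_indicator
        · intro g i hg
          rw [hmem]
          exact sh_gen_min p.1.2 g i hg
        · intro i
          rw [hmem]
          exact sh_soc p.2.2 (by omega) i
      · show Rules (std I) (c (Sum.inr z))
        apply rules_mult hm
        intro w hw hg
        rw [hmem] at hg ⊢
        exact sh_mult hm (hZ z.1 z.2).1 w hw hg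

end main

end Pool.Agent.MP_74475a_ag
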