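import Mathlib
import Pool.Agent.MP_74475a_ag.Lower

/-!
The comparison of `T_max,m(l)` at the colengths of `(x_1^M) + 𝔪^k`.
-/

namespace Pool.Agent.MP_74475a_ag

open MvPolynomial

/-- upper bound at the special colengths -/
theorem upper_bound {r m k : ℕ} (hr : 1 ≤ r) (hm : 1 ≤ m) (hk : m ≤ k)
    {I : Ideal (Poly (r + 2))} (hB : BorelFixed I) (hl : HasColength I (nn m (r + 2) k))
    (h : mOne I ≤ m) : tangentDim I + (m - mOne I) ≤ bst m r k := by
  have hmon := monomialIdeal_of_borelFixed hB
  have hex := borelExch_of_borelFixed hB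
  obtain ⟨S, hS, hcard⟩ := (hasColength_iff hmon _).mp hl
  have hgood : Good m (r + 2) (XS S) := good_XS hex hS m (by omega) (by
    intro a ha
    exact lt_of_lt_of_le (lt_mOne hS (by omega) a ha) h)
  have h1 := tangentDim_le_BT hmon hS
  have h2 := BT_bound hm hr hk hgood (by rw [card_XS, hcard])
  rw [card_sec_one hS (by omega)] at h2
  omega

theorem BB_le_sq (j r : ℕ) (X : Finset (ℕ →₀ ℕ)) : BB j r X ≤ X.card * X.card := by
  classical
  unfold BB bbSet
  refine (Finset.card_filter_le _ _).trans ?_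
  rw [Finset.card_product]

theorem tangentDim_le_crude {r l : ℕ} {I : Ideal (Poly (r + 2))} (hB : BorelFixed I)
    (hl : HasColength I l) : tangentDim I ≤ (r + 2) * (l * l) := by
  have hmon := monomialIdeal_of_borelFixed hB
  obtain ⟨S, hS, hcard⟩ := (hasColength_iff hmon _).mp hl
  have h1 := tangentDim_le_BT hmon hS
  have h2 : BT r (XS S) ≤ (r + 2) * (l * l) := by
    unfold BT
    have h3 : ∑ j ∈ Finset.range (r + 1), BB j (r + 1) (XS S) ≤
        ∑ _j ∈ Finset.range (r + 1), l * l := by
      apply Finset.sum_le_sum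
      intro j _
      have := BB_le_sq j (r + 1) (XS S)
      rwa [card_XS, hcard] at this
    have h4 := BB_le_sq r (r + 1) (XS S)
    rw [card_XS, hcard] at h4
    rw [Finset.sum_const, Finset.card_range, smul_eq_mul] at h3
    have h5 : (r + 2) * (l * l) = l * l + (r + 1) * (l * l) := by ring
    omega
  exact h1.trans h2

theorem bddAbove_TSet {N : ℕ} (hN : 2 ≤ N) (m l : ℕ) : BddAbove (TSet N m l) := by
  obtain ⟨r, rfl⟩ := Nat.exists_eq_add_of_le' hN
  refine ⟨(r + 2) * (l * l), ?_⟩
  rintro t ⟨I, hB, hl, _, rfl⟩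
  exact tangentDim_le_crude hB hl

theorem isGreatest_TMax {N : ℕ} (hN : 2 ≤ N) {m l : ℕ} (h : (TSet N m l).Nonempty) :
    IsGreatest (TSet N m l) (TMax N m l) :=
  ⟨Nat.sSup_mem h (bddAbove_TSet hN m l), fun _ ht => le_csSup (bddAbove_TSet hN m l) ht⟩

theorem main {r M k : ℕ} (hr : 1 ≤ r) (hM : 1 ≤ M) (hk : M ≤ k) :
    IsGreatest (TSet (r + 2) M (nn M (r + 2) k)) (bst M r k) ∧
    ∀ m, m < M → (TSet (r + 2) m (nn M (r + 2) k)).Nonempty →
      TMax (r + 2) m (nn M (r + 2) k) < bst M r k := by
  obtain ⟨I, hB, hl, hm1, ht⟩ := exists_ideal (r := r) (ρ := 0) hM hk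
  rw [Nat.add_zero (nn M (r + 2) k)] at hl
  constructor
  · constructor
    · refine ⟨I, hB, hl, hm1, ?_⟩
      apply le_antisymm _ ht
      have := upper_bound hr hM hk hB hl hm1.le
      omega
    · rintro t ⟨J, hJ, hJl, hJm, rfl⟩
      have := upper_bound hr hM hk hJ hJl hJm.le
      omega
  · intro m hm hne
    obtain ⟨⟨J, hJ, hJl, hJm, hJt⟩, _⟩ := isGreatest_TMax (by omega) hne
    have := upper_bound hr hM hk hJ hJl (by omega)
    omega

/-- closed form -/
theorem nn_choose (m r : ℕ) : ∀ k,
    nn m (r + 1) k + (r + k - m).choose (r + 1) = (r + k).choose (r + 1) := by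
  induction r with
  | zero =>
    intro k
    rw [nn_one_min]
    simp
    omega
  | succ r ih =>
    intro k
    induction k with
    | zero =>
      rw [nn_zero', Nat.choose_eq_zero_of_lt (by omega), Nat.choose_eq_zero_of_lt (by omega)]
    | succ k ihk =>
      have h1 := ih (k + 1)
      have h2 := nn_succ m (r + 1) k
      rw [h2]
      have h3 : r + 1 + (k + 1) = (r + (k + 1)) + 1 := by ring
      have h4 : r + 1 + k = r + (k + 1) := by ring
      rw [h3, Nat.choose_succ_succ']
      rw [h4] at ihk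
      rcases Nat.lt_or_ge (r + (k + 1)) m with h | h
      · have e1 : r + (k + 1) + 1 - m = 0 := by omega
        have e2 : r + (k + 1) - m = 0 := by omega
        rw [e2] at ihk h1
        rw [e1]
        rw [Nat.choose_eq_zero_of_lt (show 0 < r + 1 by omega)] at h1
        rw [Nat.choose_eq_zero_of_lt (show 0 < r + 1 + 1 by omega)] at ihk ⊢
        omega
      · have e1 : r + (k + 1) + 1 - m = (r + (k + 1) - m) + 1 := by omega
        rw [e1, Nat.choose_succ_succ']
        omega

end Pool.Agent.MP_74475a_ag
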