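import Mathlib
import Pool.Agent.MP_74475a_ag.Main

/-!
Numerical comparison of `bst m r k` and `bst (m + 1) r k'` when `k'` is large compared to `m`.
-/

namespace Pool.Agent.MP_74475a_ag

open Finset

theorem choose_levels (j k : ℕ) : ∀ t, t ≤ k →
    ∑ a ∈ range t, (j + (k - 1 - a)).choose j + (j + (k - t)).choose (j + 1) =
      (j + k).choose (j + 1) := by
  intro t
  induction t with
  | zero => intro _; simp
  | succ t ih =>
    intro ht
    rw [sum_range_succ, ← ih (by omega)]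
    have e1 : j + (k - t) = (j + (k - 1 - t)) + 1 := by omega
    have e2 : j + (k - (t + 1)) = j + (k - 1 - t) := by omega
    rw [e1, e2, Nat.choose_succ_succ']
    ring

/-- the decomposition into levels -/
theorem nn_levels {m k : ℕ} (j : ℕ) (h : m ≤ k) :
    nn m (j + 1) k = ∑ a ∈ range m, (j + (k - 1 - a)).choose j := by
  have h1 := nn_choose m j k
  have h2 := choose_levels j k m h
  have e : j + k - m = j + (k - m) := by omega
  rw [e] at h1
  omega

/-- ratio of the section and the whole -/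
theorem nn_sec_le {m k : ℕ} (r : ℕ) (h : m ≤ k) :
    (k - m + (r + 1)) * nn m (r + 1) k ≤ (r + 1) * nn m (r + 2) k := by
  rw [nn_levels r h, nn_levels (r + 1) h, mul_sum, mul_sum]
  apply sum_le_sum
  intro a ha
  rw [mem_range] at ha
  have h1 := Nat.add_one_mul_choose_eq (r + (k - 1 - a)) r
  have e : r + 1 + (k - 1 - a) = r + (k - 1 - a) + 1 := by ring
  rw [e, mul_comm (r + 1), ← h1]
  apply Nat.mul_le_mul_right
  omega

theorem nn_sum_le {m k : ℕ} (r : ℕ) (h : m ≤ k) (t : ℕ) :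
    (k + 1 - m + (r + 1)) * nn m (r + 2) (k + t) + (r + 1) * nn m (r + 3) k ≤
      (k + 1 - m + (r + 1)) * nn m (r + 2) k + (r + 1) * nn m (r + 3) (k + t) := by
  induction t with
  | zero => exact le_rfl
  | succ t ih =>
    have h1 := nn_sec_le (m := m) (k := k + t + 1) r (by omega)
    have h2 := nn_succ m (r + 1) (k + t)
    have h3 := nn_succ m (r + 2) (k + t)
    change nn m (r + 2) (k + t + 1) = nn m (r + 2) (k + t) + nn m (r + 1) (k + t + 1) at h2
    change nn m (r + 3) (k + t + 1) = nn m (r + 3) (k + t) + nn m (r + 2) (k + t + 1) at h3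
    rw [show k + (t + 1) = k + t + 1 from rfl, h3, h2]
    rw [h2] at h1
    have h4 : (k + 1 - m + (r + 1)) * nn m (r + 1) (k + t + 1) ≤
        (k + t + 1 - m + (r + 1)) * nn m (r + 1) (k + t + 1) :=
      Nat.mul_le_mul_right _ (by omega)
    have h5 : (k + t + 1 - m + (r + 1)) * nn m (r + 1) (k + t + 1) ≤
        (r + 1) * (nn m (r + 2) (k + t) + nn m (r + 1) (k + t + 1)) := h1
    rw [mul_add, mul_add (r + 1) (nn m (r + 3) (k + t))]
    omega

/-- the number of monomials of degree `< x` in `r + 1` variables -/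
def PP1 (r x : ℕ) : ℕ := (r + x).choose (r + 1)

theorem PP1_succ (r x : ℕ) : (x : ℕ) * PP1 r (x + 1) = (x + (r + 1)) * PP1 r x := by
  unfold PP1
  have h1 := Nat.add_one_mul_choose_eq (r + x) (r + 1)
  have h2 := Nat.choose_succ_right_eq (r + x) (r + 1)
  have h3 := Nat.choose_succ_succ' (r + x) (r + 1)
  have h5 := Nat.choose_mul_succ_eq (r + x) (r + 1)
  have e : r + x + 1 - (r + 1) = x := by omega
  rw [e] at h5
  have e2 : r + (x + 1) = r + x + 1 := by ring
  rw [e2, mul_comm x, ← h5]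
  ring

theorem PP1_diff (r x : ℕ) : PP1 r (x + 1) = PP1 r x + (r + x).choose r := by
  unfold PP1
  have e2 : r + (x + 1) = r + x + 1 := by ring
  rw [e2, Nat.choose_succ_succ']
  ring

theorem PP1_mono (r : ℕ) {x y : ℕ} (h : x ≤ y) : PP1 r x ≤ PP1 r y := by
  unfold PP1
  exact Nat.choose_le_choose _ (by omega)

theorem le_PP1 (r x : ℕ) : x ≤ PP1 r x := by
  induction x with
  | zero => exact Nat.zero_le _
  | succ x ih =>
    rw [PP1_diff]
    have : 0 < (r + x).choose r := Nat.choose_pos (by omega)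
    omega

/-- growth of `PP1` over a short interval -/
theorem PP1_bern (r x j : ℕ) :
    (x + (r + 1)) * PP1 r (x + j) ≤ (x + (r + 1)) * PP1 r x + j * (r + 1) * PP1 r (x + j) := by
  induction j with
  | zero => simp
  | succ j ih =>
    have h1 := PP1_diff r (x + j)
    have h2 : (x + (r + 1)) * (r + (x + j)).choose r ≤ (r + 1) * PP1 r (x + j + 1) := by
      unfold PP1
      have h3 := Nat.add_one_mul_choose_eq (r + (x + j)) r
      have e2 : r + (x + j + 1) = r + (x + j) + 1 := by ring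
      rw [e2, mul_comm (r + 1), ← h3]
      apply Nat.mul_le_mul_right
      omega
    have h3 := PP1_mono r (show x + j ≤ x + j + 1 by omega)
    have h4 : j * (r + 1) * PP1 r (x + j) ≤ j * (r + 1) * PP1 r (x + j + 1) :=
      Nat.mul_le_mul_left _ h3
    have e : (j + 1) * (r + 1) * PP1 r (x + j + 1) =
        j * (r + 1) * PP1 r (x + j + 1) + (r + 1) * PP1 r (x + j + 1) := by ring
    rw [show x + (j + 1) = x + j + 1 from rfl, e]
    have e3 : (x + (r + 1)) * PP1 r (x + j + 1) =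
        (x + (r + 1)) * PP1 r (x + j) + (x + (r + 1)) * (r + (x + j)).choose r := by
      rw [h1]
      ring
    omega

theorem nn_succ_level {m k : ℕ} (j : ℕ) (h : m + 1 ≤ k) :
    nn (m + 1) (j + 1) k = nn m (j + 1) k + (j + (k - 1 - m)).choose j := by
  rw [nn_levels j h, nn_levels j (by omega : m ≤ k), sum_range_succ]

/-- `(r + 2) L = (x + r + 1) P` -/
theorem PP1_up (r x : ℕ) : (r + 2) * PP1 (r + 1) x = (x + (r + 1)) * PP1 r x := by
  unfold PP1
  have h3 := Nat.add_one_mul_choose_eq (r + x) (r + 1)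
  have e2 : r + 1 + x = r + x + 1 := by ring
  rw [e2, mul_comm (r + 2), ← h3]
  congr 1
  ring

/-- growth over an interval of length `m + 1` -/
theorem PP1_short {m r x : ℕ} (h2 : 24 * ((m + 1) * (r + 1)) ≤ x + (r + 1)) :
    23 * PP1 r (x + (m + 1)) ≤ 24 * PP1 r x := by
  have h1 := PP1_bern r x (m + 1)
  have h3 : 24 * ((m + 1) * (r + 1) * PP1 r (x + (m + 1))) ≤
      (x + (r + 1)) * PP1 r (x + (m + 1)) := by
    calc 24 * ((m + 1) * (r + 1) * PP1 r (x + (m + 1))) =
          24 * ((m + 1) * (r + 1)) * PP1 r (x + (m + 1)) := by ring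
      _ ≤ _ := Nat.mul_le_mul_right _ h2
  have h4 : (x + (r + 1)) * (23 * PP1 r (x + (m + 1))) ≤ (x + (r + 1)) * (24 * PP1 r x) := by
    have e1 : (x + (r + 1)) * (23 * PP1 r (x + (m + 1))) =
        23 * ((x + (r + 1)) * PP1 r (x + (m + 1))) := by ring
    have e2 : (x + (r + 1)) * (24 * PP1 r x) = 24 * ((x + (r + 1)) * PP1 r x) := by ring
    rw [e1, e2]
    omega
  exact le_of_mul_le_mul_left h4 (by omega)

/-- the levels at `k` and at `k'` are comparable -/
theorem level_ratio {m k Y r : ℕ} (hm : 1 ≤ m) (hms : 48 * (m * (r + 1)) ≤ Y)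
    (hkk : m + Y < k) (hv : nn m (r + 3) (k - 1) < nn (m + 1) (r + 3) (m + Y + 1)) :
    PP1 r (k + 1) ≤ 3 * PP1 r Y := by
  have hlow : m * PP1 (r + 1) (k - m) ≤ nn m (r + 3) (k - 1) := by
    rw [nn_levels (r + 2) (by omega : m ≤ k - 1)]
    calc m * PP1 (r + 1) (k - m) = ∑ _a ∈ range m, PP1 (r + 1) (k - m) := by
          rw [sum_const, card_range, smul_eq_mul]
      _ ≤ _ := by
          apply sum_le_sum
          intro a ha
          rw [mem_range] at ha
          unfold PP1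
          exact Nat.choose_le_choose _ (by omega)
  have hhigh : nn (m + 1) (r + 3) (m + Y + 1) ≤ (m + 1) * PP1 (r + 1) (m + Y + 1) := by
    rw [nn_levels (r + 2) (by omega : m + 1 ≤ m + Y + 1)]
    calc ∑ a ∈ range (m + 1), (r + 2 + (m + Y + 1 - 1 - a)).choose (r + 2)
        ≤ ∑ _a ∈ range (m + 1), PP1 (r + 1) (m + Y + 1) := by
          apply sum_le_sum
          intro a _
          unfold PP1
          exact Nat.choose_le_choose _ (by omega)
      _ = _ := by
          rw [sum_const, card_range, smul_eq_mul]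
  have hLL : PP1 (r + 1) (k - m) < 2 * PP1 (r + 1) (m + Y + 1) := by
    have h1 : m * PP1 (r + 1) (k - m) < m * (2 * PP1 (r + 1) (m + Y + 1)) := by
      have h2 : (m + 1) * PP1 (r + 1) (m + Y + 1) ≤ m * (2 * PP1 (r + 1) (m + Y + 1)) := by
        have e : m * (2 * PP1 (r + 1) (m + Y + 1)) = (m + m) * PP1 (r + 1) (m + Y + 1) := by ring
        rw [e]
        exact Nat.mul_le_mul_right _ (by omega)
      omega
    exact lt_of_mul_lt_mul_left h1 (Nat.zero_le _)
  have hPP : PP1 r (k - m) ≤ 2 * PP1 r (m + Y + 1) := by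
    rcases Nat.lt_or_ge (m + Y + 1) (k - m) with h1 | h1
    · have q1 := PP1_up r (k - m)
      have q2 := PP1_up r (m + Y + 1)
      have q3 : (m + Y + 1 + (r + 1)) * PP1 r (k - m) ≤ (k - m + (r + 1)) * PP1 r (k - m) :=
        Nat.mul_le_mul_right _ (by omega)
      have q4 : (r + 2) * PP1 (r + 1) (k - m) ≤ (r + 2) * (2 * PP1 (r + 1) (m + Y + 1)) :=
        Nat.mul_le_mul_left _ hLL.le
      have q5 : (m + Y + 1 + (r + 1)) * PP1 r (k - m) ≤
          (m + Y + 1 + (r + 1)) * (2 * PP1 r (m + Y + 1)) := by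
        calc (m + Y + 1 + (r + 1)) * PP1 r (k - m) ≤ (r + 2) * PP1 (r + 1) (k - m) := by
              rw [q1]; exact q3
          _ ≤ (r + 2) * (2 * PP1 (r + 1) (m + Y + 1)) := q4
          _ = 2 * ((r + 2) * PP1 (r + 1) (m + Y + 1)) := by ring
          _ = 2 * ((m + Y + 1 + (r + 1)) * PP1 r (m + Y + 1)) := by rw [q2]
          _ = _ := by ring
      exact le_of_mul_le_mul_left q5 (by omega)
    · have := PP1_mono r h1
      omega
  have hms2 : (m + 1) * (r + 1) ≤ 2 * (m * (r + 1)) := by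
    have e : 2 * (m * (r + 1)) = (m + m) * (r + 1) := by ring
    rw [e]
    exact Nat.mul_le_mul_right _ (by omega)
  have hb1 := PP1_short (m := m) (r := r) (x := k - m) (by omega)
  have hb2 := PP1_short (m := m) (r := r) (x := Y) (by omega)
  have e3 : k - m + (m + 1) = k + 1 := by omega
  have e4 : Y + (m + 1) = m + Y + 1 := by omega
  rw [e3] at hb1
  rw [e4] at hb2
  omega

/-- the final estimate -/
theorem final_est (r m Y D p p1 L A B V0 V1 : ℤ) (hr : 0 ≤ r) (hm : 1 ≤ m) (hp0 : 0 ≤ p)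
    (hY : 12 * (r + 2) ^ 2 * m ≤ Y) (hD : D = Y + 1 + (r + 1))
    (hsum : D * B + (r + 1) * V0 ≤ D * A + (r + 1) * V1) (hvol : V1 < V0 + L + 3 * B)
    (hL : (r + 2) * L = D * p1) (hP1 : Y * p1 = (Y + (r + 1)) * p) (hB : B ≤ 3 * (m * p))
    (hPY : Y ≤ p) : B + 2 ≤ A + p := by
  by_contra hcon
  rw [not_le] at hcon
  have hY0 : 0 ≤ Y := by
    have : 0 ≤ 12 * (r + 2) ^ 2 * m := by positivity
    linarith
  have hDpos : 0 < D := by rw [hD]; positivity
  have w1 : D * (B - A) < (r + 1) * (L + 3 * B) := by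
    have : (r + 1) * V1 < (r + 1) * (V0 + L + 3 * B) :=
      mul_lt_mul_of_pos_left hvol (by positivity)
    linarith
  have w2 : p - 1 ≤ B - A := by linarith
  have w3 : D * (p - 1) < (r + 1) * (L + 3 * B) :=
    lt_of_le_of_lt (mul_le_mul_of_nonneg_left w2 hDpos.le) w1
  have hYpos : 0 < Y := by
    have : 0 < 12 * (r + 2) ^ 2 * m := by positivity
    linarith
  have w4 : (r + 2) * Y * (D * (p - 1)) < (r + 2) * Y * ((r + 1) * (L + 3 * B)) :=
    mul_lt_mul_of_pos_left w3 (by positivity)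
  have w5 : (r + 2) * Y * ((r + 1) * (L + 3 * B)) =
      (r + 1) * (D * ((Y + (r + 1)) * p)) + 3 * (r + 1) * (r + 2) * Y * B := by
    have t2 : (r + 2) * Y * ((r + 1) * (L + 3 * B)) =
      (r + 1) * (Y * ((r + 2) * L)) + 3 * (r + 1) * (r + 2) * Y * B := by ring
    have t3 : Y * (D * p1) = D * (Y * p1) := by ring
    rw [t2, hL, t3, hP1]
  have w6 : 3 * (r + 1) * (r + 2) * Y * B ≤ 3 * (r + 1) * (r + 2) * Y * (3 * (m * p)) :=
    mul_le_mul_of_nonneg_left hB (by positivity)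
  have w7 : Y * (9 * (r + 1) * (r + 2) * (m * p)) ≤ D * (9 * (r + 1) * (r + 2) * (m * p)) := by
    have h1 : Y ≤ D := by rw [hD]; linarith
    exact mul_le_mul_of_nonneg_right h1 (by positivity)
  have w8 : D * ((r + 2) * Y * (p - 1)) <
      D * ((r + 1) * ((Y + (r + 1)) * p) + 9 * (r + 1) * (r + 2) * (m * p)) := by
    have t1 : D * ((r + 2) * Y * (p - 1)) = (r + 2) * Y * (D * (p - 1)) := by ring
    have t2 : 3 * (r + 1) * (r + 2) * Y * (3 * (m * p)) =
      Y * (9 * (r + 1) * (r + 2) * (m * p)) := by ring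
    rw [t1, mul_add]
    have t3 : D * ((r + 1) * ((Y + (r + 1)) * p)) = (r + 1) * (D * ((Y + (r + 1)) * p)) := by ring
    rw [t3]
    linarith
  have w9 := lt_of_mul_lt_mul_left w8 hDpos.le
  have w10 : p * (Y - (r + 1) ^ 2 - 9 * (r + 1) * (r + 2) * m) < (r + 2) * Y := by
    linarith
  have w11 : 2 * (r + 2) ≤ Y - (r + 1) ^ 2 - 9 * (r + 1) * (r + 2) * m := by
    have h2 : 0 ≤ (m - 1) * ((r + 2) * (3 * r + 15)) :=
      mul_nonneg (by linarith) (by positivity)
    have h3 : 12 * (r + 2) ^ 2 * m - 9 * (r + 1) * (r + 2) * m =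
        (m - 1) * ((r + 2) * (3 * r + 15)) + (r + 2) * (3 * r + 15) := by ring
    have h4 : (r + 2) * (3 * r + 15) = (r + 1) ^ 2 + 2 * (r + 2) + (2 * r ^ 2 + 17 * r + 25) := by
      ring
    have h5 : 0 ≤ 2 * r ^ 2 + 17 * r + 25 := by positivity
    linarith
  have w12 : p * (2 * (r + 2)) ≤ p * (Y - (r + 1) ^ 2 - 9 * (r + 1) * (r + 2) * m) :=
    mul_le_mul_of_nonneg_left w11 hp0
  have w13 : Y * (2 * (r + 2)) ≤ p * (2 * (r + 2)) :=
    mul_le_mul_of_nonneg_right hPY (by positivity)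
  have w14 : 0 < (r + 2) * Y := by positivity
  linarith

/-- main numerical lemma: at comparable volume the surface with `m + 1` levels is larger -/
theorem surface_lt {m k k' r : ℕ} (hm : 1 ≤ m) (hY : m + 12 * (r + 2) ^ 2 * m ≤ k')
    (hkk : k' < k) (hv : nn m (r + 3) (k - 1) < nn (m + 1) (r + 3) (k' + 1)) :
    nn m (r + 2) (k + 1) + 2 ≤ nn (m + 1) (r + 2) k' := by
  obtain ⟨Y, rfl⟩ : ∃ Y, k' = m + Y := ⟨k' - m, by omega⟩
  have hYge : 12 * (r + 2) ^ 2 * m ≤ Y := by omega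
  have hms : 48 * (m * (r + 1)) ≤ Y := by
    have hsq : 4 * (r + 1) ≤ (r + 2) ^ 2 := by nlinarith
    have h1 : 12 * (4 * (r + 1)) * m ≤ 12 * (r + 2) ^ 2 * m :=
      Nat.mul_le_mul_right _ (Nat.mul_le_mul_left _ hsq)
    have h2 : 12 * (4 * (r + 1)) * m = 48 * (m * (r + 1)) := by ring
    omega
  have h3P := level_ratio hm hms hkk hv
  -- the last level
  have hsl : nn (m + 1) (r + 2) (m + Y) = nn m (r + 2) (m + Y) + PP1 r Y := by
    have hY1 : 1 ≤ m * (r + 1) := Nat.mul_pos hm (by omega)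
    have h1 := nn_succ_level (m := m) (k := m + Y) (r + 1) (by omega)
    have e : r + 1 + (m + Y - 1 - m) = r + Y := by omega
    rw [e] at h1
    exact h1
  have hvl : nn (m + 1) (r + 3) (m + Y + 1) = nn m (r + 3) (m + Y + 1) + PP1 (r + 1) (Y + 1) := by
    have h1 := nn_succ_level (m := m) (k := m + Y + 1) (r + 2) (by omega)
    have e : r + 2 + (m + Y + 1 - 1 - m) = r + 1 + (Y + 1) := by omega
    rw [e] at h1
    exact h1
  have hL := PP1_up r (Y + 1)
  have hP1 := PP1_succ r Y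
  have hsum := nn_sum_le (m := m) (k := m + Y) r (by omega) (k + 1 - (m + Y))
  have e1 : m + Y + (k + 1 - (m + Y)) = k + 1 := by omega
  rw [e1] at hsum
  have e2 : m + Y + 1 - m + (r + 1) = Y + 1 + (r + 1) := by omega
  rw [e2] at hsum
  have v1 := nn_succ m (r + 2) k
  have v2 := nn_succ m (r + 2) (k - 1)
  have v3 := nn_succ m (r + 2) (m + Y)
  rw [Nat.sub_add_cancel (by omega : 1 ≤ k)] at v2
  change nn m (r + 3) (k + 1) = nn m (r + 3) k + nn m (r + 2) (k + 1) at v1
  change nn m (r + 3) k = nn m (r + 3) (k - 1) + nn m (r + 2) k at v2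
  change nn m (r + 3) (m + Y + 1) = nn m (r + 3) (m + Y) + nn m (r + 2) (m + Y + 1) at v3
  have s1 := nn_mono m (r + 2) (by omega) (show k ≤ k + 1 by omega)
  have s2 := nn_mono m (r + 2) (by omega) (show m + Y + 1 ≤ k + 1 by omega)
  have hup : nn m (r + 2) (k + 1) ≤ m * PP1 r (k + 1) := by
    rw [nn_levels (r + 1) (by omega : m ≤ k + 1)]
    calc ∑ a ∈ range m, (r + 1 + (k + 1 - 1 - a)).choose (r + 1)
        ≤ ∑ _a ∈ range m, PP1 r (k + 1) := by
          apply sum_le_sum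
          intro a _
          unfold PP1
          exact Nat.choose_le_choose _ (by omega)
      _ = m * PP1 r (k + 1) := by
          rw [sum_const, card_range, smul_eq_mul]
  have hup' : nn m (r + 2) (k + 1) ≤ 3 * (m * PP1 r Y) := by
    calc nn m (r + 2) (k + 1) ≤ m * PP1 r (k + 1) := hup
      _ ≤ m * (3 * PP1 r Y) := Nat.mul_le_mul_left _ h3P
      _ = _ := by ring
  have hPY := le_PP1 r Y
  rw [hsl]
  rw [hvl] at hv
  have hvol : nn m (r + 3) (k + 1) < nn m (r + 3) (m + Y) + PP1 (r + 1) (Y + 1) +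
      3 * nn m (r + 2) (k + 1) := by omega
  have := final_est (r : ℤ) m Y (Y + 1 + (r + 1)) (PP1 r Y) (PP1 r (Y + 1))
    (PP1 (r + 1) (Y + 1)) (nn m (r + 2) (m + Y)) (nn m (r + 2) (k + 1)) (nn m (r + 3) (m + Y))
    (nn m (r + 3) (k + 1)) (by positivity) (by exact_mod_cast hm) (by positivity)
    (by exact_mod_cast hYge) rfl (by exact_mod_cast hsum) (by exact_mod_cast hvol)
    (by exact_mod_cast hL) (by exact_mod_cast hP1) (by exact_mod_cast hup')
    (by exact_mod_cast hPY)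
  exact_mod_cast this

/-- comparison of the extremal values -/
theorem bst_lt {m k k' r : ℕ} (hm : 1 ≤ m) (hY : m + 12 * (r + 2) ^ 2 * m ≤ k')
    (hkk : k' < k) (hv : nn m (r + 3) (k - 1) < nn (m + 1) (r + 3) (k' + 1)) :
    bst m (r + 1) k < bst (m + 1) (r + 1) k' := by
  have hs := surface_lt hm hY hkk hv
  have hmk : m < k' := by
    have : 0 < 12 * (r + 2) ^ 2 * m := by positivity
    omega
  have b1 := bst_identity m (r + 1) k
  have b2 := bst_identity (m + 1) (r + 1) k'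
  have e1 : min k (m - 1) = m - 1 := by omega
  have e2 : min k' (m + 1 - 1) = m := by omega
  rw [e1] at b1
  rw [e2] at b2
  change bst m (r + 1) k + nn m (r + 3) (m - 1) =
    nn m (r + 2) k * nn m (r + 2) (k + 1) + nn m (r + 3) k at b1
  change bst (m + 1) (r + 1) k' + nn (m + 1) (r + 3) m =
    nn (m + 1) (r + 2) k' * nn (m + 1) (r + 2) (k' + 1) + nn (m + 1) (r + 3) k' at b2
  -- the small terms
  have c1 := nn_choose m (r + 2) (m - 1)
  have c2 := nn_choose (m + 1) (r + 2) m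
  have c3 := nn_choose (m + 1) (r + 1) m
  rw [Nat.choose_eq_zero_of_lt (show r + 2 + (m - 1) - m < r + 2 + 1 by omega)] at c1
  rw [Nat.choose_eq_zero_of_lt (show r + 2 + m - (m + 1) < r + 2 + 1 by omega)] at c2
  rw [Nat.choose_eq_zero_of_lt (show r + 1 + m - (m + 1) < r + 1 + 1 by omega)] at c3
  have c4 : (r + 2 + m).choose (r + 2 + 1) = (r + 2 + (m - 1)).choose (r + 2) +
      (r + 2 + (m - 1)).choose (r + 2 + 1) := by
    have : r + 2 + m = r + 2 + (m - 1) + 1 := by omega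
    rw [this, Nat.choose_succ_succ']
  have c5 : r + 1 + m = r + 2 + (m - 1) := by omega
  rw [c5] at c3
  have c6 : nn (m + 1) (r + 3) m ≤ nn m (r + 3) (m - 1) + nn (m + 1) (r + 2) m := by
    change nn m (r + 3) (m - 1) + 0 = _ at c1
    change nn (m + 1) (r + 3) m + 0 = _ at c2
    change nn (m + 1) (r + 2) m + 0 = (r + 2 + (m - 1)).choose (r + 2) at c3
    omega
  have c7 := nn_mono (m + 1) (r + 2) (by omega) hmk.le
  -- volumes
  have v2 := nn_succ m (r + 2) (k - 1)
  rw [Nat.sub_add_cancel (by omega : 1 ≤ k)] at v2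
  have v3 := nn_succ (m + 1) (r + 2) k'
  change nn m (r + 3) k = nn m (r + 3) (k - 1) + nn m (r + 2) k at v2
  change nn (m + 1) (r + 3) (k' + 1) = nn (m + 1) (r + 3) k' + nn (m + 1) (r + 2) (k' + 1) at v3
  have s1 := nn_mono m (r + 2) (by omega) (show k ≤ k + 1 by omega)
  have s2 := nn_mono (m + 1) (r + 2) (by omega) (show k' ≤ k' + 1 by omega)
  obtain ⟨A, hA⟩ : ∃ A, A = nn m (r + 2) k := ⟨_, rfl⟩
  obtain ⟨B, hB⟩ : ∃ B, B = nn m (r + 2) (k + 1) := ⟨_, rfl⟩
  obtain ⟨C, hC⟩ : ∃ C, C = nn (m + 1) (r + 2) k' := ⟨_, rfl⟩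
  obtain ⟨D, hD⟩ : ∃ D, D = nn (m + 1) (r + 2) (k' + 1) := ⟨_, rfl⟩
  rw [← hA, ← hB] at s1 b1
  rw [← hC, ← hD] at s2 b2
  rw [← hB, ← hC] at hs
  rw [← hA] at v2
  rw [← hD] at v3
  rw [← hC] at c7
  obtain ⟨C', rfl⟩ : ∃ C', C = C' + 2 := ⟨C - 2, by omega⟩
  have key : A * B + A + D + (C' + 2) ≤ (C' + 2) * D := by
    have k1 : A * (B + 1) ≤ C' * D := Nat.mul_le_mul (by omega) (by omega)
    have k2 : A * (B + 1) = A * B + A := by ring
    have k3 : (C' + 2) * D = C' * D + D + D := by ring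
    omega
  omega

end Pool.Agent.MP_74475a_ag
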