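import Mathlib
import Pool.Agent.MP_74475a_ag.RangeNum

/-!
Monotonicity of the maximal tangent dimension in the linear range `12 N^2 m' ≤ k`,
in every number of variables.
-/

namespace Pool.Agent.MP_74475a_ag

open MvPolynomial

open Classical in
theorem extend_good {m r : ℕ} (hm : 1 ≤ m) (n : ℕ) : ∀ X : Finset (ℕ →₀ ℕ),
    Good m (r + 2) X → ∃ Y, Good m (r + 2) Y ∧ X ⊆ Y ∧ Y.card = X.card + n := by
  induction n with
  | zero => exact fun X h => ⟨X, h, subset_rfl, rfl⟩
  | succ n ih =>
    intro X h
    have hex : ∃ t : ℕ, Finsupp.single (r + 1) t ∉ X := by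
      by_contra hcon
      push Not at hcon
      have hinj : Function.Injective fun t : ℕ => (⟨_, hcon t⟩ : X) := by
        intro t t' htt
        have := congrArg Subtype.val htt
        exact Finsupp.single_injective _ this
      exact absurd (Finite.of_injective _ hinj) (not_finite_iff_infinite.mpr inferInstance)
    obtain ⟨t, ht⟩ : ∃ t, t = Nat.find hex := ⟨_, rfl⟩
    have ht1 : Finsupp.single (r + 1) t ∉ X := by
      rw [ht]
      exact Nat.find_spec hex
    have ht2 : ∀ t', t' < t → Finsupp.single (r + 1) t' ∈ X := by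
      intro t' h'
      have := Nat.find_min hex (m := t') (by omega)
      simpa using this
    have hgood : Good m (r + 2) (insert (Finsupp.single (r + 1) t) X) := by
      constructor
      · intro a ha i hi
        rw [Finset.mem_insert] at ha
        rcases ha with rfl | ha
        · rw [Finsupp.single_eq_of_ne (by omega)]
        · exact h.supp a ha i hi
      · intro a b hab hb
        rw [Finset.mem_insert] at hb ⊢
        rcases hb with rfl | hb
        · have h1 : a = Finsupp.single (r + 1) (a (r + 1)) := by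
            ext i
            by_cases hi : i = r + 1
            · rw [hi]
              simp
            · have := hab i
              rw [Finsupp.single_eq_of_ne hi] at this ⊢
              exact Nat.le_zero.mp this
          have h2 := hab (r + 1)
          rw [Finsupp.single_eq_same] at h2
          rcases Nat.eq_or_lt_of_le h2 with h3 | h3
          · left
            rw [h1, h3]
          · right
            rw [h1]
            exact ht2 _ h3
        · right
          exact h.down a b hab hb
      · intro a i j hij hj ha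
        rw [Finset.mem_insert] at ha ⊢
        rcases ha with ha | ha
        · exfalso
          have h1 := DFunLike.congr_fun ha i
          rw [Finsupp.add_apply, Finsupp.single_eq_same,
            Finsupp.single_eq_of_ne (by omega)] at h1
          omega
        · right
          exact h.borel a i j hij hj ha
      · intro a ha
        rw [Finset.mem_insert] at ha
        rcases ha with rfl | ha
        · rw [Finsupp.single_eq_of_ne (by omega)]
          omega
        · exact h.bound a ha
    obtain ⟨Y, hY1, hY2, hY3⟩ := ih _ hgood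
    refine ⟨Y, hY1, (Finset.subset_insert _ _).trans hY2, ?_⟩
    rw [hY3, Finset.card_insert_of_notMem ht1]
    ring

theorem BT_mono {r : ℕ} {X Y : Finset (ℕ →₀ ℕ)} (h : X ⊆ Y) : BT r X ≤ BT r Y := by
  unfold BT
  exact Nat.add_le_add (BB_mono h) (Finset.sum_le_sum fun j _ => BB_mono h)

/-- upper bound at arbitrary colengths -/
theorem upper_range {r m k : ℕ} (hr : 1 ≤ r) (hm : 1 ≤ m) (hk : m ≤ k) {l : ℕ}
    {I : Ideal (Poly (r + 2))} (hB : BorelFixed I) (hl : HasColength I l)
    (hlk : l ≤ nn m (r + 2) k) (h : mOne I ≤ m) : tangentDim I ≤ bst m r k := by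
  have hmon := monomialIdeal_of_borelFixed hB
  have hex := borelExch_of_borelFixed hB
  obtain ⟨S, hS, hcard⟩ := (hasColength_iff hmon _).mp hl
  have hgood : Good m (r + 2) (XS S) := good_XS hex hS m (by omega) (by
    intro a ha
    exact lt_of_lt_of_le (lt_mOne hS (by omega) a ha) h)
  obtain ⟨Y, hY1, hY2, hY3⟩ := extend_good hm (nn m (r + 2) k - l) (XS S) hgood
  have h1 := tangentDim_le_BT hmon hS
  have h2 := BT_mono (r := r) hY2
  have h3 := BT_bound hm hr hk hY1 (by rw [hY3, card_XS, hcard]; omega)
  omega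

theorem pos_mOne {N m l : ℕ} (hN : 0 < N) {I : Ideal (Poly N)} (hB : BorelFixed I)
    (hl : HasColength I l) (hmI : mOne I = m) (hl0 : 1 ≤ l) : 1 ≤ m := by
  have hmon := monomialIdeal_of_borelFixed hB
  obtain ⟨S, hS, hcard⟩ := (hasColength_iff hmon _).mp hl
  have hne : S.Nonempty := by
    rw [← Finset.card_pos]
    omega
  obtain ⟨a, ha⟩ := hne
  have := lt_mOne hS hN a ha
  omega

theorem le_nn {m r : ℕ} (hm : 1 ≤ m) (k : ℕ) : k ≤ nn m (r + 2) k := by
  induction k with
  | zero => exact Nat.zero_le _
  | succ k ih =>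
    have h1 := nn_succ m (r + 1) k
    change nn m (r + 2) (k + 1) = nn m (r + 2) k + nn m (r + 1) (k + 1) at h1
    have := nn_pos hm (show 1 ≤ r + 1 by omega) (show 1 ≤ k + 1 by omega)
    omega

theorem exists_level {r m l k : ℕ} (hr : 1 ≤ r) (hm : 1 ≤ m) (hmk : m ≤ k)
    (hk : nn m (r + 2) k ≤ l) : (TSet (r + 2) m l).Nonempty ∧ bst m r k ≤ TMax (r + 2) m l := by
  obtain ⟨I, hB, hl, hm1, ht⟩ := exists_ideal (r := r) (ρ := l - nn m (r + 2) k) hm hmk
  rw [Nat.add_sub_cancel' hk] at hl
  have hmem : tangentDim I ∈ TSet (r + 2) m l := ⟨I, hB, hl, hm1, rfl⟩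
  refine ⟨⟨_, hmem⟩, ?_⟩
  have := (isGreatest_TMax (by omega) ⟨_, hmem⟩).2 hmem
  omega

/-- one step of the comparison in the linear range -/
theorem range_step {r m l : ℕ} (hm : 1 ≤ m)
    (hl : nn (m + 1) (r + 3) (m + 12 * (r + 2) ^ 2 * m) ≤ l) :
    TMax (r + 3) m l < TMax (r + 3) (m + 1) l := by
  classical
  have hbig : m < m + 12 * (r + 2) ^ 2 * m := by
    have : 0 < 12 * (r + 2) ^ 2 * m := by positivity
    omega
  -- the index `k'`
  obtain ⟨k', hk'⟩ : ∃ k', k' = Nat.findGreatest (fun k => nn (m + 1) (r + 3) k ≤ l) l := ⟨_, rfl⟩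
  have hbd : m + 12 * (r + 2) ^ 2 * m ≤ l := (le_nn (by omega) _).trans hl
  have h1 : m + 12 * (r + 2) ^ 2 * m ≤ k' := by
    rw [hk']
    exact Nat.le_findGreatest hbd hl
  have h2 : nn (m + 1) (r + 3) k' ≤ l := by
    rw [hk']
    exact Nat.findGreatest_spec (P := fun k => nn (m + 1) (r + 3) k ≤ l) hbd hl
  have h3 : l < nn (m + 1) (r + 3) (k' + 1) := by
    by_contra hcon
    rw [not_lt] at hcon
    have h4 := le_nn (m := m + 1) (r := r + 1) (by omega) (k' + 1)
    have h5 := Nat.le_findGreatest (P := fun k => nn (m + 1) (r + 3) k ≤ l)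
      (show k' + 1 ≤ l from h4.trans hcon) hcon
    omega
  -- the index `k`
  have hex : ∃ k, l ≤ nn m (r + 3) k := ⟨l, le_nn hm l⟩
  obtain ⟨k, hk⟩ : ∃ k, k = Nat.find hex := ⟨_, rfl⟩
  have h4 : l ≤ nn m (r + 3) k := by
    rw [hk]
    exact Nat.find_spec hex
  have hlt : nn m (r + 3) k' < l := by
    have h5 := nn_succ_level (m := m) (k := k') (r + 2) (by omega)
    have h6 : 0 < (r + 2 + (k' - 1 - m)).choose (r + 2) := Nat.choose_pos (by omega)
    change nn (m + 1) (r + 3) k' = nn m (r + 3) k' + _ at h5
    omega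
  have hkk : k' < k := by
    by_contra hcon
    have := nn_mono m (r + 3) (by omega) (not_lt.mp hcon)
    omega
  have h5 : nn m (r + 3) (k - 1) < l := by
    have := Nat.find_min hex (m := k - 1) (by omega)
    omega
  have h6 := bst_lt hm h1 hkk (by omega)
  have h7 := (exists_level (r := r + 1) (m := m + 1) (by omega) (by omega) (by omega) h2).2
  obtain ⟨hne, _⟩ := exists_level (r := r + 1) (m := m) (l := l) (k := m) (by omega) hm le_rfl
    ((nn_mono m (r + 3) (by omega) (show m ≤ k' by omega)).trans hlt.le)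
  obtain ⟨⟨I, hI1, hI2, hI3, hI4⟩, _⟩ := isGreatest_TMax (by omega) hne
  have h8 := upper_range (r := r + 1) (k := k) (by omega) hm (by omega) hI1 hI2 h4 hI3.le
  change bst (m + 1) (r + 1) k' ≤ TMax (r + 3) (m + 1) l at h7
  change tangentDim I = TMax (r + 3) m l at hI4
  omega

theorem nn_le_choose (m r k : ℕ) : nn m (r + 1) k ≤ (r + k).choose (r + 1) := by
  have := nn_choose m r k
  omega

/-- the comparison in the linear range -/
theorem range_main {r m M k l : ℕ} (hm : 1 ≤ m) (hmM : m < M) (hk : 12 * (r + 3) ^ 2 * M ≤ k)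
    (hl : (r + 2 + k).choose (r + 3) ≤ l) : TMax (r + 3) m l < TMax (r + 3) M l := by
  have key : ∀ m', 1 ≤ m' → m' < M → TMax (r + 3) m' l < TMax (r + 3) (m' + 1) l := by
    intro m' h1 h2
    apply range_step h1
    refine (nn_le_choose _ _ _).trans (le_trans ?_ hl)
    apply Nat.choose_le_choose
    have h3 : 12 * (r + 3) ^ 2 * m' ≤ 12 * (r + 3) ^ 2 * M := Nat.mul_le_mul_left _ h2.le
    have h4 : 12 * (r + 3) ^ 2 * m' = 12 * (r + 2) ^ 2 * m' + 12 * (2 * r + 5) * m' := by ring
    have h5 : m' ≤ 12 * (2 * r + 5) * m' := Nat.le_mul_of_pos_left m' (by positivity)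
    omega
  obtain ⟨d, hd⟩ := Nat.exists_eq_add_of_lt hmM
  have chain : ∀ d, m + d + 1 ≤ M → TMax (r + 3) m l < TMax (r + 3) (m + d + 1) l := by
    intro d
    induction d with
    | zero =>
      intro h
      exact key m hm (by omega)
    | succ d ih =>
      intro h
      exact (ih (by omega)).trans (key (m + d + 1) (by omega) (by omega))
  rw [hd]
  exact chain d (by omega)

end Pool.Agent.MP_74475a_ag
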