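import Mathlib
import Pool.Agent.MP_74475a_ag.Range

/-!
The chord bound: for every colength between two consecutive peaks
`dim A / ((x_1^m) + 𝔪^k)`, the tangent dimension of a Borel-fixed ideal with `m_1 ≤ m` is at
most the linear interpolation of the values at the two peaks.
-/

namespace Pool.Agent.MP_74475a_ag

open Finset

theorem chord_algB {B' b0 x y x0 x' A1 A0 b2 b1 a1 a' c : ℤ}
    (hih : B' ≤ b0 + a1 * (x' - A0)) (c3 : A1 = A0 + b1) (c4 : x = x0 + x')
    (c6 : 0 ≤ x - A1) (c7 : x0 ≤ b2) (c8 : 0 < c) (c9 : 0 ≤ a') (c10 : 0 ≤ x0)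
    (hg2 : c * (y - a1) ≤ a' * (x0 - b1)) (hgr : b2 * (x0 - b1) ≤ c * (x - A1)) :
    y * x0 + B' ≤ b0 + b1 * a1 + (a1 + a') * (x - A1) := by
  have key : (y - a1) * x0 ≤ a' * (x - A1) := by
    rcases le_or_gt x0 b1 with hle | hgt
    · have t1 : c * (y - a1) ≤ 0 :=
        hg2.trans (mul_nonpos_of_nonneg_of_nonpos c9 (by linarith))
      have t2 : y - a1 ≤ 0 := by
        by_contra hcon
        push Not at hcon
        have := mul_pos c8 hcon
        linarith
      have t3 := mul_nonpos_of_nonpos_of_nonneg t2 c10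
      have t4 := mul_nonneg c9 c6
      linarith
    · have t1 : c * (y - a1) * x0 ≤ a' * (x0 - b1) * x0 := mul_le_mul_of_nonneg_right hg2 c10
      have t2 : a' * (x0 - b1) * x0 ≤ a' * (x0 - b1) * b2 :=
        mul_le_mul_of_nonneg_left c7 (mul_nonneg c9 (by linarith))
      have t3 : a' * (b2 * (x0 - b1)) ≤ a' * (c * (x - A1)) :=
        mul_le_mul_of_nonneg_left hgr c9
      have t4 : c * ((y - a1) * x0) ≤ c * (a' * (x - A1)) := by
        calc c * ((y - a1) * x0) = c * (y - a1) * x0 := by ring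
          _ ≤ a' * (x0 - b1) * b2 := t1.trans t2
          _ = a' * (b2 * (x0 - b1)) := by ring
          _ ≤ a' * (c * (x - A1)) := t3
          _ = c * (a' * (x - A1)) := by ring
      exact le_of_mul_le_mul_left t4 c8
  have e1 : a1 * (x' - A0) = a1 * (x - A1) + a1 * b1 - a1 * x0 := by
    rw [c4, c3]
    ring
  have e2 : (y - a1) * x0 = y * x0 - a1 * x0 := by ring
  have e3 : (a1 + a') * (x - A1) = a1 * (x - A1) + a' * (x - A1) := by ring
  have e4 : b1 * a1 = a1 * b1 := by ring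
  rw [e1] at hih
  rw [e2] at key
  rw [e3, e4]
  linarith

theorem chord_algA {B' b0 x y x0 x' A0 b2 b1 a2 a1 a' c : ℤ}
    (hih : B' ≤ b0 + a2 * (x' - A0)) (c1 : a2 = a1 + a') (c2 : b2 = b1 + c)
    (c4 : x = x0 + x') (c7 : x0 ≤ b2) (c8 : 0 < c) (c9 : 0 ≤ a') (c10 : 0 ≤ x0)
    (hg2 : c * (y - a1) ≤ a' * (x0 - b1)) :
    y * x0 + B' ≤ b0 + a2 * (x - A0) := by
  have t1 : c * (y - a1) ≤ c * a' := by
    refine hg2.trans ?_
    rw [mul_comm c a']
    exact mul_le_mul_of_nonneg_left (by linarith) c9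
  have t2 : y - a1 ≤ a' := le_of_mul_le_mul_left t1 c8
  have t3 : y * x0 ≤ a2 * x0 := mul_le_mul_of_nonneg_right (by linarith) c10
  have e1 : a2 * (x - A0) = a2 * x0 + a2 * (x' - A0) := by
    rw [c4]
    ring
  rw [e1]
  linarith

/-- the chord bound for one family of pairs -/
theorem BB_chord {m : ℕ} (hm : 1 ≤ m) {r j : ℕ} (hr : 1 ≤ r) (hjr : j + 1 ≤ r) :
    ∀ (n : ℕ) (X : Finset (ℕ →₀ ℕ)), X.card = n → Good m (r + 2) X →
    ∀ k, nn m (r + 2) k ≤ X.card → X.card ≤ nn m (r + 2) (k + 1) →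
    (BB (j + 1) (r + 1) X : ℤ) ≤
      bbs m (j + 1) (r + 1) k + nn m (j + 1) (k + 1) * (X.card - nn m (r + 2) k) := by
  intro n
  induction n using Nat.strong_induction_on with
  | _ n ih =>
    intro X hn h k hk1 hk2
    -- empty case
    by_cases h0 : (sec (r + 1) X).card = 0
    · have hX : X = ∅ := by
        by_contra hne
        obtain ⟨a, ha⟩ := Finset.nonempty_iff_ne_empty.mpr hne
        have h00 : (0 : ℕ →₀ ℕ) ∈ sec (r + 1) X := by
          rw [mem_sec]
          exact ⟨h.down 0 a (by intro i; simp) ha, fun i _ => rfl⟩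
        rw [Finset.card_eq_zero] at h0
        rw [h0] at h00
        simp at h00
      have h1 := BB_le_mul (m := m) (r := r + 1) (j := j + 1) (by omega) _ X rfl h
      have h2 : X.card = 0 := by rw [hX]; rfl
      rw [h2, Nat.mul_zero] at h1
      rw [h2] at hk1 ⊢
      have h3 : nn m (r + 2) k = 0 := by omega
      rw [h3]
      have h4 : BB (j + 1) (r + 1) X = 0 := by omega
      rw [h4]
      push_cast
      have : (0 : ℤ) ≤ bbs m (j + 1) (r + 1) k := by positivity
      linarith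
    · have hcard := card_eq_sec_add_col (m := m) (r := r + 1) h
      have hgr := growth hm r k X h
      have hg2 : (nn m r (k + 1) : ℤ) * ((sec (j + 1) X).card - nn m (j + 1) k) ≤
          nn m j (k + 1) * ((sec (r + 1) X).card - nn m (r + 1) k) := by
        obtain ⟨d, rfl⟩ := Nat.exists_eq_add_of_le hjr
        have := growth2 hm j k (d + 1) (sec (j + (d + 1) + 1) X) (h.sec (by omega))
        rw [sec_sec (by omega)] at this
        have e : j + 1 + d = j + (d + 1) := by ring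
        rw [e]
        exact this
      have hrec := BB_rec (m := m) (j := j + 1) h (by omega)
      have pc : 0 < nn m r (k + 1) := nn_pos hm (by omega) (by omega)
      have pb : 0 < nn m (r + 1) (k + 1) := nn_pos hm (by omega) (by omega)
      have ea := nn_succ m j k
      have eb := nn_succ m r k
      have eA := nn_succ m (r + 1) k
      change nn m (r + 2) (k + 1) = nn m (r + 2) k + nn m (r + 1) (k + 1) at eA
      change X.card = (sec (r + 1) X).card + (col (r + 1) X).card at hcard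
      -- `x0 ≤ b_{k+1}`
      have hx0 : (sec (r + 1) X).card ≤ nn m (r + 1) (k + 1) := by
        have q1 : (0 : ℤ) < nn m (r + 1) (k + 1) := by exact_mod_cast pb
        have q2 : (nn m (r + 1) (k + 1) : ℤ) = nn m (r + 1) k + nn m r (k + 1) := by
          exact_mod_cast eb
        have q3 : (X.card : ℤ) - nn m (r + 2) k ≤ nn m (r + 1) (k + 1) := by
          have : (X.card : ℤ) ≤ nn m (r + 2) (k + 1) := by exact_mod_cast hk2
          have e' : (nn m (r + 2) (k + 1) : ℤ) = nn m (r + 2) k + nn m (r + 1) (k + 1) := by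
            exact_mod_cast eA
          linarith
        have q4 : (0 : ℤ) ≤ nn m r (k + 1) := by positivity
        have q5 : (nn m (r + 1) (k + 1) : ℤ) * ((sec (r + 1) X).card - nn m (r + 1) k) ≤
            nn m (r + 1) (k + 1) * nn m r (k + 1) := by
          refine hgr.trans ?_
          rw [mul_comm]
          exact mul_le_mul_of_nonneg_right q3 q4
        have q6 := le_of_mul_le_mul_left q5 q1
        have : ((sec (r + 1) X).card : ℤ) ≤ nn m (r + 1) (k + 1) := by linarith
        exact_mod_cast this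
      change BB (j + 1) (r + 1) X = (sec (j + 1) X).card * (sec (r + 1) X).card +
        BB (j + 1) (r + 1) (col (r + 1) X) at hrec
      have hlt : (col (r + 1) X).card < n := by omega
      rcases Nat.lt_or_ge (col (r + 1) X).card (nn m (r + 2) k) with hcase | hcase
      · -- case B
        have hk0 : 0 < k := by
          rcases Nat.eq_zero_or_pos k with hz | hz
          · rw [hz, nn_zero'] at hcase
            omega
          · exact hz
        obtain ⟨k, rfl⟩ := Nat.exists_eq_add_of_le' hk0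
        have eA' := nn_succ m (r + 1) k
        change nn m (r + 2) (k + 1) = nn m (r + 2) k + nn m (r + 1) (k + 1) at eA'
        -- `A_k ≤ x'`
        have hlow : nn m (r + 2) k ≤ (col (r + 1) X).card := by
          have q1 : (0 : ℤ) < nn m (r + 1) (k + 1 + 1) := by exact_mod_cast pb
          have q2 : (nn m (r + 1) (k + 1 + 1) : ℤ) =
              nn m (r + 1) (k + 1) + nn m r (k + 1 + 1) := by exact_mod_cast eb
          have q3 : (nn m (r + 2) (k + 1) : ℤ) = nn m (r + 2) k + nn m (r + 1) (k + 1) := by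
            exact_mod_cast eA'
          have q4 : (X.card : ℤ) = (sec (r + 1) X).card + (col (r + 1) X).card := by
            exact_mod_cast hcard
          have q5 : (0 : ℤ) ≤ X.card - nn m (r + 2) (k + 1) := by
            have : (nn m (r + 2) (k + 1) : ℤ) ≤ X.card := by exact_mod_cast hk1
            omega
          have q6 : (0 : ℤ) ≤
              nn m (r + 1) (k + 1 + 1) * ((col (r + 1) X).card - nn m (r + 2) k) := by
            have q7 : (0 : ℤ) ≤ nn m (r + 1) (k + 1) * (X.card - nn m (r + 2) (k + 1)) :=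
              mul_nonneg (by positivity) q5
            nlinarith
          have q8 : (0 : ℤ) ≤ (col (r + 1) X).card - nn m (r + 2) k :=
            nonneg_of_mul_nonneg_right q6 q1
          omega
        have hih := ih _ hlt (col (r + 1) X) rfl h.col k hlow hcase.le
        have ebbs := bbs_succ m (j + 1) (r + 1) k
        rw [hrec]
        push_cast
        have c1 : (nn m (j + 1) (k + 1 + 1) : ℤ) = nn m (j + 1) (k + 1) + nn m j (k + 1 + 1) := by
          exact_mod_cast ea
        have c2 : (nn m (r + 1) (k + 1 + 1) : ℤ) =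
            nn m (r + 1) (k + 1) + nn m r (k + 1 + 1) := by exact_mod_cast eb
        have c3 : (nn m (r + 2) (k + 1) : ℤ) = nn m (r + 2) k + nn m (r + 1) (k + 1) := by
          exact_mod_cast eA'
        have c4 : (X.card : ℤ) = (sec (r + 1) X).card + (col (r + 1) X).card := by
          exact_mod_cast hcard
        have c5 : (bbs m (j + 1) (r + 1) (k + 1) : ℤ) =
            bbs m (j + 1) (r + 1) k + nn m (r + 1) (k + 1) * nn m (j + 1) (k + 1) := by
          exact_mod_cast ebbs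
        have c6 : (0 : ℤ) ≤ X.card - nn m (r + 2) (k + 1) := by
          have : (nn m (r + 2) (k + 1) : ℤ) ≤ X.card := by exact_mod_cast hk1
          omega
        have c7 : ((sec (r + 1) X).card : ℤ) ≤ nn m (r + 1) (k + 1 + 1) := by
          exact_mod_cast hx0
        have c8 : (0 : ℤ) < nn m r (k + 1 + 1) := by exact_mod_cast pc
        have c9 : (0 : ℤ) ≤ nn m j (k + 1 + 1) := by positivity
        have c10 : (0 : ℤ) ≤ (sec (r + 1) X).card := by positivity
        rw [c5, c1]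
        exact chord_algB hih c3 c4 c6 c7 c8 c9 c10 hg2 hgr
      · -- case A
        have hup : (col (r + 1) X).card ≤ nn m (r + 2) (k + 1) := by omega
        have hih := ih _ hlt (col (r + 1) X) rfl h.col k hcase hup
        rw [hrec]
        push_cast
        have c1 : (nn m (j + 1) (k + 1) : ℤ) = nn m (j + 1) k + nn m j (k + 1) := by
          exact_mod_cast ea
        have c2 : (nn m (r + 1) (k + 1) : ℤ) = nn m (r + 1) k + nn m r (k + 1) := by
          exact_mod_cast eb
        have c4 : (X.card : ℤ) = (sec (r + 1) X).card + (col (r + 1) X).card := by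
          exact_mod_cast hcard
        have c7 : ((sec (r + 1) X).card : ℤ) ≤ nn m (r + 1) (k + 1) := by
          exact_mod_cast hx0
        have c8 : (0 : ℤ) < nn m r (k + 1) := by exact_mod_cast pc
        have c9 : (0 : ℤ) ≤ nn m j (k + 1) := by positivity
        have c10 : (0 : ℤ) ≤ (sec (r + 1) X).card := by positivity
        exact chord_algA hih c1 c2 c4 c7 c8 c9 c10 hg2

/-- the slope of the chord -/
def slp (m r k : ℕ) : ℕ := nn m r (k + 1) + ∑ j ∈ Finset.range r, nn m (j + 1) (k + 1) + 1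

theorem slp_eq {m r k : ℕ} (h : m ≤ k + 1) : slp m r k = nn m r (k + 1) + nn m r (k + 2) + 1 := by
  have h1 := nn_telescope m r (k + 1)
  have h2 := nn_zero m (k + 1 + 1)
  rw [if_neg (by omega)] at h2
  change nn m 0 (k + 1 + 1) + _ = nn m r (k + 2) at h1
  unfold slp
  omega

theorem bst_succ (m r k : ℕ) :
    bst m r (k + 1) = bst m r k + slp m r k * nn m (r + 1) (k + 1) := by
  unfold bst slp
  rw [bbs_succ, nn_succ m (r + 1) k]
  simp only [bbs_succ]
  rw [Finset.sum_add_distrib, ← Finset.mul_sum]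
  ring

/-- the chord bound for the total count -/
theorem BT_chord {m : ℕ} (hm : 1 ≤ m) {r k : ℕ} (hr : 1 ≤ r)
    {X : Finset (ℕ →₀ ℕ)} (h : Good m (r + 2) X) {x : ℕ} (hX : X.card = nn m (r + 2) k + x)
    (hx : x ≤ nn m (r + 1) (k + 1)) :
    BT r X ≤ bst m r k + slp m r k * x := by
  have h0 := BB_zero_le (r := r + 1) h
  have eA := nn_succ m (r + 1) k
  change nn m (r + 2) (k + 1) = nn m (r + 2) k + nn m (r + 1) (k + 1) at eA
  have hj : ∀ j, j + 1 ≤ r → BB (j + 1) (r + 1) X ≤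
      bbs m (j + 1) (r + 1) k + nn m (j + 1) (k + 1) * x := by
    intro j hjr
    have := BB_chord hm hr hjr _ X rfl h k (by omega) (by omega)
    rw [hX] at this
    have e : (((nn m (r + 2) k + x : ℕ) : ℤ) - nn m (r + 2) k) = x := by push_cast; ring
    rw [e] at this
    exact_mod_cast this
  unfold BT bst slp
  rw [Finset.sum_range_succ']
  have hsum : ∑ j ∈ Finset.range r, BB (j + 1) (r + 1) X ≤
      ∑ j ∈ Finset.range r, (bbs m (j + 1) (r + 1) k + nn m (j + 1) (k + 1) * x) := by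
    apply Finset.sum_le_sum
    intro j hj'
    rw [Finset.mem_range] at hj'
    exact hj j (by omega)
  rw [Finset.sum_add_distrib, ← Finset.sum_mul] at hsum
  have h1 : BB r (r + 1) X ≤ bbs m r (r + 1) k + nn m r (k + 1) * x := by
    obtain ⟨r, rfl⟩ := Nat.exists_eq_add_of_le' hr
    exact hj r le_rfl
  have e2 : (nn m r (k + 1) + ∑ j ∈ Finset.range r, nn m (j + 1) (k + 1) + 1) * x =
      nn m r (k + 1) * x + (∑ j ∈ Finset.range r, nn m (j + 1) (k + 1)) * x + x := by ring
  rw [e2]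
  omega

/-- **Chord bound** for Borel-fixed ideals with `m_1 ≤ m`. -/
theorem tangentDim_chord {r m k : ℕ} (hr : 1 ≤ r) (hm : 1 ≤ m) {x : ℕ}
    (hx : x ≤ nn m (r + 1) (k + 1)) {I : Ideal (Poly (r + 2))} (hB : BorelFixed I)
    (hl : HasColength I (nn m (r + 2) k + x)) (h : mOne I ≤ m) :
    tangentDim I ≤ bst m r k + slp m r k * x := by
  have hmon := monomialIdeal_of_borelFixed hB
  have hex := borelExch_of_borelFixed hB
  obtain ⟨S, hS, hcard⟩ := (hasColength_iff hmon _).mp hl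
  have hgood : Good m (r + 2) (XS S) := good_XS hex hS m (by omega) (by
    intro a ha
    exact lt_of_lt_of_le (lt_mOne hS (by omega) a ha) h)
  exact (tangentDim_le_BT hmon hS).trans
    (BT_chord hm hr hgood (by rw [card_XS, hcard]) hx)

/-- `T_max,m` at the peak of level `k ≥ m` -/
theorem TMax_peak {r m k : ℕ} (hr : 1 ≤ r) (hm : 1 ≤ m) (hk : m ≤ k) :
    IsGreatest (TSet (r + 2) m (nn m (r + 2) k)) (TMax (r + 2) m (nn m (r + 2) k)) ∧
      TMax (r + 2) m (nn m (r + 2) k) = bst m r k := by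
  obtain ⟨h1, _⟩ := main hr hm hk
  have hne : (TSet (r + 2) m (nn m (r + 2) k)).Nonempty := ⟨_, h1.1⟩
  have hG := isGreatest_TMax (N := r + 2) (by omega) hne
  exact ⟨hG, hG.unique h1⟩

/-- chord bound in interpolation form -/
theorem chord_interp {r m m₁ k l : ℕ} (hr : 1 ≤ r) (hm : 1 ≤ m) (hm₁ : m₁ ≤ m)
    (h1 : nn m (r + 2) k ≤ l) (h2 : l ≤ nn m (r + 2) (k + 1)) {t : ℕ}
    (ht : t ∈ TSet (r + 2) m₁ l) :
    t * (nn m (r + 2) (k + 1) - nn m (r + 2) k) ≤
      bst m r k * (nn m (r + 2) (k + 1) - l) + bst m r (k + 1) * (l - nn m (r + 2) k) := by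
  obtain ⟨I, hB, hl, hI, rfl⟩ := ht
  obtain ⟨x, rfl⟩ := Nat.exists_eq_add_of_le h1
  have e := nn_succ m (r + 1) k
  change nn m (r + 2) (k + 1) = nn m (r + 2) k + nn m (r + 1) (k + 1) at e
  have hx : x ≤ nn m (r + 1) (k + 1) := by omega
  have h3 := tangentDim_chord hr hm hx hB hl (hI.trans_le hm₁)
  have h4 := bst_succ m r k
  have e1 : nn m (r + 2) (k + 1) - nn m (r + 2) k = nn m (r + 1) (k + 1) := by omega
  have e2 : nn m (r + 2) (k + 1) - (nn m (r + 2) k + x) = nn m (r + 1) (k + 1) - x := by omega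
  have e3 : nn m (r + 2) k + x - nn m (r + 2) k = x := by omega
  rw [e1, e2, e3, h4]
  obtain ⟨z, hz⟩ := Nat.exists_eq_add_of_le hx
  have e4 : nn m (r + 1) (k + 1) - x = z := by omega
  rw [e4]
  calc tangentDim I * nn m (r + 1) (k + 1)
      ≤ (bst m r k + slp m r k * x) * nn m (r + 1) (k + 1) := Nat.mul_le_mul_right _ h3
    _ = bst m r k * z + (bst m r k + slp m r k * nn m (r + 1) (k + 1)) * x := by
        rw [hz]
        ring

theorem choose_ge (a b : ℕ) : a + 1 + (b + 1) ≤ (a + 1 + (b + 1)).choose (a + 1) := by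
  induction b with
  | zero => rw [Nat.choose_succ_self_right]
  | succ b ih =>
    rw [show a + 1 + (b + 1 + 1) = a + 1 + (b + 1) + 1 by ring, Nat.choose_succ_succ']
    have : 0 < (a + 1 + (b + 1)).choose a := Nat.choose_pos (by omega)
    omega

/-- numerical comparison of the chord of class `k - 1` with the value of `𝔪^k` -/
theorem window_num {r κ x : ℕ} (hr : 1 ≤ r)
    (hx : (x + 1) * (2 * (κ + 2) + r + 2) ≤ (κ + 3) ^ 2) :
    nn (κ + 1) (r + 2) (κ + 2) + 1 = nn (κ + 2) (r + 2) (κ + 2) ∧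
    x + 1 ≤ nn (κ + 1) (r + 1) (κ + 3) ∧
    bst (κ + 1) r (κ + 2) + slp (κ + 1) r (κ + 2) * (x + 1) < bst (κ + 2) r (κ + 2) := by
  obtain ⟨q, rfl⟩ := Nat.exists_eq_add_of_le' hr
  -- closed forms
  have a1 := nn_choose (κ + 2) (q + 1) (κ + 2)
  have a2 := nn_choose (κ + 2) (q + 1) (κ + 3)
  have a3 := nn_choose (κ + 2) (q + 2) (κ + 2)
  have a4 := nn_choose (κ + 2) (q + 2) (κ + 1)
  have b1 := nn_choose (κ + 1) (q + 1) (κ + 2)
  have b2 := nn_choose (κ + 1) (q + 1) (κ + 3)
  have b3 := nn_choose (κ + 1) (q + 2) (κ + 2)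
  have b4 := nn_choose (κ + 1) (q + 2) κ
  have c1 := nn_choose (κ + 1) q (κ + 3)
  have c2 := nn_choose (κ + 1) q (κ + 4)
  rw [show q + 1 + (κ + 2) - (κ + 2) = q + 1 by omega,
    Nat.choose_eq_zero_of_lt (show q + 1 < q + 1 + 1 by omega)] at a1
  rw [show q + 1 + (κ + 3) - (κ + 2) = q + 1 + 1 by omega, Nat.choose_self] at a2
  rw [show q + 2 + (κ + 2) - (κ + 2) = q + 2 by omega,
    Nat.choose_eq_zero_of_lt (show q + 2 < q + 2 + 1 by omega)] at a3
  rw [show q + 2 + (κ + 1) - (κ + 2) = q + 1 by omega,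
    Nat.choose_eq_zero_of_lt (show q + 1 < q + 2 + 1 by omega)] at a4
  rw [show q + 1 + (κ + 2) - (κ + 1) = q + 1 + 1 by omega, Nat.choose_self] at b1
  rw [show q + 1 + (κ + 3) - (κ + 1) = q + 1 + 1 + 1 by omega,
    Nat.choose_succ_self_right] at b2
  rw [show q + 2 + (κ + 2) - (κ + 1) = q + 2 + 1 by omega, Nat.choose_self] at b3
  rw [show q + 2 + κ - (κ + 1) = q + 1 by omega,
    Nat.choose_eq_zero_of_lt (show q + 1 < q + 2 + 1 by omega)] at b4
  rw [show q + (κ + 3) - (κ + 1) = q + 1 + 1 by omega, Nat.choose_succ_self_right] at c1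
  have d1 := bst_identity (κ + 2) (q + 1) (κ + 2)
  have d2 := bst_identity (κ + 1) (q + 1) (κ + 2)
  rw [show min (κ + 2) (κ + 2 - 1) = κ + 1 by omega] at d1
  rw [show min (κ + 2) (κ + 1 - 1) = κ by omega] at d2
  have d3 := slp_eq (m := κ + 1) (r := q + 1) (k := κ + 2) (by omega)
  -- Pascal
  have p1 : (q + 1 + (κ + 3)).choose (q + 1 + 1) =
      (q + (κ + 3)).choose (q + 1) + (q + 1 + (κ + 2)).choose (q + 1 + 1) := by
    rw [show q + 1 + (κ + 3) = q + (κ + 3) + 1 by ring, Nat.choose_succ_succ',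
      show q + (κ + 3) = q + 1 + (κ + 2) by ring]
  have p2 : (q + 1 + (κ + 2)).choose (q + 1 + 1) =
      (q + 1 + (κ + 1)).choose (q + 1) + (q + 1 + (κ + 1)).choose (q + 1 + 1) := by
    rw [show q + 1 + (κ + 2) = q + 1 + (κ + 1) + 1 by ring, Nat.choose_succ_succ']
  have p3 : (q + 2 + (κ + 2)).choose (q + 2 + 1) =
      (q + 1 + (κ + 2)).choose (q + 1 + 1) + (q + 2 + (κ + 1)).choose (q + 2 + 1) := by
    rw [show q + 2 + (κ + 2) = q + 1 + (κ + 2) + 1 by ring, Nat.choose_succ_succ',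
      show q + 1 + (κ + 2) = q + 2 + (κ + 1) by ring]
  have p4 : (q + 2 + (κ + 1)).choose (q + 2 + 1) =
      (q + 1 + (κ + 1)).choose (q + 1 + 1) + (q + 2 + κ).choose (q + 2 + 1) := by
    rw [show q + 2 + (κ + 1) = q + 1 + (κ + 1) + 1 by ring, Nat.choose_succ_succ',
      show q + 1 + (κ + 1) = q + 2 + κ by ring]
  -- multiplicative relations
  have m1 : (q + 1 + (κ + 2)).choose (q + 1 + 1) * (q + 2) =
      (q + (κ + 3)).choose (q + 1) * (κ + 2) := by
    have := Nat.choose_succ_right_eq (q + (κ + 3)) (q + 1)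
    rw [show q + (κ + 3) - (q + 1) = κ + 2 by omega] at this
    rw [show q + 1 + (κ + 2) = q + (κ + 3) by ring]
    exact this
  have m2 : (q + (κ + 4)).choose (q + 1) * (κ + 3) =
      (q + (κ + 3)).choose (q + 1) * (q + κ + 4) := by
    have := Nat.choose_mul_succ_eq (q + (κ + 3)) (q + 1)
    rw [show q + (κ + 3) + 1 - (q + 1) = κ + 3 by omega,
      show q + (κ + 3) + 1 = q + (κ + 4) by ring] at this
    rw [← this]
    ring
  have g1 := choose_ge q (κ + 1)
  have g2 := choose_ge q κ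
  rw [show q + 1 + (κ + 1 + 1) = q + (κ + 3) by ring] at g1
  generalize (q + 1 + (κ + 3)).choose (q + 1 + 1) = s' at *
  generalize (q + (κ + 4)).choose (q + 1) = d0 at *
  generalize (q + (κ + 3)).choose (q + 1) = c0 at *
  generalize (q + 1 + (κ + 2)).choose (q + 1 + 1) = s at *
  generalize (q + 1 + (κ + 1)).choose (q + 1 + 1) = s0 at *
  generalize (q + 1 + (κ + 1)).choose (q + 1) = e0 at *
  generalize (q + 2 + (κ + 2)).choose (q + 2 + 1) = cc at *
  generalize (q + 2 + (κ + 1)).choose (q + 2 + 1) = c1' at *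
  generalize (q + 2 + κ).choose (q + 2 + 1) = c2' at *
  change nn (κ + 2) (q + 1 + 1) (κ + 2) + 0 = s at a1
  change nn (κ + 2) (q + 1 + 1) (κ + 3) + 1 = s' at a2
  change nn (κ + 2) (q + 1 + 2) (κ + 2) + 0 = cc at a3
  change nn (κ + 2) (q + 1 + 2) (κ + 1) + 0 = c1' at a4
  change nn (κ + 1) (q + 1 + 1) (κ + 2) + 1 = s at b1
  change nn (κ + 1) (q + 1 + 1) (κ + 3) + (q + 1 + 1 + 1) = s' at b2
  change nn (κ + 1) (q + 1 + 2) (κ + 2) + 1 = cc at b3
  change nn (κ + 1) (q + 1 + 2) κ + 0 = c2' at b4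
  change nn (κ + 1) (q + 1) (κ + 3) + (q + 1 + 1) = c0 at c1
  change bst (κ + 2) (q + 1) (κ + 2) + nn (κ + 2) (q + 1 + 2) (κ + 1) =
    nn (κ + 2) (q + 1 + 1) (κ + 2) * nn (κ + 2) (q + 1 + 1) (κ + 3) +
      nn (κ + 2) (q + 1 + 2) (κ + 2) at d1
  change bst (κ + 1) (q + 1) (κ + 2) + nn (κ + 1) (q + 1 + 2) κ =
    nn (κ + 1) (q + 1 + 1) (κ + 2) * nn (κ + 1) (q + 1 + 1) (κ + 3) +
      nn (κ + 1) (q + 1 + 2) (κ + 2) at d2
  change slp (κ + 1) (q + 1) (κ + 2) = nn (κ + 1) (q + 1) (κ + 3) +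
    nn (κ + 1) (q + 1) (κ + 4) + 1 at d3
  generalize nn (κ + 2) (q + 1 + 1) (κ + 2) = A1 at *
  generalize nn (κ + 2) (q + 1 + 1) (κ + 3) = A2 at *
  generalize nn (κ + 2) (q + 1 + 2) (κ + 2) = A3 at *
  generalize nn (κ + 2) (q + 1 + 2) (κ + 1) = A4 at *
  generalize nn (κ + 1) (q + 1 + 1) (κ + 2) = B1 at *
  generalize nn (κ + 1) (q + 1 + 1) (κ + 3) = B2 at *
  generalize nn (κ + 1) (q + 1 + 2) (κ + 2) = B3 at *
  generalize nn (κ + 1) (q + 1 + 2) κ = B4 at *
  generalize nn (κ + 1) (q + 1) (κ + 3) = C1 at *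
  generalize nn (κ + 1) (q + 1) (κ + 4) = C2 at *
  generalize bst (κ + 2) (q + 1) (κ + 2) = T1 at *
  generalize bst (κ + 1) (q + 1) (κ + 2) = T2 at *
  generalize slp (κ + 1) (q + 1) (κ + 2) = sl at *
  have hxk : x + 1 ≤ κ + 1 := by
    by_contra hcon
    push Not at hcon
    have h1 : κ + 2 ≤ x + 1 := by omega
    have h2 : (κ + 2) * (2 * (κ + 2) + (q + 1) + 2) ≤ (κ + 3) ^ 2 :=
      (Nat.mul_le_mul_right _ h1).trans hx
    nlinarith
  refine ⟨by omega, by omega, ?_⟩
  -- `sl * (x + 1) < c0 * (κ + 3)`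
  have hsl : sl < c0 + d0 := by omega
  have h1 : sl * (x + 1) < c0 * (κ + 3) := by
    have t1 : sl * (x + 1) * (κ + 3) < (c0 + d0) * (x + 1) * (κ + 3) := by
      have : sl * (x + 1) < (c0 + d0) * (x + 1) := Nat.mul_lt_mul_of_pos_right hsl (by omega)
      exact Nat.mul_lt_mul_of_pos_right this (by omega)
    have t2 : (c0 + d0) * (x + 1) * (κ + 3) =
        c0 * ((x + 1) * (2 * (κ + 2) + (q + 1) + 2)) := by
      calc (c0 + d0) * (x + 1) * (κ + 3) = (x + 1) * (c0 * (κ + 3) + d0 * (κ + 3)) := by ring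
        _ = (x + 1) * (c0 * (κ + 3) + c0 * (q + κ + 4)) := by rw [m2]
        _ = _ := by ring
    have t3 : c0 * ((x + 1) * (2 * (κ + 2) + (q + 1) + 2)) ≤ c0 * (κ + 3) ^ 2 :=
      Nat.mul_le_mul_left _ hx
    have t4 : sl * (x + 1) * (κ + 3) < c0 * (κ + 3) * (κ + 3) := by
      calc _ < _ := t1
        _ = _ := t2
        _ ≤ _ := t3
        _ = _ := by ring
    exact lt_of_mul_lt_mul_right t4 (by omega)
  -- `T1 = s * s'`
  obtain ⟨y, hy⟩ : ∃ y, s' = y + (q + 3) := ⟨s' - (q + 3), by omega⟩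
  obtain ⟨w, hw⟩ : ∃ w, s = w + 1 := ⟨s - 1, by omega⟩
  have hA1 : A1 = w + 1 := by omega
  have hA2 : A2 = y + (q + 2) := by omega
  have hB1 : B1 = w := by omega
  have hB2 : B2 = y := by omega
  rw [hA1, hA2] at d1
  rw [hB1, hB2] at d2
  have e1 : (w + 1) * (y + (q + 2)) = w * y + w * (q + 2) + y + (q + 2) := by ring
  rw [e1] at d1
  have e2 : w * (q + 2) + (q + 2) = c0 * (κ + 2) := by
    rw [← m1, hw]
    ring
  have e3 : c0 * (κ + 3) = c0 * (κ + 2) + c0 := by ring
  omega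

end Pool.Agent.MP_74475a_ag
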