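import Mathlib
import Pool.Agent.MP_74475a_ag.Chord

/-!
A sharp upper bound for `T_max,m(l)` at every colength `l ≥ C(N-1+m,N)`, in every number
`N ≥ 3` of variables: the linear interpolation between the values at the two neighbouring
peaks `pk N m K = dim A / ((x_1^m) + 𝔪^K)`. It is applied to Q1 for the pairs `m < k` at the
colengths `C(N-1+k,N) + x`, `(x+1)(2k+N) ≤ (k+1)^2`.
-/

namespace Pool.Agent.MP_74475a_ag.ChordBoundOld

open Pool.Agent.MP_74475a_ag

/-- the colength of `(x_1^m) + 𝔪^K` in `N` variables -/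
def pk (N m K : ℕ) : ℕ := (N + K - 1).choose N - (N + K - 1 - m).choose N

theorem pk_eq (m r k : ℕ) : pk (r + 2) m k = nn m (r + 2) k := by
  have h := nn_choose m (r + 1) k
  change nn m (r + 2) k + (r + 1 + k - m).choose (r + 2) = (r + 1 + k).choose (r + 2) at h
  unfold pk
  rw [show r + 2 + k - 1 = r + 1 + k by omega]
  omega

theorem result (N : ℕ) (hN : 3 ≤ N) :
    (∀ m K : ℕ, 1 ≤ m → m ≤ K →
      IsGreatest (TSet N m (pk N m K)) (TMax N m (pk N m K)) ∧
      ∀ m₁ l t : ℕ, m₁ ≤ m → pk N m K ≤ l → l ≤ pk N m (K + 1) → t ∈ TSet N m₁ l →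
        t * (pk N m (K + 1) - pk N m K) ≤
          TMax N m (pk N m K) * (pk N m (K + 1) - l) +
            TMax N m (pk N m (K + 1)) * (l - pk N m K)) ∧
    (∀ k x m : ℕ, (x + 1) * (2 * k + N) ≤ (k + 1) ^ 2 → m < k →
      (TSet N m ((N - 1 + k).choose N + x)).Nonempty →
      IsGreatest (TSet N m ((N - 1 + k).choose N + x)) (TMax N m ((N - 1 + k).choose N + x)) ∧
      IsGreatest (TSet N k ((N - 1 + k).choose N + x)) (TMax N k ((N - 1 + k).choose N + x)) ∧
      TMax N m ((N - 1 + k).choose N + x) < TMax N k ((N - 1 + k).choose N + x)) := by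
  obtain ⟨r, rfl⟩ := Nat.exists_eq_add_of_le' (show 2 ≤ N by omega)
  have hr : 1 ≤ r := by omega
  refine ⟨?_, ?_⟩
  · intro m K hm hK
    refine ⟨?_, ?_⟩
    · rw [pk_eq]
      exact (TMax_peak hr hm hK).1
    · intro m₁ l t hm₁ h1 h2 ht
      rw [pk_eq] at h1 h2
      rw [pk_eq, pk_eq, (TMax_peak hr hm hK).2, (TMax_peak hr hm (show m ≤ K + 1 by omega)).2]
      exact chord_interp hr hm hm₁ h1 h2 ht
  · intro k x m hx hmk hne
    have e1 : r + 2 - 1 + k = r + 1 + k := by omega
    rw [e1] at hne ⊢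
    have hcol : (r + 1 + k).choose (r + 2) = nn k (r + 2) k := by
      have h := nn_choose k (r + 1) k
      rw [show r + 1 + k - k = r + 1 by omega,
        Nat.choose_eq_zero_of_lt (show r + 1 < r + 1 + 1 by omega)] at h
      change nn k (r + 2) k + 0 = (r + 1 + k).choose (r + 2) at h
      omega
    obtain ⟨⟨I, hI1, hI2, hI3, hI4⟩, hGm⟩ := isGreatest_TMax (N := r + 2) (by omega) hne
    have hk1 : 1 ≤ k := by omega
    have hpos : 1 ≤ (r + 1 + k).choose (r + 2) := Nat.choose_pos (by omega)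
    have hm1 : 1 ≤ m := pos_mOne (by omega) hI1 hI2 hI3 (by omega)
    obtain ⟨hne', hlow⟩ := exists_level (r := r) (m := k) (k := k)
      (l := (r + 1 + k).choose (r + 2) + x) hr hk1 le_rfl (by omega)
    refine ⟨isGreatest_TMax (by omega) hne, isGreatest_TMax (by omega) hne', ?_⟩
    obtain ⟨κ, rfl⟩ := Nat.exists_eq_add_of_le' (show 2 ≤ k by omega)
    obtain ⟨w1, w2, w3⟩ := window_num (r := r) (κ := κ) (x := x) hr
      (le_trans (le_of_eq (by ring)) (hx.trans (le_of_eq (by ring))))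
    have hI2' : HasColength I (nn (κ + 1) (r + 2) (κ + 2) + (x + 1)) := by
      have : nn (κ + 1) (r + 2) (κ + 2) + (x + 1) = (r + 1 + (κ + 2)).choose (r + 2) + x := by
        omega
      rw [this]
      exact hI2
    have := tangentDim_chord hr (show 1 ≤ κ + 1 by omega) w2 hI1 hI2' (by omega)
    omega

end Pool.Agent.MP_74475a_ag.ChordBoundOld
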