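import Mathlib
import Pool.Agent.MP_74475a_ag.Range

/-!
Comparison of two classes `m < m'` which are far apart: the surface of the peak of `m'` below
a colength `l` against the surface of the peak of `m` above `l`.
-/

namespace Pool.Agent.MP_74475a_ag

open Finset

/-- `nn` as a difference of two binomials -/
theorem nn_PP1 {m k : ℕ} (j : ℕ) (h : m ≤ k) : nn m (j + 1) k + PP1 j (k - m) = PP1 j k := by
  have h1 := nn_choose m j k
  unfold PP1
  rw [show j + (k - m) = j + k - m by omega]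
  exact h1

theorem PP1_step (r x : ℕ) : PP1 (r + 1) (x + 1) = PP1 (r + 1) x + PP1 r (x + 1) := by
  rw [PP1_diff]
  unfold PP1
  rw [show r + 1 + x = r + (x + 1) by ring]

theorem PP1_top (r x : ℕ) : (r + 1) * PP1 r (x + 1) = (x + (r + 1)) * (r + x).choose r := by
  unfold PP1
  have h3 := Nat.add_one_mul_choose_eq (r + x) r
  rw [show r + (x + 1) = r + x + 1 by ring, mul_comm (r + 1), ← h3]
  congr 1
  ring

/-- the first auxiliary function -/
def Psi (r K : ℕ) (x : ℕ) : ℤ := (K + r + 2) * PP1 (r + 1) x - (r + 2) * PP1 (r + 2) x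

theorem Psi_step (r K x : ℕ) : Psi r K (x + 1) = Psi r K x + ((K : ℤ) - x) * PP1 r (x + 1) := by
  unfold Psi
  have h1 : (PP1 (r + 1) (x + 1) : ℤ) = PP1 (r + 1) x + PP1 r (x + 1) := by
    exact_mod_cast PP1_step r x
  have h2 : (PP1 (r + 2) (x + 1) : ℤ) = PP1 (r + 2) x + PP1 (r + 1) (x + 1) := by
    exact_mod_cast PP1_step (r + 1) x
  have h3 : ((r : ℤ) + 2) * PP1 (r + 1) (x + 1) = (x + 1 + (r + 1)) * PP1 r (x + 1) := by
    exact_mod_cast PP1_up r (x + 1)
  rw [h2, mul_add, h3, h1]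
  ring

theorem Psi_up (r K a : ℕ) : ∀ t, a + t ≤ K + 1 →
    ((K : ℤ) + 1 - (a + t)) * (PP1 (r + 1) (a + t) - PP1 (r + 1) a) ≤
      Psi r K (a + t) - Psi r K a := by
  intro t
  induction t with
  | zero => intro _; simp
  | succ t ih =>
    intro h
    have h1 := ih (by omega)
    have h2 := Psi_step r K (a + t)
    have h3 : (PP1 (r + 1) (a + t + 1) : ℤ) = PP1 (r + 1) (a + t) + PP1 r (a + t + 1) := by
      exact_mod_cast PP1_step r (a + t)
    have h4 : (PP1 (r + 1) a : ℤ) ≤ PP1 (r + 1) (a + t) := by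
      exact_mod_cast PP1_mono (r + 1) (show a ≤ a + t by omega)
    rw [show a + (t + 1) = a + t + 1 from rfl, h2, h3]
    push_cast
    nlinarith

theorem Psi_down (r K a : ℕ) (ha : K ≤ a) : ∀ t, Psi r K (a + t) ≤ Psi r K a := by
  intro t
  induction t with
  | zero => simp
  | succ t ih =>
    have h2 := Psi_step r K (a + t)
    have h3 : ((K : ℤ) - ((a + t : ℕ) : ℤ)) * PP1 r (a + t + 1) ≤ 0 := by
      apply mul_nonpos_of_nonpos_of_nonneg
      · push_cast
        have : (K : ℤ) ≤ a := by exact_mod_cast ha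
        linarith [(Int.natCast_nonneg t : (0 : ℤ) ≤ t)]
      · positivity
    rw [show a + (t + 1) = a + t + 1 from rfl, h2]
    linarith

/-- the second auxiliary function -/
def Psi2 (r K : ℕ) (x : ℕ) : ℤ :=
  ((K : ℤ) + r + 2) * (K + r + 1) * PP1 r x - (r + 2) * (r + 1) * PP1 (r + 2) x

theorem Psi2_step (r K x : ℕ) : Psi2 r K (x + 1) = Psi2 r K x +
    (((K : ℤ) + r + 2) * (K + r + 1) - (x + r + 2) * (x + r + 1)) * (r + x).choose r := by
  unfold Psi2
  have h1 : (PP1 r (x + 1) : ℤ) = PP1 r x + (r + x).choose r := by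
    exact_mod_cast PP1_diff r x
  have h2 : (PP1 (r + 2) (x + 1) : ℤ) = PP1 (r + 2) x + PP1 (r + 1) (x + 1) := by
    exact_mod_cast PP1_step (r + 1) x
  have h3 : ((r : ℤ) + 2) * PP1 (r + 1) (x + 1) = (x + 1 + (r + 1)) * PP1 r (x + 1) := by
    exact_mod_cast PP1_up r (x + 1)
  have h4 : ((r : ℤ) + 1) * PP1 r (x + 1) = (x + (r + 1)) * (r + x).choose r := by
    exact_mod_cast PP1_top r x
  have h5 : ((r : ℤ) + 2) * (r + 1) * PP1 (r + 1) (x + 1) =
      (x + 1 + (r + 1)) * ((x + (r + 1)) * (r + x).choose r) := by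
    rw [← h4]
    linear_combination (r + 1 : ℤ) * h3
  rw [h2, h1]
  linear_combination (-1 : ℤ) * h5

theorem Psi2_up (r K a : ℕ) : ∀ t, a + t ≤ K + 1 → Psi2 r K a ≤ Psi2 r K (a + t) := by
  intro t
  induction t with
  | zero => intro _; simp
  | succ t ih =>
    intro h
    have h1 := ih (by omega)
    have h2 := Psi2_step r K (a + t)
    have h3 : (0 : ℤ) ≤ (((K : ℤ) + r + 2) * (K + r + 1) -
        (((a + t : ℕ) : ℤ) + r + 2) * (((a + t : ℕ) : ℤ) + r + 1)) *
        (r + (a + t)).choose r := by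
      apply mul_nonneg _ (by positivity)
      have h4 : ((a + t : ℕ) : ℤ) ≤ K := by exact_mod_cast (show a + t ≤ K by omega)
      have h5 : (0 : ℤ) ≤ ((a + t : ℕ) : ℤ) := by positivity
      have h6 : (0 : ℤ) ≤ r := by positivity
      nlinarith
    rw [show a + (t + 1) = a + t + 1 from rfl, h2]
    linarith

theorem Psi2_down (r K a : ℕ) (ha : K ≤ a) : ∀ t, Psi2 r K (a + t) ≤ Psi2 r K a := by
  intro t
  induction t with
  | zero => simp
  | succ t ih =>
    have h2 := Psi2_step r K (a + t)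
    have h3 : (((K : ℤ) + r + 2) * (K + r + 1) -
        (((a + t : ℕ) : ℤ) + r + 2) * (((a + t : ℕ) : ℤ) + r + 1)) *
        (r + (a + t)).choose r ≤ 0 := by
      apply mul_nonpos_of_nonpos_of_nonneg _ (by positivity)
      have h4 : (K : ℤ) ≤ ((a + t : ℕ) : ℤ) := by exact_mod_cast (show K ≤ a + t by omega)
      have h5 : (0 : ℤ) ≤ (K : ℤ) := by positivity
      have h6 : (0 : ℤ) ≤ r := by positivity
      nlinarith
    rw [show a + (t + 1) = a + t + 1 from rfl, h2]
    linarith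

/-- general comparison principle: `F` increases up to `K + 1` and decreases from `K` on -/
theorem compare {F : ℕ → ℤ} {K K₁ y z w : ℕ} (hup : ∀ a t, a + t ≤ K + 1 → F a ≤ F (a + t))
    (hdn : ∀ a t, K ≤ a → F (a + t) ≤ F a) (hK : K ≤ K₁) (hy : y ≤ K₁) (hw : w ≤ y)
    (hwK : w ≤ K + 1) :
    F w - F z ≤ F (K + 1) - F z - F K₁ + F y := by
  have h1 : F K₁ ≤ F (K + 1) := by
    rcases Nat.eq_or_lt_of_le hK with h | h
    · have h2 := hup K 1 le_rfl
      rw [← h]
      exact h2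
    · obtain ⟨t, ht⟩ := Nat.exists_eq_add_of_le h
      have h2 := hdn (K + 1) t (by omega)
      rw [ht]
      exact h2
  rcases Nat.lt_or_ge (K + 1) y with h | h
  · obtain ⟨t, ht⟩ := Nat.exists_eq_add_of_le hy
    have h2 := hdn y t (by omega)
    rw [← ht] at h2
    obtain ⟨s, hs⟩ := Nat.exists_eq_add_of_le hwK
    have h3 := hup w s (by omega)
    rw [← hs] at h3
    linarith
  · obtain ⟨s, hs⟩ := Nat.exists_eq_add_of_le hw
    have h3 := hup w s (by omega)
    rw [← hs] at h3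
    linarith

/-- the gain of surface -/
theorem gain {r m m' K K' : ℕ} (hm : m < m') (hK' : m' ≤ K') (hKK : K' ≤ K)
    (hL : nn m (r + 3) K ≤ nn m' (r + 3) (K' + 1)) :
    ((K' : ℤ) + r + 2) * nn m (r + 2) K +
      (m + 1) * (PP1 (r + 1) (K' - m) - PP1 (r + 1) (K' - m' + 1)) ≤
      (K' + r + 2) * nn m' (r + 2) (K' + 1) := by
  have e1 : (nn m (r + 3) K : ℤ) + PP1 (r + 2) (K - m) = PP1 (r + 2) K := by
    exact_mod_cast nn_PP1 (r + 2) (by omega)
  have e2 : (nn m' (r + 3) (K' + 1) : ℤ) + PP1 (r + 2) (K' + 1 - m') = PP1 (r + 2) (K' + 1) := by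
    exact_mod_cast nn_PP1 (r + 2) (by omega)
  have e3 : (nn m (r + 2) K : ℤ) + PP1 (r + 1) (K - m) = PP1 (r + 1) K := by
    exact_mod_cast nn_PP1 (r + 1) (by omega)
  have e4 : (nn m' (r + 2) (K' + 1) : ℤ) + PP1 (r + 1) (K' + 1 - m') = PP1 (r + 1) (K' + 1) := by
    exact_mod_cast nn_PP1 (r + 1) (by omega)
  have eK : K' + 1 - m' = K' - m' + 1 := by omega
  rw [eK] at e2 e4
  have hL' : (nn m (r + 3) K : ℤ) ≤ nn m' (r + 3) (K' + 1) := by exact_mod_cast hL
  have hc := compare (F := Psi r K') (K := K') (K₁ := K) (y := K - m) (z := K' - m' + 1)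
    (w := K' - m) (by
      intro a t h
      have h1 := Psi_up r K' a t h
      have h2 : (0 : ℤ) ≤ ((K' : ℤ) + 1 - (a + t)) * (PP1 (r + 1) (a + t) - PP1 (r + 1) a) := by
        apply mul_nonneg
        · have : ((a + t : ℕ) : ℤ) ≤ ((K' + 1 : ℕ) : ℤ) := by exact_mod_cast h
          push_cast at this
          linarith
        · have : (PP1 (r + 1) a : ℤ) ≤ PP1 (r + 1) (a + t) := by
            exact_mod_cast PP1_mono (r + 1) (show a ≤ a + t by omega)
          linarith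
      linarith)
    (fun a t h => Psi_down r K' a h t) hKK (by omega) (by omega) (by omega)
  have hu := Psi_up r K' (K' - m' + 1) (m' - m - 1) (by omega)
  rw [show K' - m' + 1 + (m' - m - 1) = K' - m by omega] at hu
  have e5 : (((K' - m' + 1 : ℕ) : ℤ) + ((m' - m - 1 : ℕ) : ℤ)) = (K' : ℤ) - m := by
    have : K' - m' + 1 + (m' - m - 1) + m = K' := by omega
    have h' : (((K' - m' + 1 : ℕ) : ℤ) + ((m' - m - 1 : ℕ) : ℤ)) + (m : ℤ) = (K' : ℤ) := by
      exact_mod_cast this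
    linarith
  rw [e5] at hu
  have e6 : (K' : ℤ) + 1 - (K' - m) = m + 1 := by ring
  rw [e6] at hu
  unfold Psi at hc hu
  have hN : (0 : ℤ) ≤ r + 2 := by positivity
  have h9 : ((r : ℤ) + 2) * nn m (r + 3) K ≤ (r + 2) * nn m' (r + 3) (K' + 1) :=
    mul_le_mul_of_nonneg_left hL' hN
  have f1 : (nn m (r + 3) K : ℤ) = PP1 (r + 2) K - PP1 (r + 2) (K - m) := by linarith
  have f2 : (nn m' (r + 3) (K' + 1) : ℤ) = PP1 (r + 2) (K' + 1) - PP1 (r + 2) (K' - m' + 1) := by
    linarith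
  have f3 : (nn m (r + 2) K : ℤ) = PP1 (r + 1) K - PP1 (r + 1) (K - m) := by linarith
  have f4 : (nn m' (r + 2) (K' + 1) : ℤ) = PP1 (r + 1) (K' + 1) - PP1 (r + 1) (K' - m' + 1) := by
    linarith
  rw [f1, f2] at h9
  rw [f3, f4]
  linarith

/-- the next layer is also larger -/
theorem sigma_le {r m m' K K' : ℕ} (hm : m < m') (hK' : m' ≤ K') (hKK : K' ≤ K)
    (hL : nn m (r + 3) K ≤ nn m' (r + 3) (K' + 1)) :
    nn m (r + 1) K ≤ nn m' (r + 1) (K' + 1) := by
  have e1 : (nn m (r + 3) K : ℤ) + PP1 (r + 2) (K - m) = PP1 (r + 2) K := by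
    exact_mod_cast nn_PP1 (r + 2) (by omega)
  have e2 : (nn m' (r + 3) (K' + 1) : ℤ) + PP1 (r + 2) (K' + 1 - m') = PP1 (r + 2) (K' + 1) := by
    exact_mod_cast nn_PP1 (r + 2) (by omega)
  have e3 : (nn m (r + 1) K : ℤ) + PP1 r (K - m) = PP1 r K := by
    exact_mod_cast nn_PP1 r (by omega)
  have e4 : (nn m' (r + 1) (K' + 1) : ℤ) + PP1 r (K' + 1 - m') = PP1 r (K' + 1) := by
    exact_mod_cast nn_PP1 r (by omega)
  have eK : K' + 1 - m' = K' - m' + 1 := by omega
  rw [eK] at e2 e4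
  have hL' : (nn m (r + 3) K : ℤ) ≤ nn m' (r + 3) (K' + 1) := by exact_mod_cast hL
  have hc := compare (F := Psi2 r K') (K := K') (K₁ := K) (y := K - m) (z := K' - m' + 1)
    (w := K' - m) (fun a t h => Psi2_up r K' a t h)
    (fun a t h => Psi2_down r K' a h t) hKK (by omega) (by omega) (by omega)
  have hu := Psi2_up r K' (K' - m' + 1) (m' - m - 1) (by omega)
  rw [show K' - m' + 1 + (m' - m - 1) = K' - m by omega] at hu
  unfold Psi2 at hc hu
  have hN : (0 : ℤ) ≤ (r + 2) * (r + 1) := by positivity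
  have h9 : ((r : ℤ) + 2) * (r + 1) * nn m (r + 3) K ≤
      (r + 2) * (r + 1) * nn m' (r + 3) (K' + 1) :=
    mul_le_mul_of_nonneg_left hL' hN
  have f1 : (nn m (r + 3) K : ℤ) = PP1 (r + 2) K - PP1 (r + 2) (K - m) := by linarith
  have f2 : (nn m' (r + 3) (K' + 1) : ℤ) = PP1 (r + 2) (K' + 1) - PP1 (r + 2) (K' - m' + 1) := by
    linarith
  have f3 : (nn m (r + 1) K : ℤ) = PP1 r K - PP1 r (K - m) := by linarith
  have f4 : (nn m' (r + 1) (K' + 1) : ℤ) = PP1 r (K' + 1) - PP1 r (K' - m' + 1) := by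
    linarith
  rw [f1, f2] at h9
  have h10 : ((K' : ℤ) + r + 2) * (K' + r + 1) * (nn m (r + 1) K : ℤ) ≤
      (K' + r + 2) * (K' + r + 1) * nn m' (r + 1) (K' + 1) := by
    rw [f3, f4]
    linarith
  have hpos : (0 : ℤ) < ((K' : ℤ) + r + 2) * (K' + r + 1) := by positivity
  have := le_of_mul_le_mul_left h10 hpos
  exact_mod_cast this

end Pool.Agent.MP_74475a_ag
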