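import Mathlib
import Pool.Agent.MP_74475a_ag.Macro

/-!
The criterion for two classes `m < m'`, in binomial form.
-/

namespace Pool.Agent.MP_74475a_ag

open Finset

theorem PP1_strict (r : ℕ) {x y : ℕ} (h : x < y) : PP1 r x < PP1 r y := by
  have h1 := PP1_mono r (show x + 1 ≤ y by omega)
  have h2 := PP1_diff r x
  have h3 : 0 < (r + x).choose r := Nat.choose_pos (by omega)
  omega

/-- growth of the last layer -/
theorem sigma_growth {r m K : ℕ} (h : m ≤ K) :
    K * nn m (r + 1) (K + 1) ≤ (K + r + 1) * nn m (r + 1) K := by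
  obtain ⟨z, rfl⟩ := Nat.exists_eq_add_of_le h
  have e1 := nn_PP1 (m := m) (k := m + z) r (by omega)
  have e2 := nn_PP1 (m := m) (k := m + z + 1) r (by omega)
  rw [show m + z - m = z by omega] at e1
  rw [show m + z + 1 - m = z + 1 by omega] at e2
  have h1 := PP1_succ r (m + z)
  have h2 := PP1_succ r z
  have h3 := PP1_mono r (show z ≤ z + 1 by omega)
  have h4 : (m + z) * nn m (r + 1) (m + z + 1) + (m + z) * PP1 r (z + 1) =
      (m + z) * PP1 r (m + z + 1) := by
    rw [← mul_add, e2]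
  have h5 : (m + z + r + 1) * nn m (r + 1) (m + z) + (m + z + r + 1) * PP1 r z =
      (m + z + r + 1) * PP1 r (m + z) := by
    rw [← mul_add, e1]
  have h6 : (m + z + r + 1) * PP1 r z ≤ (m + z) * PP1 r (z + 1) := by
    have h7 : m * PP1 r z ≤ m * PP1 r (z + 1) := Nat.mul_le_mul_left _ h3
    calc (m + z + r + 1) * PP1 r z = m * PP1 r z + (z + (r + 1)) * PP1 r z := by ring
      _ ≤ m * PP1 r (z + 1) + z * PP1 r (z + 1) := by rw [h2]; omega
      _ = _ := by ring
  have h8 : (m + z + (r + 1)) * PP1 r (m + z) = (m + z + r + 1) * PP1 r (m + z) := by ring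
  omega

theorem sigma_double {r m K : ℕ} (h : m ≤ K) (hr : r + 1 ≤ K) :
    nn m (r + 1) (K + 1) ≤ 2 * nn m (r + 1) K := by
  have h1 := sigma_growth (r := r) h
  have h2 : (K + r + 1) * nn m (r + 1) K ≤ K * (2 * nn m (r + 1) K) := by
    calc (K + r + 1) * nn m (r + 1) K ≤ (K + K) * nn m (r + 1) K :=
          Nat.mul_le_mul_right _ (by omega)
      _ = _ := by ring
  exact le_of_mul_le_mul_left (h1.trans h2) (by omega)

theorem nn_le_mul (m r : ℕ) : ∀ k, nn m (r + 2) k ≤ k * nn m (r + 1) k := by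
  intro k
  induction k with
  | zero => rw [nn_zero']; simp
  | succ k ih =>
    have h1 := nn_succ m (r + 1) k
    have h2 := nn_mono m (r + 1) (by omega) (show k ≤ k + 1 by omega)
    have h3 : k * nn m (r + 1) k ≤ k * nn m (r + 1) (k + 1) := Nat.mul_le_mul_left _ h2
    change nn m (r + 2) (k + 1) = nn m (r + 2) k + nn m (r + 1) (k + 1) at h1
    have h4 : (k + 1) * nn m (r + 1) (k + 1) =
        k * nn m (r + 1) (k + 1) + nn m (r + 1) (k + 1) := by ring
    omega

theorem le_nn1 {m k : ℕ} (h : m ≤ k) : ∀ r, m ≤ nn m (r + 1) k := by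
  intro r
  induction r with
  | zero =>
    rw [nn_one_min]
    omega
  | succ r ih =>
    cases k with
    | zero =>
      have : m = 0 := by omega
      omega
    | succ k =>
      have h1 := nn_succ m (r + 1) k
      rw [h1]
      omega

/-- comparison of the extremal values -/
theorem bst_lt2 {r m m' K K' : ℕ} (hm : 1 ≤ m) (hmm : m < m') (hK' : m' ≤ K') (hKK : K' ≤ K)
    (hv : nn m (r + 3) K < nn m' (r + 3) (K' + 1))
    (hs : nn m (r + 2) (K + 2) + m' + 2 ≤ nn m' (r + 2) K') :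
    bst m (r + 1) (K + 1) < bst m' (r + 1) K' := by
  have b1 := bst_identity m (r + 1) (K + 1)
  have b2 := bst_identity m' (r + 1) K'
  have e1 : min (K + 1) (m - 1) = m - 1 := by omega
  have e2 : min K' (m' - 1) = m' - 1 := by omega
  rw [e1] at b1
  rw [e2] at b2
  change bst m (r + 1) (K + 1) + nn m (r + 3) (m - 1) =
    nn m (r + 2) (K + 1) * nn m (r + 2) (K + 2) + nn m (r + 3) (K + 1) at b1
  change bst m' (r + 1) K' + nn m' (r + 3) (m' - 1) =
    nn m' (r + 2) K' * nn m' (r + 2) (K' + 1) + nn m' (r + 3) K' at b2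
  have v2 := nn_succ m (r + 2) K
  have v3 := nn_succ m' (r + 2) K'
  change nn m (r + 3) (K + 1) = nn m (r + 3) K + nn m (r + 2) (K + 1) at v2
  change nn m' (r + 3) (K' + 1) = nn m' (r + 3) K' + nn m' (r + 2) (K' + 1) at v3
  have s1 := nn_mono m (r + 2) (by omega) (show K + 1 ≤ K + 2 by omega)
  have s2 := nn_mono m' (r + 2) (by omega) (show K' ≤ K' + 1 by omega)
  have c1 : nn m' (r + 3) (m' - 1) ≤ m' * nn m' (r + 2) (K' + 1) := by
    refine (nn_le_mul m' (r + 1) (m' - 1)).trans ?_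
    exact Nat.mul_le_mul (by omega) (nn_mono m' (r + 2) (by omega) (by omega))
  obtain ⟨A, hA⟩ : ∃ A, A = nn m (r + 2) (K + 1) := ⟨_, rfl⟩
  obtain ⟨B, hB⟩ : ∃ B, B = nn m (r + 2) (K + 2) := ⟨_, rfl⟩
  obtain ⟨C, hC⟩ : ∃ C, C = nn m' (r + 2) K' := ⟨_, rfl⟩
  obtain ⟨D, hD⟩ : ∃ D, D = nn m' (r + 2) (K' + 1) := ⟨_, rfl⟩
  rw [← hA, ← hB] at s1 b1
  rw [← hC, ← hD] at s2 b2
  rw [← hB, ← hC] at hs
  rw [← hA] at v2
  rw [← hD] at v3 c1
  obtain ⟨C', rfl⟩ : ∃ C', C = C' + (m' + 2) := ⟨C - (m' + 2), by omega⟩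
  have k1 : A * B ≤ D * C' := Nat.mul_le_mul (by omega) (by omega)
  have k3 : (C' + (m' + 2)) * D = D * C' + m' * D + D + D := by ring
  omega

/-- `m' P_{N-1}(K'+1) ≤ N L_{m'}(K')` -/
theorem surf_le {r m K : ℕ} (h : m ≤ K) :
    m * PP1 (r + 1) (K + 1) ≤ (r + 3) * nn m (r + 3) K := by
  obtain ⟨z, rfl⟩ := Nat.exists_eq_add_of_le h
  have e1 := nn_PP1 (m := m) (k := m + z) (r + 2) (by omega)
  rw [show m + z - m = z by omega] at e1
  have u1 : (r + 3) * PP1 (r + 2) (m + z) = (m + z) * PP1 (r + 1) (m + z + 1) := by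
    have a1 := PP1_up (r + 1) (m + z)
    have a2 := PP1_succ (r + 1) (m + z)
    rw [show r + 3 = r + 1 + 2 from rfl, show r + 2 = r + 1 + 1 from rfl, a1, a2]
  have u2 : (r + 3) * PP1 (r + 2) z = z * PP1 (r + 1) (z + 1) := by
    have a1 := PP1_up (r + 1) z
    have a2 := PP1_succ (r + 1) z
    rw [show r + 3 = r + 1 + 2 from rfl, show r + 2 = r + 1 + 1 from rfl, a1, a2]
  have u3 : (r + 3) * nn m (r + 3) (m + z) + (r + 3) * PP1 (r + 2) z =
      (r + 3) * PP1 (r + 2) (m + z) := by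
    rw [← mul_add, e1]
  have u4 : z * PP1 (r + 1) (z + 1) ≤ z * PP1 (r + 1) (m + z + 1) :=
    Nat.mul_le_mul_left _ (PP1_mono (r + 1) (by omega))
  have u5 : (m + z) * PP1 (r + 1) (m + z + 1) =
      m * PP1 (r + 1) (m + z + 1) + z * PP1 (r + 1) (m + z + 1) := by ring
  omega

theorem PP1_convex (r a b : ℕ) (h : a ≤ b) : ∀ t,
    PP1 r (a + t) + PP1 r b ≤ PP1 r (b + t) + PP1 r a := by
  intro t
  induction t with
  | zero => simp only [Nat.add_zero]; omega
  | succ t ih =>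
    have h1 := PP1_diff r (a + t)
    have h2 := PP1_diff r (b + t)
    have h3 : (r + (a + t)).choose r ≤ (r + (b + t)).choose r :=
      Nat.choose_le_choose _ (by omega)
    rw [show a + (t + 1) = a + t + 1 from rfl, show b + (t + 1) = b + t + 1 from rfl]
    omega

/-- the surface estimate -/
theorem surface_lt2 {r k m m' K K' : ℕ} (hm : m < m') (hmk : m' ≤ k)
    (hrk : r + 1 ≤ k) (hkK : k ≤ K') (hKK : K' ≤ K)
    (hL : nn m (r + 3) K ≤ nn m' (r + 3) (K' + 1))
    (hl : nn m' (r + 3) K' ≤ PP1 (r + 2) (k + 1))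
    (H : 10 * (r + 2) * (k + 1) * PP1 (r + 1) (k + 2) + (m + 1) * m' * PP1 (r + 1) (k - m' + 1) ≤
      (m + 1) * m' * PP1 (r + 1) (k - m)) :
    nn m (r + 2) (K + 2) + m' + 2 ≤ nn m' (r + 2) K' := by
  have hg := gain hm (by omega) hKK hL
  have hsg := sigma_le hm (by omega) hKK hL
  have d1 := sigma_double (r := r) (m := m) (K := K) (by omega) (by omega)
  have d2 := sigma_double (r := r) (m := m) (K := K + 1) (by omega) (by omega)
  have n1 := nn_succ m (r + 1) K
  have n2 := nn_succ m (r + 1) (K + 1)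
  have n3 := nn_succ m' (r + 1) K'
  change nn m (r + 1) (K + 2) ≤ 2 * nn m (r + 1) (K + 1) at d2
  change nn m (r + 2) (K + 1) = nn m (r + 2) K + nn m (r + 1) (K + 1) at n1
  change nn m (r + 2) (K + 2) = nn m (r + 2) (K + 1) + nn m (r + 1) (K + 2) at n2
  change nn m' (r + 2) (K' + 1) = nn m' (r + 2) K' + nn m' (r + 1) (K' + 1) at n3
  have s1 := le_nn1 (m := m') (k := K' + 1) (by omega) r
  -- convexity
  have cv := PP1_convex (r + 1) (k - m' + 1) (K' - m' + 1) (by omega) (m' - m - 1)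
  rw [show k - m' + 1 + (m' - m - 1) = k - m by omega,
    show K' - m' + 1 + (m' - m - 1) = K' - m by omega] at cv
  have hs2 := surf_le (r := r) (m := m') (K := K') (by omega)
  have u1 : (r + 3) * PP1 (r + 2) (k + 1) = (k + 1) * PP1 (r + 1) (k + 2) := by
    have a1 := PP1_up (r + 1) (k + 1)
    have a2 := PP1_succ (r + 1) (k + 1)
    rw [show r + 3 = r + 1 + 2 from rfl, show r + 2 = r + 1 + 1 from rfl, a1,
      show k + 2 = k + 1 + 1 from rfl, a2]
  have u2 : m' * PP1 (r + 1) (K' + 1) ≤ (k + 1) * PP1 (r + 1) (k + 2) := by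
    rw [← u1]
    exact hs2.trans (Nat.mul_le_mul_left _ hl)
  have u3 := PP1_up r (K' + 1)
  have hsP : nn m' (r + 1) (K' + 1) ≤ PP1 r (K' + 1) := by
    have := nn_PP1 (m := m') (k := K' + 1) r (by omega)
    omega
  -- integers
  have w1 : (10 : ℤ) * (r + 2) * ((k + 1) * PP1 (r + 1) (k + 2)) ≤
      m' * ((m + 1) * (PP1 (r + 1) (k - m) - PP1 (r + 1) (k - m' + 1))) := by
    have : (10 : ℤ) * (r + 2) * (k + 1) * PP1 (r + 1) (k + 2) +
      (m + 1) * m' * PP1 (r + 1) (k - m' + 1) ≤ (m + 1) * m' * PP1 (r + 1) (k - m) := by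
      exact_mod_cast H
    linarith
  have w2 : (PP1 (r + 1) (k - m) : ℤ) - PP1 (r + 1) (k - m' + 1) ≤
      PP1 (r + 1) (K' - m) - PP1 (r + 1) (K' - m' + 1) := by
    have : (PP1 (r + 1) (k - m) : ℤ) + PP1 (r + 1) (K' - m' + 1) ≤
      PP1 (r + 1) (K' - m) + PP1 (r + 1) (k - m' + 1) := by exact_mod_cast cv
    linarith
  have w3 : (m' : ℤ) * ((m + 1) * (PP1 (r + 1) (k - m) - PP1 (r + 1) (k - m' + 1))) ≤
      m' * ((m + 1) * (PP1 (r + 1) (K' - m) - PP1 (r + 1) (K' - m' + 1))) := by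
    apply mul_le_mul_of_nonneg_left _ (by positivity)
    exact mul_le_mul_of_nonneg_left w2 (by positivity)
  have w4 : (10 : ℤ) * (r + 2) * (m' * PP1 (r + 1) (K' + 1)) ≤
      10 * (r + 2) * ((k + 1) * PP1 (r + 1) (k + 2)) := by
    apply mul_le_mul_of_nonneg_left _ (by positivity)
    exact_mod_cast u2
  have w5 : ((r : ℤ) + 2) * PP1 (r + 1) (K' + 1) = (K' + r + 2) * PP1 r (K' + 1) := by
    have : ((r : ℤ) + 2) * PP1 (r + 1) (K' + 1) = (K' + 1 + (r + 1)) * PP1 r (K' + 1) := by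
      exact_mod_cast u3
    rw [this]
    ring
  have w6 : ((m' : ℤ) * (K' + r + 2)) * (10 * PP1 r (K' + 1)) ≤
      (m' * (K' + r + 2)) * (nn m' (r + 2) (K' + 1) - nn m (r + 2) K) := by
    have t1 : ((m' : ℤ) * (K' + r + 2)) * (10 * PP1 r (K' + 1)) =
        10 * (r + 2) * (m' * PP1 (r + 1) (K' + 1)) := by
      linear_combination (-10 * (m' : ℤ)) * w5
    have t2 : (m' : ℤ) * ((K' + r + 2) * nn m (r + 2) K +
      (m + 1) * (PP1 (r + 1) (K' - m) - PP1 (r + 1) (K' - m' + 1))) ≤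
      m' * ((K' + r + 2) * nn m' (r + 2) (K' + 1)) :=
      mul_le_mul_of_nonneg_left hg (by positivity)
    rw [t1]
    linarith
  have hpos : (0 : ℤ) < (m' : ℤ) * (K' + r + 2) := by
    have : (0 : ℤ) < m' := by exact_mod_cast (show 0 < m' by omega)
    positivity
  have w7 := le_of_mul_le_mul_left w6 hpos
  have w8 : 10 * PP1 r (K' + 1) + nn m (r + 2) K ≤ nn m' (r + 2) (K' + 1) := by
    have : (10 : ℤ) * PP1 r (K' + 1) + nn m (r + 2) K ≤ nn m' (r + 2) (K' + 1) := by linarith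
    exact_mod_cast this
  omega

/-- the criterion, binomial form -/
theorem crit {r k l m m' m₁ : ℕ} (hm1 : 1 ≤ m₁) (hm1m : m₁ ≤ m) (hmm : m < m') (hmk : m' ≤ k)
    (hrk : r + 1 ≤ k) (hl1 : (r + 2 + k).choose (r + 3) ≤ l)
    (hl2 : l < (r + 3 + k).choose (r + 3))
    (H : 10 * (r + 2) * (k + 1) * PP1 (r + 1) (k + 2) + (m + 1) * m' * PP1 (r + 1) (k - m' + 1) ≤
      (m + 1) * m' * PP1 (r + 1) (k - m)) :
    TMax (r + 3) m₁ l < TMax (r + 3) m' l := by
  classical
  have hk0 : nn m' (r + 3) k ≤ l := (nn_le_choose _ _ _).trans hl1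
  -- the index `K'`
  obtain ⟨K', hK'⟩ : ∃ K', K' = Nat.findGreatest (fun κ => nn m' (r + 3) κ ≤ l) l := ⟨_, rfl⟩
  have hbd : k ≤ l := (le_nn (m := m') (r := r + 1) (by omega) _).trans hk0
  have h1 : k ≤ K' := by
    rw [hK']
    exact Nat.le_findGreatest hbd hk0
  have h2 : nn m' (r + 3) K' ≤ l := by
    rw [hK']
    exact Nat.findGreatest_spec (P := fun κ => nn m' (r + 3) κ ≤ l) hbd hk0
  have h3 : l < nn m' (r + 3) (K' + 1) := by
    by_contra hcon
    rw [not_lt] at hcon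
    have h4 := le_nn (m := m') (r := r + 1) (by omega) (K' + 1)
    have h5 := Nat.le_findGreatest (P := fun κ => nn m' (r + 3) κ ≤ l)
      (show K' + 1 ≤ l from h4.trans hcon) hcon
    omega
  -- the index `K + 1`
  have hex : ∃ κ, l ≤ nn m (r + 3) κ := ⟨l, le_nn (by omega) l⟩
  obtain ⟨κ, hκ⟩ : ∃ κ, κ = Nat.find hex := ⟨_, rfl⟩
  have h4 : l ≤ nn m (r + 3) κ := by
    rw [hκ]
    exact Nat.find_spec hex
  have hlt : nn m (r + 3) K' < l := by
    have e1 := nn_PP1 (m := m) (k := K') (r + 2) (by omega)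
    have e2 := nn_PP1 (m := m') (k := K') (r + 2) (by omega)
    have e3 := PP1_strict (r + 2) (show K' - m' < K' - m by omega)
    change nn m (r + 3) K' + _ = _ at e1
    change nn m' (r + 3) K' + _ = _ at e2
    omega
  have hkk : K' < κ := by
    by_contra hcon
    have := nn_mono m (r + 3) (by omega) (not_lt.mp hcon)
    omega
  have h5 : nn m (r + 3) (κ - 1) < l := by
    have := Nat.find_min hex (m := κ - 1) (by omega)
    omega
  obtain ⟨K, rfl⟩ : ∃ K, κ = K + 1 := ⟨κ - 1, by omega⟩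
  rw [Nat.add_sub_cancel] at h5
  have hs := surface_lt2 (K := K) (K' := K') hmm hmk hrk h1 (by omega) (by omega)
    (by
      refine h2.trans (hl2.le.trans ?_)
      unfold PP1
      rw [show r + 3 + k = r + 2 + (k + 1) by ring]) H
  have h6 := bst_lt2 (r := r) (K := K) (K' := K') (by omega) hmm (by omega) (by omega)
    (h5.trans h3) hs
  have h7 := (exists_level (r := r + 1) (m := m') (by omega) (by omega) (by omega) h2).2
  have h8 : nn m₁ (r + 3) m₁ ≤ l := by
    refine (nn_le_choose _ _ _).trans (le_trans ?_ hl1)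
    exact Nat.choose_le_choose _ (by omega)
  obtain ⟨hne, _⟩ := exists_level (r := r + 1) (m := m₁) (l := l) (k := m₁) (by omega) hm1 le_rfl h8
  obtain ⟨⟨I, hI1, hI2, hI3, hI4⟩, _⟩ := isGreatest_TMax (by omega) hne
  have h9 := upper_range (r := r + 1) (m := m) (k := K + 1) (by omega) (by omega) (by omega)
    hI1 hI2 h4 (by omega)
  change bst m' (r + 1) K' ≤ TMax (r + 3) m' l at h7
  change tangentDim I = TMax (r + 3) m₁ l at hI4
  omega

end Pool.Agent.MP_74475a_ag
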