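import Mathlib
import Pool.Agent.MP_74475a_ag.MacroCrit

/-!
The comparison of two separated classes in closed form.
-/

namespace Pool.Agent.MP_74475a_ag

open Finset

theorem fact_PP1_succ (n x : ℕ) :
    (n + 1).factorial * PP1 n (x + 1) = (n + 1).factorial * PP1 n x +
      (n + 1) * (n.factorial * (n + x).choose n) := by
  rw [PP1_diff, Nat.factorial_succ]
  ring

theorem fact_choose_ge (n x : ℕ) : (x + 1) ^ n ≤ n.factorial * (n + x).choose n := by
  rw [← Nat.descFactorial_eq_factorial_mul_choose]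
  have h := Nat.pow_sub_le_descFactorial (n + x) n
  rwa [show n + x + 1 - n = x + 1 by omega] at h

theorem fact_choose_le (n y : ℕ) : n.factorial * y.choose n ≤ y ^ n := by
  rw [← Nat.descFactorial_eq_factorial_mul_choose]
  exact Nat.descFactorial_le_pow y n

theorem pow_step (n x : ℕ) : (x + 1) ^ (n + 1) ≤ x ^ (n + 1) + (n + 1) * (x + 1) ^ n := by
  induction n with
  | zero => simp
  | succ n ih =>
    have h1 : x ^ (n + 1) ≤ (x + 1) ^ (n + 1) := Nat.pow_le_pow_left (by omega) _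
    calc (x + 1) ^ (n + 1 + 1) = x * (x + 1) ^ (n + 1) + (x + 1) ^ (n + 1) := by ring
      _ ≤ x * (x ^ (n + 1) + (n + 1) * (x + 1) ^ n) + (x + 1) ^ (n + 1) := by
          gcongr
      _ ≤ x * x ^ (n + 1) + (n + 1) * ((x + 1) * (x + 1) ^ n) + (x + 1) ^ (n + 1) := by
          have : x * ((n + 1) * (x + 1) ^ n) ≤ (n + 1) * ((x + 1) * (x + 1) ^ n) := by
            calc x * ((n + 1) * (x + 1) ^ n) = (n + 1) * (x * (x + 1) ^ n) := by ring
              _ ≤ _ := by gcongr; omega
          rw [mul_add]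
          omega
      _ = x ^ (n + 1 + 1) + (n + 1 + 1) * (x + 1) ^ (n + 1) := by ring

/-- `n! P_n(x) - x^n` is nondecreasing -/
theorem pow_le_PP1 (n a : ℕ) : ∀ t,
    (a + t) ^ (n + 1) + (n + 1).factorial * PP1 n a ≤
      a ^ (n + 1) + (n + 1).factorial * PP1 n (a + t) := by
  intro t
  induction t with
  | zero => simp
  | succ t ih =>
    have h1 := fact_PP1_succ n (a + t)
    have h2 := fact_choose_ge n (a + t)
    have h3 := pow_step n (a + t)
    have h4 : (n + 1) * (a + t + 1) ^ n ≤ (n + 1) * (n.factorial * (n + (a + t)).choose n) :=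
      Nat.mul_le_mul_left _ h2
    rw [show a + (t + 1) = a + t + 1 from rfl]
    omega

theorem bern (k N : ℕ) : ∀ n, (k + N) ^ n * (k - n * N) ≤ k ^ (n + 1) := by
  intro n
  induction n with
  | zero => simp
  | succ n ih =>
    rcases Nat.lt_or_ge k ((n + 1) * N) with h | h
    · rw [show k - (n + 1) * N = 0 by omega]
      simp
    · obtain ⟨z, hz⟩ := Nat.exists_eq_add_of_le h
      have e1 : k - (n + 1) * N = z := by omega
      have e2 : k - n * N = z + N := by
        have : (n + 1) * N = n * N + N := by ring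
        omega
      rw [e1]
      rw [e2] at ih
      have h5 : (k + N) * z ≤ k * (z + N) := by
        have : N * z ≤ k * N := by
          rw [mul_comm]
          exact Nat.mul_le_mul_right _ (by omega)
        calc (k + N) * z = k * z + N * z := by ring
          _ ≤ k * z + k * N := by omega
          _ = _ := by ring
      calc (k + N) ^ (n + 1) * z = (k + N) ^ n * ((k + N) * z) := by ring
        _ ≤ (k + N) ^ n * (k * (z + N)) := Nat.mul_le_mul_left _ h5
        _ = k * ((k + N) ^ n * (z + N)) := by ring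
        _ ≤ k * k ^ (n + 1) := Nat.mul_le_mul_left _ ih
        _ = _ := by ring

theorem pow_add_le (k N : ℕ) (h : 2 * (N * N) ≤ k) (hk : 0 < k) : (k + N) ^ N ≤ 2 * k ^ N := by
  have h1 := bern k N N
  have h2 : k ≤ 2 * (k - N * N) := by omega
  have h3 : (k + N) ^ N * k ≤ (2 * k ^ N) * k := by
    calc (k + N) ^ N * k ≤ (k + N) ^ N * (2 * (k - N * N)) := Nat.mul_le_mul_left _ h2
      _ = 2 * ((k + N) ^ N * (k - N * N)) := by ring
      _ ≤ 2 * k ^ (N + 1) := Nat.mul_le_mul_left _ h1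
      _ = _ := by ring
  exact le_of_mul_le_mul_right h3 hk

/-- the criterion, power form -/
theorem crit_pow {r k m m' : ℕ} (hmm : m < m') (hmk : m' ≤ k)
    (hk : 2 * ((r + 3) * (r + 3)) ≤ k)
    (H : 22 * (r + 3) * k ^ (r + 3) + m * m' * (k - m') ^ (r + 2) ≤
      m * m' * (k - m) ^ (r + 2)) :
    10 * (r + 2) * (k + 1) * PP1 (r + 1) (k + 2) + (m + 1) * m' * PP1 (r + 1) (k - m' + 1) ≤
      (m + 1) * m' * PP1 (r + 1) (k - m) := by
  have hpos : 0 < (r + 2).factorial := Nat.factorial_pos _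
  -- sizes
  have a1 : (r + 2).factorial * PP1 (r + 1) (k + 2) ≤ (k + (r + 3)) ^ (r + 2) := by
    have := fact_choose_le (r + 2) (r + 1 + (k + 2))
    unfold PP1
    rwa [show r + 1 + (k + 2) = k + (r + 3) by ring] at this ⊢
  have a2 := pow_le_PP1 (r + 1) (k - m') (m' - m)
  rw [show k - m' + (m' - m) = k - m by omega] at a2
  have a3 := fact_PP1_succ (r + 1) (k - m')
  have a4 : (r + 1).factorial * (r + 1 + (k - m')).choose (r + 1) ≤ (k + (r + 3)) ^ (r + 1) := by
    refine (fact_choose_le (r + 1) _).trans ?_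
    exact Nat.pow_le_pow_left (by omega) _
  have a5 := pow_add_le k (r + 3) hk (by nlinarith)
  have a6 : (r + 1 + 1) * ((r + 1).factorial * (r + 1 + (k - m')).choose (r + 1)) ≤
      (r + 2) * (k + (r + 3)) ^ (r + 1) := Nat.mul_le_mul_left _ a4
  -- the bracket
  obtain ⟨U, hU⟩ : ∃ U, U = (r + 2).factorial * PP1 (r + 1) (k - m) := ⟨_, rfl⟩
  obtain ⟨V, hV⟩ : ∃ V, V = (r + 2).factorial * PP1 (r + 1) (k - m' + 1) := ⟨_, rfl⟩
  have b1 : (k - m) ^ (r + 2) + V ≤ (k - m') ^ (r + 2) + (r + 2) * (k + (r + 3)) ^ (r + 1) + U := by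
    change (k - m) ^ (r + 2) + (r + 2).factorial * PP1 (r + 1) (k - m') ≤
      (k - m') ^ (r + 2) + (r + 2).factorial * PP1 (r + 1) (k - m) at a2
    change (r + 2).factorial * PP1 (r + 1) (k - m' + 1) =
      (r + 2).factorial * PP1 (r + 1) (k - m') + _ at a3
    rw [← hU] at a2
    rw [← hV] at a3
    omega
  have b2 : (m + 1) * m' ≤ (k + (r + 3)) * (k + (r + 3)) := Nat.mul_le_mul (by omega) (by omega)
  have b3 : (m + 1) * m' * ((r + 2) * (k + (r + 3)) ^ (r + 1)) ≤
      (r + 2) * (k + (r + 3)) ^ (r + 3) := by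
    calc (m + 1) * m' * ((r + 2) * (k + (r + 3)) ^ (r + 1)) ≤
          (k + (r + 3)) * (k + (r + 3)) * ((r + 2) * (k + (r + 3)) ^ (r + 1)) :=
          Nat.mul_le_mul_right _ b2
      _ = _ := by ring
  have b4 : 10 * (r + 2) * (k + 1) * (k + (r + 3)) ^ (r + 2) ≤
      10 * (r + 2) * (k + (r + 3)) ^ (r + 3) := by
    calc 10 * (r + 2) * (k + 1) * (k + (r + 3)) ^ (r + 2) ≤
          10 * (r + 2) * (k + (r + 3)) * (k + (r + 3)) ^ (r + 2) := by
            apply Nat.mul_le_mul_right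
            exact Nat.mul_le_mul_left _ (by omega)
      _ = _ := by ring
  have b5 : 11 * (r + 2) * (k + (r + 3)) ^ (r + 3) ≤ 22 * (r + 3) * k ^ (r + 3) := by
    calc 11 * (r + 2) * (k + (r + 3)) ^ (r + 3) ≤ 11 * (r + 2) * (2 * k ^ (r + 3)) :=
          Nat.mul_le_mul_left _ a5
      _ = 22 * (r + 2) * k ^ (r + 3) := by ring
      _ ≤ _ := Nat.mul_le_mul_right _ (by omega)
  have b6 : (k - m') ^ (r + 2) ≤ (k - m) ^ (r + 2) := Nat.pow_le_pow_left (by omega) _
  -- `H` with `m + 1`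
  have H' : 22 * (r + 3) * k ^ (r + 3) + (m + 1) * m' * (k - m') ^ (r + 2) ≤
      (m + 1) * m' * (k - m) ^ (r + 2) := by
    have e1 : (m + 1) * m' * (k - m') ^ (r + 2) =
        m * m' * (k - m') ^ (r + 2) + m' * (k - m') ^ (r + 2) := by ring
    have e2 : (m + 1) * m' * (k - m) ^ (r + 2) =
        m * m' * (k - m) ^ (r + 2) + m' * (k - m) ^ (r + 2) := by ring
    have e3 : m' * (k - m') ^ (r + 2) ≤ m' * (k - m) ^ (r + 2) := Nat.mul_le_mul_left _ b6
    omega
  -- multiply by the factorial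
  apply le_of_mul_le_mul_left _ hpos
  have c1 : (r + 2).factorial * (10 * (r + 2) * (k + 1) * PP1 (r + 1) (k + 2) +
      (m + 1) * m' * PP1 (r + 1) (k - m' + 1)) =
      10 * (r + 2) * (k + 1) * ((r + 2).factorial * PP1 (r + 1) (k + 2)) + (m + 1) * m' * V := by
    rw [hV]
    ring
  have c2 : (r + 2).factorial * ((m + 1) * m' * PP1 (r + 1) (k - m)) = (m + 1) * m' * U := by
    rw [hU]
    ring
  rw [c1, c2]
  have c3 : 10 * (r + 2) * (k + 1) * ((r + 2).factorial * PP1 (r + 1) (k + 2)) ≤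
      10 * (r + 2) * (k + 1) * (k + (r + 3)) ^ (r + 2) := Nat.mul_le_mul_left _ a1
  have c4 : (m + 1) * m' * ((k - m) ^ (r + 2) + V) ≤
      (m + 1) * m' * ((k - m') ^ (r + 2) + (r + 2) * (k + (r + 3)) ^ (r + 1) + U) :=
    Nat.mul_le_mul_left _ b1
  rw [mul_add, mul_add, mul_add] at c4
  have c5 : 11 * (r + 2) * (k + (r + 3)) ^ (r + 3) = 10 * (r + 2) * (k + (r + 3)) ^ (r + 3) +
      (r + 2) * (k + (r + 3)) ^ (r + 3) := by ring
  omega

theorem pow_diff_ge (n b t : ℕ) : b ^ (n + 1) + t * b ^ n ≤ (b + t) ^ (n + 1) := by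
  have h1 : b ^ n ≤ (b + t) ^ n := Nat.pow_le_pow_left (by omega) _
  calc b ^ (n + 1) + t * b ^ n = (b + t) * b ^ n := by ring
    _ ≤ (b + t) * (b + t) ^ n := Nat.mul_le_mul_left _ h1
    _ = _ := by ring

/-- the constant -/
def CN (N : ℕ) : ℕ := (5 * N) ^ 7 * 2 ^ N

theorem main_separated {r k l m m' : ℕ} (hm : 1 ≤ m) (hmm : m < m') (hmk : m' ≤ k)
    (hl1 : (r + 2 + k).choose (r + 3) ≤ l) (hl2 : l < (r + 3 + k).choose (r + 3))
    (H : CN (r + 3) * k ^ (r + 1) + (k - m') ^ (r + 2) ≤ (k - m) ^ (r + 2)) :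
    TMax (r + 3) m l < TMax (r + 3) m' l := by
  -- `k` is large
  have hk0 : 0 < k ^ (r + 1) := Nat.pow_pos (by omega)
  have hkC : CN (r + 3) ≤ k := by
    have h1 : (k - m) ^ (r + 2) ≤ k ^ (r + 2) := Nat.pow_le_pow_left (by omega) _
    have h2 : CN (r + 3) * k ^ (r + 1) ≤ k * k ^ (r + 1) := by
      have : k * k ^ (r + 1) = k ^ (r + 2) := by ring
      omega
    exact le_of_mul_le_mul_right h2 hk0
  have hCN : CN (r + 3) = 78125 * ((r + 3) ^ 7 * 2 ^ (r + 3)) := by
    unfold CN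
    rw [mul_pow]
    norm_num
    ring
  have h2p : 1 ≤ 2 ^ (r + 3) := Nat.one_le_two_pow
  have hN3 : 3 ≤ r + 3 := by omega
  -- useful sizes
  obtain ⟨q, hq⟩ : ∃ q, q = 24 * (r + 3) ^ 2 := ⟨_, rfl⟩
  have hq216 : 216 ≤ q := by rw [hq]; nlinarith
  have hkq : 11 * (r + 3) * q ^ 3 * 2 ^ (r + 2) ≤ k := by
    refine le_trans ?_ hkC
    rw [hCN, hq]
    calc 11 * (r + 3) * (24 * (r + 3) ^ 2) ^ 3 * 2 ^ (r + 2) =
          76032 * ((r + 3) ^ 7 * 2 ^ (r + 3)) := by ring
      _ ≤ _ := Nat.mul_le_mul_right _ (by norm_num)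
  have hqk : q * q ≤ k := by
    refine le_trans ?_ hkq
    have h1 : 1 ≤ 2 ^ (r + 2) := Nat.one_le_two_pow
    calc q * q ≤ (11 * (r + 3) * q) * (q * q) := Nat.le_mul_of_pos_left _ (by positivity)
      _ = 11 * (r + 3) * q ^ 3 * 1 := by ring
      _ ≤ 11 * (r + 3) * q ^ 3 * 2 ^ (r + 2) := Nat.mul_le_mul_left _ h1
  have hk2N : 2 * ((r + 3) * (r + 3)) ≤ k := by
    have h1 : 2 * ((r + 3) * (r + 3)) ≤ q := by rw [hq]; nlinarith
    have h2 : q ≤ q * q := Nat.le_mul_of_pos_left _ (by omega)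
    omega
  have hrk : r + 1 ≤ k := by nlinarith
  rcases Nat.lt_or_ge k (12 * (r + 3) ^ 2 * m') with hc | hc
  · -- the main case
    have hm'q : 2 * k ≤ q * m' := by
      have : q * m' = 2 * (12 * (r + 3) ^ 2 * m') := by rw [hq]; ring
      omega
    obtain ⟨m0, hm0⟩ : ∃ m0, m0 = k / q + 1 := ⟨_, rfl⟩
    have hdm := Nat.div_add_mod k q
    have hml := Nat.mod_lt k (show q > 0 by omega)
    have hm0a : k ≤ q * m0 := by
      rw [hm0, mul_add, mul_one]
      omega
    have hm0b : q * m0 ≤ k + q := by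
      rw [hm0, mul_add, mul_one]
      omega
    rcases Nat.lt_or_ge m m0 with hmc | hmc
    · -- replace `m` by `m0`
      have h2qk : 216 * q ≤ k := (Nat.mul_le_mul_right q hq216).trans hqk
      have hm0m' : m0 < m' := by
        by_contra hcon
        have : q * m' ≤ q * m0 := Nat.mul_le_mul_left _ (not_lt.mp hcon)
        omega
      obtain ⟨h, hh⟩ : ∃ h, h = k / 2 := ⟨_, rfl⟩
      obtain ⟨m2, hm2⟩ : ∃ m2, m2 = min m' h := ⟨_, rfl⟩
      have hm2a : k ≤ 2 * q * (m2 - m0) := by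
        rcases Nat.le_total m' h with h' | h'
        · rw [hm2, Nat.min_eq_left h']
          have e : q * (m' - m0) = q * m' - q * m0 := Nat.mul_sub q m' m0
          have e' : 2 * q * (m' - m0) = 2 * (q * (m' - m0)) := by ring
          omega
        · rw [hm2, Nat.min_eq_right h']
          have e : q * (h - m0) = q * h - q * m0 := Nat.mul_sub q h m0
          have e' : 2 * q * (h - m0) = 2 * (q * (h - m0)) := by ring
          have e2 : q * (k / 2) * 2 + q ≥ q * k := by
            have : k ≤ k / 2 * 2 + 1 := by omega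
            calc q * k ≤ q * (k / 2 * 2 + 1) := Nat.mul_le_mul_left _ this
              _ = _ := by ring
          rw [← hh] at e2
          have e3 : 216 * k ≤ q * k := Nat.mul_le_mul_right _ hq216
          omega
      have hm2b : k ≤ 2 * (k - m2) := by
        have : m2 ≤ h := by rw [hm2]; exact Nat.min_le_right _ _
        omega
      have hm2c : m2 ≤ m' := by rw [hm2]; exact Nat.min_le_left _ _
      have hm2d : m0 ≤ m2 := by
        by_contra hcon
        rw [show m2 - m0 = 0 by omega] at hm2a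
        omega
      apply crit (m := m0) hm hmc.le hm0m' hmk hrk hl1 hl2
      apply crit_pow hm0m' hmk hk2N
      have d1 := pow_diff_ge (r + 1) (k - m2) (m2 - m0)
      rw [show k - m2 + (m2 - m0) = k - m0 by omega] at d1
      have d2 : (k - m') ^ (r + 2) ≤ (k - m2) ^ (r + 2) := Nat.pow_le_pow_left (by omega) _
      have d3 : k ^ (r + 1) ≤ 2 ^ (r + 1) * (k - m2) ^ (r + 1) := by
        rw [← mul_pow]
        exact Nat.pow_le_pow_left hm2b _
      have d4 : k ^ (r + 2) ≤ 2 * q * 2 ^ (r + 1) * ((m2 - m0) * (k - m2) ^ (r + 1)) := by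
        calc k ^ (r + 2) = k * k ^ (r + 1) := by ring
          _ ≤ (2 * q * (m2 - m0)) * (2 ^ (r + 1) * (k - m2) ^ (r + 1)) := Nat.mul_le_mul hm2a d3
          _ = _ := by ring
      have d5 : 2 * (k * k) ≤ q * q * (m0 * m') := by
        calc 2 * (k * k) = k * (2 * k) := by ring
          _ ≤ (q * m0) * (q * m') := Nat.mul_le_mul hm0a hm'q
          _ = _ := by ring
      have d6 : 22 * (r + 3) * k ^ (r + 3) ≤ m0 * m' * ((m2 - m0) * (k - m2) ^ (r + 1)) := by
        have hp : 0 < q * q * (2 * q * 2 ^ (r + 1)) := by positivity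
        apply le_of_mul_le_mul_left _ hp
        calc q * q * (2 * q * 2 ^ (r + 1)) * (22 * (r + 3) * k ^ (r + 3)) =
              2 * ((11 * (r + 3) * q ^ 3 * 2 ^ (r + 2)) * k ^ (r + 3)) := by ring
          _ ≤ 2 * (k * k ^ (r + 3)) := by gcongr
          _ = (2 * (k * k)) * k ^ (r + 2) := by ring
          _ ≤ (q * q * (m0 * m')) * (2 * q * 2 ^ (r + 1) * ((m2 - m0) * (k - m2) ^ (r + 1))) :=
              Nat.mul_le_mul d5 d4
          _ = _ := by ring
      have d7 : m0 * m' * ((k - m2) ^ (r + 2) + (m2 - m0) * (k - m2) ^ (r + 1)) ≤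
          m0 * m' * (k - m0) ^ (r + 2) := Nat.mul_le_mul_left _ d1
      rw [mul_add] at d7
      have d8 : m0 * m' * (k - m') ^ (r + 2) ≤ m0 * m' * (k - m2) ^ (r + 2) :=
        Nat.mul_le_mul_left _ d2
      omega
    · apply crit (m := m) hm le_rfl hmm hmk hrk hl1 hl2
      apply crit_pow hmm hmk hk2N
      have d5 : 2 * (k * k) ≤ q * q * (m * m') := by
        calc 2 * (k * k) = k * (2 * k) := by ring
          _ ≤ (q * m) * (q * m') :=
              Nat.mul_le_mul (hm0a.trans (Nat.mul_le_mul_left _ hmc)) hm'q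
          _ = _ := by ring
      have d6 : 22 * (r + 3) * k ^ (r + 3) ≤ m * m' * (CN (r + 3) * k ^ (r + 1)) := by
        have hp : 0 < q * q := by positivity
        apply le_of_mul_le_mul_left _ hp
        have hC2 : 11 * (r + 3) * (q * q) ≤ CN (r + 3) := by
          rw [hCN, hq]
          have e1 : (r + 3) ^ 5 ≤ (r + 3) ^ 7 := Nat.pow_le_pow_right (by omega) (by norm_num)
          calc 11 * (r + 3) * (24 * (r + 3) ^ 2 * (24 * (r + 3) ^ 2)) =
                6336 * ((r + 3) ^ 5 * 1) := by ring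
            _ ≤ 6336 * ((r + 3) ^ 7 * 2 ^ (r + 3)) :=
                Nat.mul_le_mul_left _ (Nat.mul_le_mul e1 h2p)
            _ ≤ _ := Nat.mul_le_mul_right _ (by norm_num)
        calc q * q * (22 * (r + 3) * k ^ (r + 3)) =
              (2 * (k * k)) * ((11 * (r + 3) * (q * q)) * k ^ (r + 1)) := by ring
          _ ≤ (q * q * (m * m')) * (CN (r + 3) * k ^ (r + 1)) := by gcongr
          _ = _ := by ring
      have d7 : m * m' * (CN (r + 3) * k ^ (r + 1) + (k - m') ^ (r + 2)) ≤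
          m * m' * (k - m) ^ (r + 2) := Nat.mul_le_mul_left _ H
      rw [mul_add] at d7
      omega
  · exact range_main hm hmm hc hl1

end Pool.Agent.MP_74475a_ag
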